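import Pool.Agent.Helper18.SV.Main

/-!
# Project SV (MP_cb0067_co): packet FIN (the exceptional fibre)
-/

open Finset
open scoped Pointwise

namespace Pool.Agent.Helper2.SV

open Pool.Agent.Helper95.SF
open Pool.Agent.Helper18.SV

universe u

section

variable {G : Type u} [AddCommGroup G] [Fintype G] [DecidableEq G]

open Classical in
/-- a subgroup as a finset. -/
noncomputable def fs (M : AddSubgroup G) : Finset G := Finset.univ.filter (fun g => g ∈ M)

omit [DecidableEq G] in
theorem mem_fs (M : AddSubgroup G) (g : G) : g ∈ fs M ↔ g ∈ M := by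
  unfold fs
  simp

omit [DecidableEq G] in
theorem card_fs (M : AddSubgroup G) : (fs M).card = Nat.card M := by
  classical
  have h : ((fs M : Finset G) : Set G) = (M : Set G) := by
    ext g
    rw [Finset.mem_coe, mem_fs]
    rfl
  have h2 := Set.ncard_coe_finset (fs M)
  rw [h] at h2
  rw [← h2]
  rfl

omit [Fintype G] in
/-- sums of translates. -/
theorem card_add_image_sub (X A : Finset G) (x : G) :
    (X + A.image (fun a => a - x)).card = (X + A).card := by
  have h : X + A.image (fun a => a - x) = (X + A).image (fun a => a - x) := by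
    ext z
    rw [Finset.mem_add, Finset.mem_image]
    constructor
    · rintro ⟨u, hu, v, hv, rfl⟩
      obtain ⟨a, ha, rfl⟩ := Finset.mem_image.1 hv
      exact ⟨u + a, Finset.add_mem_add hu ha, by abel⟩
    · rintro ⟨w, hw, rfl⟩
      obtain ⟨u, hu, a, ha, rfl⟩ := Finset.mem_add.1 hw
      exact ⟨u, hu, a - x, Finset.mem_image_of_mem _ ha, by abel⟩
  rw [h]
  exact Finset.card_image_of_injective _ (sub_left_injective)

/-- the size of a set in a coset. -/
theorem card_le_coset (M : AddSubgroup G) (X : Finset G) (g : G) (h : ∀ y ∈ X, y - g ∈ M) :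
    X.card ≤ Nat.card M := by
  rw [← card_fs M, ← Finset.card_image_of_injective X (sub_left_injective (b := g))]
  apply Finset.card_le_card
  intro z hz
  obtain ⟨y, hy, rfl⟩ := Finset.mem_image.1 hz
  rw [mem_fs]
  exact h y hy

/-- growth of the multiples. -/
theorem grow (hOLS : G_OLS.{u}) (M : AddSubgroup G) (A : Finset G) (x : G) (hx : x ∈ A)
    (hcl : AddSubgroup.closure ((A.image (fun a => a - x) : Finset G) : Set G) = M)
    (hAM : ∀ a ∈ A, a - x ∈ M) (j : ℕ) :
    (nsum A (j + 1)).card = Nat.card M ∨ (j + 2) * A.card ≤ 2 * (nsum A (j + 1)).card := by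
  have h0 : (0 : G) ∈ A.image (fun a => a - x) := Finset.mem_image.2 ⟨x, hx, sub_self x⟩
  induction j with
  | zero =>
    right
    rw [zero_add, nsum_one]
  | succ j ih =>
    have h1 := hOLS G M (A.image (fun a => a - x)) h0 hcl (nsum A (j + 1)) ((j + 1) • x)
      (nsum_nonempty ⟨x, hx⟩ _) (nsum_coset M x hAM (j + 1))
    rw [card_add_image_sub, ← nsum_succ,
      Finset.card_image_of_injective A (sub_left_injective (b := x))] at h1
    have h2 := card_le_coset M (nsum A (j + 1 + 1)) ((j + 1 + 1) • x)
      (nsum_coset M x hAM (j + 1 + 1))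
    rcases h1 with h1 | h1
    · exact Or.inl h1
    · rcases ih with ih | ih
      · left
        omega
      · right
        have : (j + 1 + 2) * A.card = (j + 2) * A.card + A.card := by ring
        omega

/-- the core of the packet, inside `G`. -/
theorem core2 (hOLS : G_OLS.{u}) (M : AddSubgroup G) (A : Finset G) (x : G) (hx : x ∈ A)
    (hAM : ∀ a ∈ A, a - x ∈ M) (s : ℕ) (hs : 4 ≤ s) (h3 : Nat.card M < 3 * A.card)
    (h7 : s = 4 → 3 * Nat.card M < 7 * A.card) (hsx : s • x ∈ M) (h0 : (0 : G) ∉ nsum A s) :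
    2 ∣ addOrderOf (s • x) := by
  classical
  set B : Finset G := A.image (fun a => a - x) with hB
  have hBc : B.card = A.card := Finset.card_image_of_injective A (sub_left_injective (b := x))
  set M' : AddSubgroup G := AddSubgroup.closure (B : Set G) with hM'
  have hBM' : ∀ b ∈ B, b ∈ M' := fun b hb => AddSubgroup.subset_closure hb
  have hM'M : M' ≤ M := by
    rw [hM', AddSubgroup.closure_le]
    intro b hb
    obtain ⟨a, ha, rfl⟩ := Finset.mem_image.1 (Finset.mem_coe.1 hb)
    exact hAM a ha
  have hcard : A.card ≤ Nat.card M' := by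
    rw [← hBc, ← card_fs M']
    apply Finset.card_le_card
    intro b hb
    rw [mem_fs]
    exact hBM' b hb
  -- the index
  have hidx := AddSubgroup.card_mul_index (M'.addSubgroupOf M)
  have hc1 : Nat.card (M'.addSubgroupOf M) = Nat.card M' :=
    Nat.card_congr (AddSubgroup.addSubgroupOfEquivOfLe hM'M).toEquiv
  rw [hc1] at hidx
  have hMpos : 0 < Nat.card M := Nat.card_pos
  have hq : (M'.addSubgroupOf M).index = 1 ∨ (M'.addSubgroupOf M).index = 2 := by
    have h1 : (M'.addSubgroupOf M).index ≠ 0 := by
      intro h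
      rw [h, mul_zero] at hidx
      omega
    by_contra hcon
    push Not at hcon
    have h2 : 3 ≤ (M'.addSubgroupOf M).index := by omega
    have h3' : A.card * 3 ≤ Nat.card M := by
      rw [← hidx]
      exact Nat.mul_le_mul hcard h2
    omega
  rcases hq with hq | hq
  · -- index 1
    exfalso
    have hMM : M' = M := by
      apply le_antisymm hM'M
      rw [AddSubgroup.index_eq_one, AddSubgroup.addSubgroupOf_eq_top] at hq
      exact hq
    obtain ⟨j, rfl⟩ : ∃ j, s = j + 1 := ⟨s - 1, by omega⟩
    have hgr := grow hOLS M A x hx (by rw [← hB, ← hM', hMM]) hAM j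
    have hle := card_le_coset M (nsum A (j + 1)) ((j + 1) • x) (nsum_coset M x hAM (j + 1))
    have hfull : (nsum A (j + 1)).card = Nat.card M := by
      rcases hgr with h | h
      · exact h
      · exfalso
        by_cases hj : j = 3
        · subst hj
          have := h7 rfl
          omega
        · have h5 : (6 : ℕ) * A.card ≤ (j + 2) * A.card := Nat.mul_le_mul_right _ (by omega)
          omega
    have hsub : nsum A (j + 1) ⊆ fs M := by
      intro y hy
      rw [mem_fs]
      have := M.add_mem (nsum_coset M x hAM (j + 1) y hy) hsx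
      rwa [sub_add_cancel] at this
    have heq := Finset.eq_of_subset_of_card_le hsub (by rw [card_fs, hfull])
    apply h0
    rw [heq, mem_fs]
    exact M.zero_mem
  · -- index 2
    rw [hq] at hidx
    have hB2 : (fs M').card < B.card + B.card := by
      rw [card_fs, hBc]
      omega
    have hpig : ∀ g ∈ M', ∃ u ∈ B, ∃ v ∈ B, u + v = g := by
      intro g hg
      have h1 : (B.image (fun b => g - b)).card = B.card :=
        Finset.card_image_of_injective B (sub_right_injective)
      have h2 : B ⊆ fs M' := fun b hb => (mem_fs _ _).2 (hBM' b hb)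
      have h3 : B.image (fun b => g - b) ⊆ fs M' := by
        intro z hz
        obtain ⟨b, hb, rfl⟩ := Finset.mem_image.1 hz
        exact (mem_fs _ _).2 (M'.sub_mem hg (hBM' b hb))
      have h4 : (B ∩ B.image (fun b => g - b)).Nonempty := by
        apply Finset.inter_nonempty_of_card_lt_card_add_card h2 h3
        rw [h1]
        exact hB2
      obtain ⟨z, hz⟩ := h4
      obtain ⟨hz1, hz2⟩ := Finset.mem_inter.1 hz
      obtain ⟨v, hv, rfl⟩ := Finset.mem_image.1 hz2
      exact ⟨g - v, hz1, v, hv, by abel⟩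
    have hnot : s • x ∉ M' := by
      intro hin
      obtain ⟨u, hu, v, hv, huv⟩ := hpig (-(s • x)) (M'.neg_mem hin)
      obtain ⟨a, ha, rfl⟩ := Finset.mem_image.1 hu
      obtain ⟨b, hb, rfl⟩ := Finset.mem_image.1 hv
      apply h0
      rw [mem_nsum_iff]
      refine ⟨a ::ₘ b ::ₘ Multiset.replicate (s - 2) x, ?_, ?_, ?_⟩
      · intro c hc
        rcases Multiset.mem_cons.1 hc with rfl | hc
        · exact ha
        rcases Multiset.mem_cons.1 hc with rfl | hc
        · exact hb
        rw [Multiset.eq_of_mem_replicate hc]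
        exact hx
      · rw [Multiset.card_cons, Multiset.card_cons, Multiset.card_replicate]
        omega
      · rw [Multiset.sum_cons, Multiset.sum_cons, Multiset.sum_replicate]
        have h1 : s • x = (s - 2) • x + (x + x) := by
          conv_lhs => rw [show s = (s - 2) + 2 by omega, add_nsmul, two_nsmul]
        rw [h1] at huv
        have h2 : a + (b + (s - 2) • x) = (a - x + (b - x)) + ((s - 2) • x + (x + x)) := by abel
        rw [h2, huv]
        abel
    have hdbl : ∀ z ∈ M, z + z ∈ M' := by
      intro z hz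
      have h1 := AddSubgroup.add_self_mem_of_index_two hq ⟨z, hz⟩
      rw [AddSubgroup.mem_addSubgroupOf] at h1
      exact h1
    rw [← even_iff_two_dvd]
    by_contra hodd
    rw [Nat.not_even_iff_odd] at hodd
    obtain ⟨i, hi⟩ := hodd
    have h1 : addOrderOf (s • x) • (s • x) = 0 := addOrderOf_nsmul_eq_zero _
    rw [hi, add_nsmul, one_nsmul, mul_comm 2 i, mul_nsmul', two_nsmul] at h1
    apply hnot
    have h2 : s • x = -(i • (s • x + s • x)) := by
      rw [eq_neg_iff_add_eq_zero, add_comm]
      exact h1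
    rw [h2]
    exact M'.neg_mem (M'.nsmul_mem (hdbl _ hsx) i)

end

/-- numbers, first part. -/
theorem num {T s k c N a n A : ℕ} (hc : 2 ≤ c) (hT1 : T ≤ s ^ 2)
    (hn : k * N = n) (hN : s * (s * (c - 1) + 1) ≤ N)
    (hA : A ≤ (c - 1) * k + a) (hlt : n < T * A) :
    k * (s ^ 2 + s) < T * a + T * k := by
  obtain ⟨m, rfl⟩ : ∃ m, c = m + 2 := ⟨c - 2, by omega⟩
  have h1 : T * A ≤ T * ((m + 1) * k + a) := Nat.mul_le_mul_left _ hA
  have h2 : k * (s * (s * (m + 1) + 1)) ≤ n := by
    rw [← hn]
    exact Nat.mul_le_mul_left _ hN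
  have h3 : T * (m * k) ≤ s ^ 2 * (m * k) := Nat.mul_le_mul_right _ hT1
  nlinarith

/-- **FIN**. -/
theorem t (hOLS : G_OLS.{u}) : G_FIN.{u} := by
  intro G H _ _ _ _ _ _ f hf k s hk A hs hA x hx hord hc hfib hH
  by_cases hT : T s * A.card ≤ Fintype.card G
  · exact Or.inl hT
  right
  push Not at hT
  have hle := card_le_of_fibre f hf k hk A x hx
  set a := (A.filter (fun g => f g = x)).card with ha
  set c := (A.image f).card with hcdef
  have hGpos : 0 < Fintype.card G := Fintype.card_pos
  have hkpos : 1 ≤ k := by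
    rcases Nat.eq_zero_or_pos k with h | h
    · rw [h, zero_mul] at hk
      omega
    · exact h
  have hT1 := T_le_sq s hs
  have hT2 := four_T_le s
  have hnum := num hc hT1 hk hH hle hT
  -- s ≥ 4
  have hs4 : 4 ≤ s := by
    by_contra hcon
    have hs' : s = 2 ∨ s = 3 := by omega
    rcases hs' with rfl | rfl
    · have h4 : T 2 = 4 := T_even 1
      rw [h4] at hnum
      omega
    · have h4 : T 3 = 8 := T_odd 1
      rw [h4] at hnum
      omega
  have h3a : k < 3 * a := by
    by_contra hcon
    push Not at hcon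
    have h1 : T s * (3 * a) ≤ T s * k := Nat.mul_le_mul_left _ hcon
    have h2 : 4 * T s * k ≤ (3 * s ^ 2 + 2 * s) * k := Nat.mul_le_mul_right _ hT2
    nlinarith
  have h7a : s = 4 → 3 * k < 7 * a := by
    intro h4
    subst h4
    have h5 : T 4 = 14 := T_even 2
    rw [h5] at hnum
    omega
  -- the fibre
  obtain ⟨x', hx'A, hx'⟩ := Finset.mem_image.1 hx
  have hcardM : Nat.card f.ker = k := by
    rw [← card_fs f.ker, ← card_fib f hf k hk 0]
    congr 1
    ext g
    rw [mem_fs, AddMonoidHom.mem_ker, Finset.mem_filter]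
    simp
  have hsx : s • x' ∈ f.ker := by
    rw [AddMonoidHom.mem_ker, map_nsmul, hx', ← hord]
    exact addOrderOf_nsmul_eq_zero x
  have h0 : (0 : G) ∉ nsum (A.filter (fun g => f g = x)) s := by
    intro h0
    have h1 : (0 : G) ∈ nsum A s := by
      rw [mem_nsum_iff] at h0 ⊢
      obtain ⟨U, hU, hUc, hUs⟩ := h0
      exact ⟨U, fun b hb => (Finset.mem_filter.1 (hU b hb)).1, hUc, hUs⟩
    have h2 := hA 0 s (by omega) le_rfl (by omega)
    rw [Finset.disjoint_left] at h2
    exact h2 (by rw [nsum_zero]; exact Finset.mem_singleton_self _) h1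
  have hev := core2 hOLS f.ker (A.filter (fun g => f g = x)) x'
    (Finset.mem_filter.2 ⟨hx'A, hx'⟩) (by
      intro b hb
      rw [AddMonoidHom.mem_ker, map_sub, (Finset.mem_filter.1 hb).2, hx', sub_self]) s hs4
    (by rw [hcardM]; exact h3a) (by rw [hcardM]; exact h7a) hsx h0
  constructor
  · -- 2 s ∣ exponent
    have hso : s ∣ addOrderOf x' := by
      rw [← hord]
      apply addOrderOf_dvd_of_nsmul_eq_zero
      rw [← hx', ← map_nsmul, addOrderOf_nsmul_eq_zero, map_zero]
    have h1 : addOrderOf (s • x') = addOrderOf x' / s := by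
      rw [addOrderOf_nsmul' x' (by omega), Nat.gcd_eq_right hso]
    rw [h1] at hev
    have h2 : s * 2 ∣ addOrderOf x' := by
      obtain ⟨e, he⟩ := hso
      rw [he, Nat.mul_div_cancel_left e (by omega)] at hev
      rw [he]
      exact Nat.mul_dvd_mul_left s hev
    rw [mul_comm 2 s]
    exact h2.trans (AddMonoid.addOrder_dvd_exponent x')
  · -- size
    rw [← hk]
    obtain ⟨m, hm⟩ : ∃ m, c = m + 2 := ⟨c - 2, by omega⟩
    have h1 : k * (s * (s * (c - 1) + 1)) ≤ k * Fintype.card H := Nat.mul_le_mul_left _ hH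
    rw [hm] at h1 hle
    have h2 : m + 2 - 1 = m + 1 := by omega
    rw [h2] at h1 hle
    have h3 : 2 * A.card ≤ (2 * m + 3) * k := by nlinarith
    have h4 : s * (2 * A.card) ≤ s * ((2 * m + 3) * k) := Nat.mul_le_mul_left _ h3
    have h5 : (2 * m + 3) ≤ s * (m + 1) + 1 := by nlinarith
    have h6 : s * ((2 * m + 3) * k) ≤ k * (s * (s * (m + 1) + 1)) := by
      calc s * ((2 * m + 3) * k) = k * (s * (2 * m + 3)) := by ring
        _ ≤ k * (s * (s * (m + 1) + 1)) := by gcongr
    calc A.card * (2 * s) = s * (2 * A.card) := by ring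
      _ ≤ _ := h4.trans (h6.trans h1)

end Pool.Agent.Helper2.SV
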