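import Pool.Agent.Helper18.SV.Goals

/-!
# Project SV (MP_cb0067_co): packet GC (progressions in the quotient)
-/

open Finset
open scoped Pointwise

namespace Pool.Agent.Helper2.SV.GC

open Pool.Agent.Helper95.SF
open Pool.Agent.Helper18.SV

universe u

/-- small summands. -/
theorem split_sum (m : ℕ) : ∀ s e : ℕ, e ≤ s * m →
    ∃ E : Multiset ℕ, Multiset.card E = s ∧ (∀ r ∈ E, r ≤ m) ∧ E.sum = e := by
  intro s
  induction s with
  | zero =>
    intro e he
    exact ⟨0, by simp, by simp, by simp; omega⟩
  | succ s ih =>
    intro e he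
    have h1 : e - min e m ≤ s * m := by
      have : (s + 1) * m = s * m + m := by ring
      omega
    obtain ⟨E, h2, h3, h4⟩ := ih _ h1
    refine ⟨min e m ::ₘ E, by simp [h2], ?_, ?_⟩
    · intro r hr
      rcases Multiset.mem_cons.1 hr with rfl | hr
      · exact min_le_right _ _
      · exact h3 r hr
    · rw [Multiset.sum_cons, h4]
      omega

section

variable {H : Type u} [AddCommGroup H]

theorem sum_map_prog (x y : H) (E : Multiset ℕ) :
    (E.map (fun r : ℕ => x + r • y)).sum = Multiset.card E • x + E.sum • y := by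
  induction E using Multiset.induction_on with
  | empty => simp
  | cons a E ih =>
    rw [Multiset.map_cons, Multiset.sum_cons, ih, Multiset.card_cons, Multiset.sum_cons,
      succ_nsmul, add_nsmul]
    abel

theorem sum_const (z : H) (U : Multiset H) (h : ∀ a ∈ U, a = z) :
    U.sum = Multiset.card U • z := by
  rw [Multiset.eq_replicate_card.2 h, Multiset.sum_replicate, Multiset.card_replicate]

variable [DecidableEq H]

/-- the consequence of rigidity that is used. -/
theorem star (hRIG : G_RIG.{u}) {s : ℕ} {A : Finset H} (hR : Rig s A) (hc : 2 ≤ A.card) {x : H}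
    (hx : ∀ x' ∈ A, s • x' = 0 → x' = x) (U V : Multiset H) (hU : ∀ a ∈ U, a ∈ A)
    (hV : ∀ a ∈ V, a ∈ A) (hUs : Multiset.card U = s) (hVs : Multiset.card V < s)
    (he : U.sum = V.sum) : Multiset.card V = 0 ∧ ∀ a ∈ U, a = x := by
  obtain ⟨z, hz, h1, h2⟩ := hR U V hU hV hUs.le hVs.le (by omega) he
  rw [sum_const z U h1, sum_const z V h2, hUs] at he
  have h3 : (s - Multiset.card V) • z = 0 := by
    have h4 : s • z = (s - Multiset.card V) • z + Multiset.card V • z := by
      rw [← add_nsmul]
      congr 1
      omega
    rw [h4] at he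
    simpa using he
  obtain ⟨h5, h6⟩ := hRIG H s A hR hc z hz _ (by omega) (by omega) h3
  refine ⟨by omega, fun a ha => ?_⟩
  rw [h1 a ha]
  apply hx z hz
  rw [← h6]
  exact addOrderOf_nsmul_eq_zero z

end

/-- **GC**, normalized. -/
theorem norm (hRIG : G_RIG.{u}) {H : Type u} [AddCommGroup H] [Fintype H] [DecidableEq H]
    {s : ℕ} {A : Finset H} (hs : 2 ≤ s) (hR : Rig s A) {x : H} (hord : addOrderOf x = s)
    (hx : ∀ x' ∈ A, s • x' = 0 → x' = x) (hc : 2 ≤ A.card) {y : H}
    (hmem : ∀ i : ℕ, i < A.card → x + i • y ∈ A)
    (hinj : ∀ i : ℕ, i < A.card → i • y = 0 → i = 0) :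
    s * (s * (A.card - 1) + 1) ≤ Fintype.card H := by
  set c := A.card with hcd
  have hsx : s • x = 0 := by
    rw [← hord]
    exact addOrderOf_nsmul_eq_zero x
  have hxA : x ∈ A := by
    have := hmem 0 (by omega)
    rwa [zero_nsmul, add_zero] at this
  -- the main relation
  have key : ∀ e q : ℕ, e ≤ s * (c - 1) → q < s → e • y = q • x → e = 0 ∧ q = 0 := by
    intro e q he hq heq
    obtain ⟨E, h1, h2, h3⟩ := split_sum (c - 1) s e he
    have h4 := star hRIG hR hc hx (E.map (fun r : ℕ => x + r • y)) (Multiset.replicate q x)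
      (by
        intro a ha
        obtain ⟨r, hr, rfl⟩ := Multiset.mem_map.1 ha
        have := h2 r hr
        exact hmem r (by omega))
      (by
        intro a ha
        rw [Multiset.eq_of_mem_replicate ha]
        exact hxA)
      (by rw [Multiset.card_map, h1])
      (by rw [Multiset.card_replicate]; exact hq)
      (by rw [sum_map_prog, h1, h3, hsx, zero_add, heq, Multiset.sum_replicate])
    rw [Multiset.card_replicate] at h4
    refine ⟨?_, h4.1⟩
    rw [← h3]
    apply Multiset.sum_eq_zero
    intro r hr
    have h5 := h4.2 _ (Multiset.mem_map_of_mem (fun r : ℕ => x + r • y) hr)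
    have h6 := h2 r hr
    apply hinj r (by omega)
    simpa using h5
  -- the injection
  have hle : ∀ j i j' i' : ℕ, j < s → j' < s → i ≤ s * (c - 1) → i' ≤ i →
      j • x + i • y = j' • x + i' • y → j = j' ∧ i = i' := by
    intro j i j' i' hj hj' hi hii heq
    have h1 : (i - i') • y = ((j' + (s - j)) % s) • x := by
      have h2 : ((j' + (s - j)) % s) • x = (j' + (s - j)) • x := by
        rw [← hord]
        exact mod_addOrderOf_nsmul x _
      rw [h2, add_nsmul]
      have h3 : (s - j) • x + j • x = 0 := by
        rw [← add_nsmul, show s - j + j = s by omega, hsx]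
      have h4 : i • y = (i - i') • y + i' • y := by
        rw [← add_nsmul]
        congr 1
        omega
      rw [h4] at heq
      have h5 : (i - i') • y + (j • x + i' • y) = j' • x + (s - j) • x + (j • x + i' • y) := by
        calc (i - i') • y + (j • x + i' • y) = j • x + ((i - i') • y + i' • y) := by abel
          _ = j' • x + i' • y := heq
          _ = j' • x + ((s - j) • x + j • x) + i' • y := by rw [h3, add_zero]
          _ = _ := by abel
      exact add_right_cancel h5
    have h6 := key (i - i') ((j' + (s - j)) % s) (by omega) (Nat.mod_lt _ (by omega)) h1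
    constructor
    · by_cases hjj : j ≤ j'
      · have h7 : (j' + (s - j)) % s = j' - j := by
          rw [show j' + (s - j) = (j' - j) + s by omega, Nat.add_mod_right]
          exact Nat.mod_eq_of_lt (by omega)
        omega
      · have h7 : (j' + (s - j)) % s = j' + (s - j) := Nat.mod_eq_of_lt (by omega)
        omega
    · omega
  have hinj2 : Function.Injective (fun p : Fin s × Fin (s * (c - 1) + 1) =>
      (p.1 : ℕ) • x + (p.2 : ℕ) • y) := by
    rintro ⟨⟨j, hj⟩, ⟨i, hi⟩⟩ ⟨⟨j', hj'⟩, ⟨i', hi'⟩⟩ heq
    simp only at heq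
    rcases le_total i' i with h | h
    · obtain ⟨h1, h2⟩ := hle j i j' i' hj hj' (by omega) h heq
      subst h1
      subst h2
      rfl
    · obtain ⟨h1, h2⟩ := hle j' i' j i hj' hj (by omega) h heq.symm
      subst h1
      subst h2
      rfl
  have := Fintype.card_le_of_injective _ hinj2
  simpa using this

/-- **GC**. -/
theorem t (hRIG : G_RIG.{u}) : G_GC.{u} := by
  intro H _ _ _ s A hs hR x hxA hord hx hc hAP
  obtain ⟨x1, y, c, hA, hcard⟩ := hAP
  have hmem : ∀ i : ℕ, i < c → x1 + i • y ∈ A := by
    intro i hi
    rw [hA]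
    exact Finset.mem_image.2 ⟨i, Finset.mem_range.2 hi, rfl⟩
  have hinj0 : Set.InjOn (fun i : ℕ => x1 + i • y) (Finset.range c : Set ℕ) := by
    apply Finset.card_image_iff.1
    rw [Finset.card_range]
    rw [hA] at hcard
    exact hcard
  have hinj : ∀ i : ℕ, i < c → i • y = 0 → i = 0 := by
    intro i hi h0
    apply hinj0 (by simpa using hi) (by simp; omega)
    simp [h0]
  have hy : y ≠ 0 := by
    intro h0
    have := hinj 1 (by omega) (by rw [h0, nsmul_zero])
    omega
  obtain ⟨i0, hi0, hxi⟩ : ∃ i0 < c, x = x1 + i0 • y := by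
    rw [hA] at hxA
    obtain ⟨i, hi, h⟩ := Finset.mem_image.1 hxA
    exact ⟨i, Finset.mem_range.1 hi, h.symm⟩
  have hsx : s • x = 0 := by
    rw [← hord]
    exact addOrderOf_nsmul_eq_zero x
  have hcase : i0 = 0 ∨ i0 = c - 1 := by
    by_contra hcon
    push Not at hcon
    have h1 : x - y ∈ A := by
      have h2 := hmem (i0 - 1) (by omega)
      have h3 : x - y = x1 + (i0 - 1) • y := by
        rw [hxi]
        conv_lhs => rw [show i0 = (i0 - 1) + 1 by omega, succ_nsmul]
        abel
      rwa [h3]
    have h2 : x + y ∈ A := by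
      have h2 := hmem (i0 + 1) (by omega)
      have h3 : x + y = x1 + (i0 + 1) • y := by
        rw [hxi, succ_nsmul]
        abel
      rwa [h3]
    have h3 := star hRIG hR hc hx ((x - y) ::ₘ (x + y) ::ₘ Multiset.replicate (s - 2) x) 0
      (by
        intro a ha
        rcases Multiset.mem_cons.1 ha with rfl | ha
        · exact h1
        rcases Multiset.mem_cons.1 ha with rfl | ha
        · exact h2
        rw [Multiset.eq_of_mem_replicate ha]
        exact hxA)
      (by simp)
      (by
        rw [Multiset.card_cons, Multiset.card_cons, Multiset.card_replicate]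
        omega)
      (by simp; omega)
      (by
        rw [Multiset.sum_cons, Multiset.sum_cons, Multiset.sum_replicate, Multiset.sum_zero]
        have h4 : s • x = (s - 2) • x + (x + x) := by
          conv_lhs => rw [show s = (s - 2) + 2 by omega, add_nsmul, two_nsmul]
        rw [h4] at hsx
        calc x - y + (x + y + (s - 2) • x) = (s - 2) • x + (x + x) := by abel
          _ = 0 := hsx)
    have h4 := h3.2 (x + y) (by simp)
    apply hy
    simpa using h4
  rcases hcase with h | h
  · subst h
    have h1 : x = x1 := by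
      rw [hxi, zero_nsmul, add_zero]
    subst h1
    exact norm hRIG hs hR hord hx hc (y := y) (fun i hi => hmem i (by omega))
      (fun i hi => hinj i (by omega))
  · refine norm hRIG hs hR hord hx hc (y := -y) ?_ ?_
    · intro i hi
      have h2 := hmem (c - 1 - i) (by omega)
      have h3 : x + i • -y = x1 + (c - 1 - i) • y := by
        rw [hxi, h]
        conv_lhs => rw [show c - 1 = (c - 1 - i) + i by omega, add_nsmul]
        rw [smul_neg]
        abel
      rwa [h3]
    · intro i hi h0
      apply hinj i (by omega)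
      rw [smul_neg] at h0
      exact neg_eq_zero.1 h0

end Pool.Agent.Helper2.SV.GC
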