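import Mathlib

/-!
# Definitions for project SV: every fork-free graph is perfectly divisible

All graphs are `G : SimpleGraph V` on a finite type `V`; vertex sets are `Set V`; cliques whose
size or weight matters are `Finset V` (coerced to `Set V`).
-/

set_option autoImplicit false

namespace Pool.Agent.Helper2.SV

variable {V : Type}

/-- `K` is a clique of `G`. -/
def Clq (G : SimpleGraph V) (K : Set V) : Prop := ∀ x ∈ K, ∀ y ∈ K, x ≠ y → G.Adj x y

/-- Every clique inside `X` has at most `n` vertices. -/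
def OmLe (G : SimpleGraph V) (X : Set V) (n : ℕ) : Prop :=
  ∀ K : Finset V, (↑K : Set V) ⊆ X → Clq G ↑K → K.card ≤ n

/-- `X` can be coloured with the colours `0, …, n - 1`. -/
def Col (G : SimpleGraph V) (X : Set V) (n : ℕ) : Prop :=
  ∃ f : V → ℕ, (∀ x ∈ X, f x < n) ∧ ∀ x ∈ X, ∀ y ∈ X, G.Adj x y → f x ≠ f y

/-- `A` induces a perfect graph: every `X ⊆ A` has a colouring with `ω(X)` colours. -/
def Perf (G : SimpleGraph V) (A : Set V) : Prop := ∀ X ⊆ A, ∀ n, OmLe G X n → Col G X n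

/-- The set `M(v)` of the non-neighbours of `v` other than `v`. -/
def Mn (G : SimpleGraph V) (v : V) : Set V := {x | x ≠ v ∧ ¬ G.Adj v x}

/-- `G` has no induced claw. -/
def ClawFree (G : SimpleGraph V) : Prop :=
  ∀ v a b c, G.Adj v a → G.Adj v b → G.Adj v c → a ≠ b → a ≠ c → b ≠ c →
    G.Adj a b ∨ G.Adj a c ∨ G.Adj b c

/-- `G` has no induced fork: centre `v`, leaves `a`, `b`, and the path `v - c - d`. -/
def ForkF (G : SimpleGraph V) : Prop :=
  ∀ v a b c d, G.Adj v a → G.Adj v b → G.Adj v c → G.Adj c d → a ≠ b → a ≠ c → b ≠ c → d ≠ v →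
    G.Adj a b ∨ G.Adj a c ∨ G.Adj b c ∨ G.Adj v d ∨ G.Adj a d ∨ G.Adj b d

/-- `K` is a clique of maximum weight of `G[S]`. -/
def Tight (G : SimpleGraph V) (w : V → ℕ) (S : Set V) (K : Finset V) : Prop :=
  (↑K : Set V) ⊆ S ∧ Clq G ↑K ∧
    ∀ L : Finset V, (↑L : Set V) ⊆ S → Clq G ↑L → ∑ x ∈ L, w x ≤ ∑ x ∈ K, w x

/-- `A ⊆ S` is perfect and meets every clique of `G[S]` of maximum (positive) weight. -/
def Good (G : SimpleGraph V) (w : V → ℕ) (S A : Set V) : Prop :=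
  A ⊆ S ∧ Perf G A ∧
    ∀ K : Finset V, Tight G w S K → 0 < ∑ x ∈ K, w x → ∃ x ∈ K, x ∈ A

/-- `G[S]` has a good set for every weight function. -/
def PW (G : SimpleGraph V) (S : Set V) : Prop := ∀ w : V → ℕ, ∃ A, Good G w S A

/-- `K` is a nonempty clique of maximum weight of `G`. -/
def TC (G : SimpleGraph V) (w : V → ℕ) (K : Finset V) : Prop :=
  K.Nonempty ∧ Clq G ↑K ∧ ∀ L : Finset V, Clq G ↑L → ∑ x ∈ L, w x ≤ ∑ x ∈ K, w x

/-- `(G, w)` is a minimal counterexample: positive weights, no perfect set meets all the cliques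
of maximum weight, but every proper induced subgraph has good sets for all weights. -/
structure MinCE (G : SimpleGraph V) (w : V → ℕ) : Prop where
  pos : ∀ v, 0 < w v
  ih : ∀ S : Set V, S ≠ Set.univ → PW G S
  bad : ∀ A : Set V, Perf G A → ∃ K : Finset V, TC G w K ∧ ∀ x ∈ K, x ∉ A

/-- `G` is connected, in terms of cuts. -/
def Conn (G : SimpleGraph V) : Prop :=
  ∀ S : Set V, S.Nonempty → S ≠ Set.univ → ∃ x ∈ S, ∃ y, y ∉ S ∧ G.Adj x y

/-- `G[R]` has a connected complement, in terms of cuts. -/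
def CoConn (G : SimpleGraph V) (R : Set V) : Prop :=
  ∀ P ⊆ R, P.Nonempty → P ≠ R → ∃ a ∈ P, ∃ b ∈ R, b ∉ P ∧ ¬ G.Adj a b

/-- No homogeneous set with more than one vertex other than `V`. -/
def IsPrime (G : SimpleGraph V) : Prop :=
  ∀ H : Set V, (∀ x, x ∉ H → (∀ y ∈ H, G.Adj x y) ∨ (∀ y ∈ H, ¬ G.Adj x y)) →
    (∃ a ∈ H, ∃ b ∈ H, a ≠ b) → H = Set.univ

/-- `Q` is a minimal imperfect set. -/
def MinImp (G : SimpleGraph V) (Q : Set V) : Prop := ¬ Perf G Q ∧ ∀ Q' ⊂ Q, Perf G Q'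

/-- The derived properties of a minimal counterexample. -/
structure MF0 (G : SimpleGraph V) (w : V → ℕ) : Prop where
  /-- `G` is connected -/
  conn : Conn G
  /-- the non-neighbours of a vertex do not induce a perfect graph -/
  nperf : ∀ v, ¬ Perf G (Mn G v)
  /-- every perfect set misses a tight clique `K` none of whose vertices is free, where `v ∈ K`
  is free if `N(v) \ K` is a clique -/
  free : ∀ B : Set V, Perf G B → ∃ K : Finset V, TC G w K ∧ (∀ x ∈ K, x ∉ B) ∧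
    ∀ v ∈ K, ¬ Clq G {x | G.Adj v x ∧ x ∉ K}
  /-- every proper subset `S` contains a perfect set meeting all the tight cliques inside `S` -/
  ih : ∀ S : Set V, S ≠ Set.univ → ∃ A ⊆ S, Perf G A ∧
    ∀ K : Finset V, TC G w K → (↑K : Set V) ⊆ S → ∃ x ∈ K, x ∈ A
  /-- a tight clique is a maximal clique -/
  max : ∀ K : Finset V, TC G w K → ∀ z, ¬ ∀ x ∈ K, G.Adj z x

/-- No 1-join. -/
def NoJoin (G : SimpleGraph V) : Prop :=
  ∀ V1 A1 A2 : Set V, V1.Nonempty → V1 ≠ Set.univ → A1 ⊆ V1 → (∀ x ∈ A2, x ∉ V1) →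
    Clq G (A1 ∪ A2) → ¬ ∀ x ∈ V1, ∀ y, y ∉ V1 → G.Adj x y → x ∈ A1 ∧ y ∈ A2

/-- `c` is an induced cycle of length `n` of the complement of `G`. -/
def IsAC (G : SimpleGraph V) (n : ℕ) (c : ZMod n → V) : Prop :=
  Function.Injective c ∧ ∀ i j, i ≠ j → (G.Adj (c i) (c j) ↔ ¬ (j = i + 1 ∨ i = j + 1))

/-- The derived properties of a minimal claw-free counterexample. -/
structure MF (G : SimpleGraph V) (w : V → ℕ) : Prop extends MF0 G w where
  join : NoJoin G
  /-- `M(u)` contains a stable set of size 3 or a 5-hole -/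
  odd : ∀ u,
    (∃ a b c, a ∈ Mn G u ∧ b ∈ Mn G u ∧ c ∈ Mn G u ∧ a ≠ b ∧ a ≠ c ∧ b ≠ c ∧
      ¬ G.Adj a b ∧ ¬ G.Adj a c ∧ ¬ G.Adj b c) ∨
    ∃ c : Fin 5 → V, (∀ i, c i ∈ Mn G u) ∧ Function.Injective c ∧
      (∀ i, ¬ G.Adj (c i) (c (i + 1))) ∧ ∀ i, G.Adj (c i) (c (i + 2))

/-- A 5-wheel with centre `u` and rim `d 0, …, d 4`. -/
structure Wheel (G : SimpleGraph V) (u : V) (d : Fin 5 → V) : Prop where
  spoke : ∀ i, G.Adj u (d i)
  rim : ∀ i, G.Adj (d i) (d (i + 1))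
  non : ∀ i, ¬ G.Adj (d i) (d (i + 2))
  inj : Function.Injective d

/-- `V0`: the vertices with no neighbour in the wheel. -/
def V0 (G : SimpleGraph V) (u : V) (d : Fin 5 → V) : Set V :=
  {y | y ∈ Mn G u ∧ ∀ i, ¬ G.Adj y (d i)}

/-- `V2 i`: the non-neighbours of `u` whose rim neighbours are exactly `d i`, `d (i + 1)`. -/
def V2 (G : SimpleGraph V) (u : V) (d : Fin 5 → V) (i : Fin 5) : Set V :=
  {m | m ∈ Mn G u ∧ ∀ j, G.Adj m (d j) ↔ (j = i ∨ j = i + 1)}

/-- `E i`: the vertices of `V2 i` with a neighbour in `V0`. -/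
def EE (G : SimpleGraph V) (u : V) (d : Fin 5 → V) (i : Fin 5) : Set V :=
  {m | m ∈ V2 G u d i ∧ ∃ y ∈ V0 G u d, G.Adj m y}

/-- `T`: the vertices outside `V0` and all the `E j`. -/
def TT (G : SimpleGraph V) (u : V) (d : Fin 5 → V) : Set V :=
  {t | t ∉ V0 G u d ∧ ∀ j, t ∉ EE G u d j}

/-- `S i`: the vertices of `T` with a neighbour in `E i`. -/
def SS (G : SimpleGraph V) (u : V) (d : Fin 5 → V) (i : Fin 5) : Set V :=
  {t | t ∈ TT G u d ∧ ∃ g ∈ EE G u d i, G.Adj t g}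

/-- `m` has three consecutive neighbours on the rim. -/
def Three (G : SimpleGraph V) (d : Fin 5 → V) (m : V) : Prop :=
  ∃ j, G.Adj m (d j) ∧ G.Adj m (d (j + 1)) ∧ G.Adj m (d (j + 2))

/-- The elementary facts on a 5-wheel of a claw-free graph. -/
structure WF (G : SimpleGraph V) (u : V) (d : Fin 5 → V) : Prop where
  /-- a neighbour of `u` off the rim misses no two non-adjacent rim vertices -/
  miss : ∀ x i, G.Adj u x → (∀ j, x ≠ d j) → G.Adj x (d i) ∨ G.Adj x (d (i + 2))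
  /-- a neighbour of `u` off the rim has three consecutive rim neighbours -/
  three : ∀ x, G.Adj u x → (∀ j, x ≠ d j) → Three G d x
  /-- two neighbours of `u` missing the same rim vertex are adjacent -/
  both : ∀ x x' i, G.Adj u x → G.Adj u x' → x ≠ x' → x ≠ d i → x' ≠ d i →
    ¬ G.Adj x (d i) → ¬ G.Adj x' (d i) → G.Adj x x'
  /-- rim neighbours come in adjacent pairs -/
  side : ∀ v i, (∀ j, v ≠ d j) → G.Adj v (d i) → G.Adj v (d (i + 1)) ∨ G.Adj v (d (i - 1))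
  /-- two non-neighbours of `u` with a common rim neighbour are adjacent -/
  common : ∀ v v' i, v ∈ Mn G u → v' ∈ Mn G u → v ≠ v' → G.Adj v (d i) → G.Adj v' (d i) →
    G.Adj v v'
  /-- the types of the non-neighbours of `u` -/
  types : ∀ v ∈ Mn G u, v ∈ V0 G u d ∨ (∃ i, v ∈ V2 G u d i) ∨ Three G d v
  /-- `V0` is anticomplete to `N(u)` -/
  v0N : ∀ y ∈ V0 G u d, ∀ x, G.Adj u x → ¬ G.Adj y x
  /-- the neighbours of `V0` -/
  v0E : ∀ y ∈ V0 G u d, ∀ m, G.Adj y m → m ∈ V0 G u d ∨ ∃ i, m ∈ EE G u d i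
  /-- `T` is anticomplete to `V0` -/
  v0T : ∀ y ∈ V0 G u d, ∀ t ∈ TT G u d, ¬ G.Adj y t
  /-- the neighbours in `V0` of a vertex of `V2 i` are pairwise adjacent -/
  v0C : ∀ i, ∀ g ∈ V2 G u d i, ∀ y ∈ V0 G u d, ∀ y' ∈ V0 G u d, G.Adj y g → G.Adj y' g →
    y ≠ y' → G.Adj y y'
  /-- if `E i` is not empty, a non-neighbour of `u` with three consecutive rim neighbours which
  is adjacent to `d i` or `d (i + 1)` is adjacent to both -/
  e3 : ∀ i, (EE G u d i).Nonempty → ∀ m ∈ Mn G u, Three G d m →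
    (G.Adj m (d i) ∨ G.Adj m (d (i + 1))) → G.Adj m (d i) ∧ G.Adj m (d (i + 1))
  /-- consecutive `V2 i`, `V2 (i + 1)`, one of them with a vertex in `E` -/
  e4 : ∀ i, ((EE G u d i).Nonempty ∨ (EE G u d (i + 1)).Nonempty) →
    (V2 G u d i).Nonempty → (V2 G u d (i + 1)).Nonempty →
    V2 G u d i ⊆ EE G u d i ∧ V2 G u d (i + 1) ⊆ EE G u d (i + 1) ∧
    ∀ y ∈ V0 G u d, ∀ g ∈ V2 G u d i ∪ V2 G u d (i + 1), G.Adj y g →
      ∀ g' ∈ V2 G u d i ∪ V2 G u d (i + 1), G.Adj y g'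
  /-- `S i` is complete to `E i` -/
  sC : ∀ i, ∀ t ∈ SS G u d i, ∀ g ∈ EE G u d i, G.Adj t g
  /-- `E i ∪ S i` is a clique -/
  sQ : ∀ i, Clq G (EE G u d i ∪ SS G u d i)
  /-- the vertices of `S i` are adjacent or equal to `d i` and `d (i + 1)` -/
  sD : ∀ i, ∀ t ∈ SS G u d i,
    (t = d i ∨ G.Adj t (d i)) ∧ (t = d (i + 1) ∨ G.Adj t (d (i + 1)))
  /-- if `E i` is not empty then `d i` and `d (i + 1)` are in `S i` -/
  sd : ∀ i, (EE G u d i).Nonempty → d i ∈ SS G u d i ∧ d (i + 1) ∈ SS G u d i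
  /-- if `E i` is not empty then a neighbour of `u` adjacent to `d i` and not to `d (i - 1)`, or
  adjacent to `d (i + 1)` and not to `d (i + 2)`, is in `S i` -/
  sN : ∀ i, (EE G u d i).Nonempty → ∀ x, G.Adj u x → (∀ j, x ≠ d j) →
    ((G.Adj x (d i) ∧ ¬ G.Adj x (d (i - 1))) ∨ (G.Adj x (d (i + 1)) ∧ ¬ G.Adj x (d (i + 2)))) →
    x ∈ SS G u d i
  /-- if `E i` is not empty then the non-neighbours of `u` in `T` adjacent to `d i` or to
  `d (i + 1)` are in `S i` -/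
  sM : ∀ i, (EE G u d i).Nonempty → ∀ x ∈ Mn G u, x ∈ TT G u d →
    (G.Adj x (d i) ∨ G.Adj x (d (i + 1))) → x ∈ SS G u d i
  /-- `u` is in `T` and in no `S i` -/
  uT : u ∈ TT G u d ∧ ∀ i, u ∉ SS G u d i
  /-- the rim is in `T`; `d j` is in `S i` only for `j = i`, `i + 1` -/
  dT : ∀ j, d j ∈ TT G u d ∧ ∀ i, d j ∈ SS G u d i → j = i ∨ j = i + 1

/-- The vertices complete to `Q`. -/
def Xs (G : SimpleGraph V) (Q : Set V) : Set V := {x | x ∉ Q ∧ ∀ q ∈ Q, G.Adj x q}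

/-- The vertices anticomplete to `Q`. -/
def Ys (G : SimpleGraph V) (Q : Set V) : Set V := {y | y ∉ Q ∧ ∀ q ∈ Q, ¬ G.Adj y q}

/-- The vertices outside `Q` with a neighbour and a non-neighbour in `Q`. -/
def Zs (G : SimpleGraph V) (Q : Set V) : Set V :=
  {z | z ∉ Q ∧ (∃ q ∈ Q, G.Adj z q) ∧ ∃ q ∈ Q, ¬ G.Adj z q}

/-- The vertices complete to `Q` with a neighbour anticomplete to `Q`. -/
def Xp (G : SimpleGraph V) (Q : Set V) : Set V :=
  {x | x ∈ Xs G Q ∧ ∃ y ∈ Ys G Q, G.Adj x y}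

/-- The pairs `(a, b)` with `a ∈ V1`, `b ∉ V1` are adjacent except those with `a ∈ F1` and
`b ∈ F2`. -/
structure CoJoin (G : SimpleGraph V) (V1 F1 F2 : Set V) (t y : V) : Prop where
  f1 : F1 ⊆ V1
  f2 : ∀ b ∈ F2, b ∉ V1
  yF : y ∈ F1
  tF : t ∈ F2
  big1 : ∃ a ∈ V1, a ≠ y
  big2 : ∃ b, b ∉ V1 ∧ b ≠ t
  cross : ∀ a ∈ V1, ∀ b, b ∉ V1 → (G.Adj a b ↔ ¬ (a ∈ F1 ∧ b ∈ F2))

/-! ### The definitions of the problem (as in the landed hand-in EquivSivaraman) -/

/-- The fork (chair): the claw with centre `0` and leaves `1`, `2`, `3`, whose edge `03` is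
extended by a new leaf `4` at `3`; its edges are `01`, `02`, `03`, `34`. -/
def fork : SimpleGraph (Fin 5) :=
  SimpleGraph.fromEdgeSet {s(0, 1), s(0, 2), s(0, 3), s(3, 4)}

/-- `G` has no induced subgraph isomorphic to the fork. -/
def ForkFree {V : Type} (G : SimpleGraph V) : Prop := ¬ Nonempty (fork ↪g G)

/-- The subgraph of `G` induced by `A` is perfect: every induced subgraph of it has chromatic
number equal to its clique number. -/
def PerfectOn {V : Type} (G : SimpleGraph V) (A : Set V) : Prop :=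
  ∀ X ⊆ A, (G.induce X).chromaticNumber = ((G.induce X).cliqueNum : ℕ∞)

/-- `G` is perfectly divisible: every nonempty vertex set `X` is the disjoint union of `A` and
`B`, where `A` induces a perfect graph and the clique number of the subgraph induced by `B` is
smaller than that of the subgraph induced by `X`. -/
def PerfectlyDivisible {V : Type} (G : SimpleGraph V) : Prop :=
  ∀ X : Set V, X.Nonempty → ∃ A B : Set V, A ∪ B = X ∧ Disjoint A B ∧ PerfectOn G A ∧
    (G.induce B).cliqueNum < (G.induce X).cliqueNum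

/-! ### Small lemmas for everybody -/

lemma Clq.mono {G : SimpleGraph V} {K L : Set V} (h : Clq G L) (hKL : K ⊆ L) : Clq G K :=
  fun x hx y hy => h x (hKL hx) y (hKL hy)

lemma OmLe.mono {G : SimpleGraph V} {X Y : Set V} {n : ℕ} (h : OmLe G Y n) (hXY : X ⊆ Y) :
    OmLe G X n := fun K hK => h K (hK.trans hXY)

lemma Perf.mono {G : SimpleGraph V} {A B : Set V} (h : Perf G B) (hAB : A ⊆ B) : Perf G A :=
  fun X hX => h X (hX.trans hAB)

lemma Clq.insert {G : SimpleGraph V} {K : Set V} (h : Clq G K) {v : V}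
    (hv : ∀ x ∈ K, x ≠ v → G.Adj v x) : Clq G (insert v K) := by
  rintro x (rfl | hx) y (rfl | hy) hxy
  · exact absurd rfl hxy
  · exact hv y hy (Ne.symm hxy)
  · exact (hv x hx hxy).symm
  · exact h x hx y hy hxy

lemma clq_empty (G : SimpleGraph V) : Clq G ∅ := fun _ h => absurd h (by simp)

lemma clq_singleton (G : SimpleGraph V) (v : V) : Clq G {v} := by
  rintro x rfl y rfl h
  exact absurd rfl h

lemma mem_Mn {G : SimpleGraph V} {v x : V} : x ∈ Mn G v ↔ x ≠ v ∧ ¬ G.Adj v x := Iff.rfl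

end Pool.Agent.Helper2.SV
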