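import Pool.Agent.Helper2.SV.Defs

/-!
# Project SV, goals P: perfect sets, minimal imperfect sets, minimal counterexamples

Each goal is a Prop; the packet XXX delivers `theorem goalXXX : G_XXX` (or with hypotheses
`(hY : G_Y)` for the goals named in 'May assume').  Notation in the proofs: `~` adjacent, `≁`
not adjacent, `ω(X) ≤ n` is `OmLe G X n`, `{v; a, b, c}` is a claw with centre `v`,
`{v; a, b, c - d}` is a fork: `v ~ a, b, c`, `c ~ d`, no other edges.
-/

set_option autoImplicit false

namespace Pool.Agent.Helper2.SV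

/-- GLUE (1 h).  Gluing two perfect sets along a clique; cliques are perfect; a vertex whose
neighbourhood in a perfect set is a clique can be added.

PROOF.  (1) Let `X ⊆ A ∪ B`, `ω(X) ≤ n`.  `X ∩ A ⊆ A` and `X ∩ B ⊆ B` have colourings `f`, `g`
with colours `< n`.  Both are injective on the clique `C = X ∩ A ∩ B` (finite).  Hence there is a
permutation `σ` of `{0, …, n-1}` (`Fin n`, `Equiv.extendSubtype`) with `σ (g x) = f x` for
`x ∈ C`.  Colour `x ∈ A` with `f x`, `x ∉ A` with `σ (g x)`.  Two adjacent vertices of `X`: both in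
`A`, fine; both in `B`: the colouring agrees with `σ ∘ g` on `X ∩ B` (on `C` by the choice of `σ`),
fine; one in `A \ B` and the other in `B \ A`: excluded.
(2) A clique `K`: `X ⊆ K` is a finite clique, it has at most `n` vertices; use an injection of `X`
into `{0, …, n-1}`.
(3) `A ∪ ({v} ∪ N_A(v))`: the second set is a clique, hence perfect by (2); if `v ∈ A` there is
nothing to do; otherwise the intersection is `N_A(v)`, a clique, and the only vertex of the second
set outside `A` is `v`, whose neighbours in `A` are in the intersection.  Use (1). -/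
def G_GLUE : Prop :=
  (∀ (V : Type) [Finite V] (G : SimpleGraph V) (A B : Set V),
    Perf G A → Perf G B → Clq G (A ∩ B) →
    (∀ x ∈ A, x ∉ B → ∀ y ∈ B, y ∉ A → ¬ G.Adj x y) → Perf G (A ∪ B)) ∧
  (∀ (V : Type) [Finite V] (G : SimpleGraph V) (K : Set V), Clq G K → Perf G K) ∧
  (∀ (V : Type) [Finite V] (G : SimpleGraph V) (A : Set V) (v : V),
    Perf G A → Clq G {x | x ∈ A ∧ G.Adj v x} → Perf G (insert v A))

/-- COB (1 h).  The union of two cliques is perfect.

PROOF.  Let `X ⊆ C1 ∪ C2`, `ω(X) ≤ n`.  `P = X ∩ C1`, `R = X ∩ C2 \ C1`: finite cliques.  Fix an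
injection `f` of `P` into ℕ with image `{0, …, |P|-1}`; `|P| ≤ n`.  For `r ∈ R` let
`t(r) = {f p : p ∈ P, p ≁ r} ∪ {|P|, …, n-1}`, a subset of `{0, …, n-1}`.  Hall's condition
(`Finset.all_card_le_biUnion_card_iff_exists_injective`): let `R' ⊆ R` be nonempty.  The union of
the `t(r)`, `r ∈ R'`, is `{0, …, n-1}` without the colours of `C(R') = {p ∈ P : p ~ r for all
r ∈ R'}`, so it has `n - |C(R')|` elements; as `R' ∪ C(R')` is a clique of `X`,
`|R'| + |C(R')| ≤ n`.  So there is an injective choice `h(r) ∈ t(r)`.  Colour `P` with `f` and `R`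
with `h`: if `p ~ r` then `h(r) ≠ f(p)` because `f(p) ∉ t(r)` (`f` is injective on `P` and has
values `< |P|`). -/
def G_COB : Prop :=
  ∀ (V : Type) [Finite V] (G : SimpleGraph V) (C1 C2 : Set V), Clq G C1 → Clq G C2 →
    Perf G (C1 ∪ C2)

/-- REP (1 h).  The replication lemma: if `A` is perfect, `x ∈ X ⊆ A`, `ω(X \ x) ≤ c` and every
clique `K` of neighbours of `x` in `X` satisfies `|K| + m ≤ c`, then `X \ x` has a colouring with
colours `< c` in which the neighbours of `x` have colours `< c - m`.

PROOF.  Induction on `m` (for all `c`, `X`).  `m = 0`: `X \ {x} ⊆ A` has a colouring with `c`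
colours.  Step `m → m + 1`: as `∅` is a clique, `c ≥ m + 1 ≥ 1`.  Every clique of `X` has at most
`c` vertices (if it contains `x`, remove `x`: the rest is a clique of neighbours, so at most
`1 + (c - m - 1) ≤ c`).  So `X` has a colouring `g` with `c` colours.  Let
`I = {y ∈ X : g y = g x}`, which contains `x` and no neighbour of `x`, and let
`X' = (X \ I) ∪ {x}`.  `ω(X' \ x) ≤ c - 1`: a clique `K ⊆ X \ I` with `c` vertices has `c`
distinct colours, so it uses the colour `g x`, contradiction.  The neighbours of `x` in `X'` are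
those in `X`, and the cliques `K` among them satisfy `|K| + m ≤ c - 1`.  By induction (with
`c - 1`, `m`, `X'`) there is a colouring `f'` of `X' \ x = X \ I` with colours `< c - 1` and
`f' y + m < c - 1` on the neighbours of `x`.  Let `f = f'` outside `I` and `f = c - 1` on `I`.
Two adjacent vertices of `X \ x`: not both in `I`; fine. For a neighbour `y` of `x`:
`f y + (m + 1) < c`. -/
def G_REP : Prop :=
  ∀ (V : Type) [Finite V] (G : SimpleGraph V) (A : Set V), Perf G A →
    ∀ (m c : ℕ) (X : Set V) (x : V), X ⊆ A → x ∈ X → OmLe G (X \ {x}) c →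
    (∀ K : Finset V, (↑K : Set V) ⊆ {y | y ∈ X ∧ G.Adj x y} → Clq G ↑K → K.card + m ≤ c) →
    ∃ f : V → ℕ, (∀ y ∈ X, y ≠ x → f y < c) ∧
      (∀ y ∈ X, ∀ z ∈ X, y ≠ x → z ≠ x → G.Adj y z → f y ≠ f z) ∧
      ∀ y ∈ X, G.Adj x y → f y + m < c

/-- SUB (1 h; may assume REP).  Substitution: `H` is a homogeneous set (seen from `A \ H`),
`h ∈ H`, `(A \ H) ∪ {h}` and `A ∩ H` are perfect, then `A` is perfect.

PROOF.  Let `X ⊆ A`, `ω(X) ≤ n`.  If `X ∩ H = ∅` then `X ⊆ A \ H` is fine.  Otherwise let `m` be
the maximal size of a clique of `X ∩ H` (finite type; `m` is attained; `m ≤ n`), so `X ∩ H` has a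
colouring `g` with `m` colours.  Apply REP to the perfect set `(A \ H) ∪ {h}`, to
`X0 = (X \ H) ∪ {h}`, `x = h`, `c = n` and `m`: `ω(X0 \ h) ≤ n` (`X0 \ {h} = X \ H`), and a
clique `K` of neighbours of `h` in `X \ H` is complete to `H` (each vertex of `X \ H` is complete or
anticomplete to `H ∋ h`), so with a clique of size `m` of `X ∩ H` it is a clique of `X` with
`|K| + m` vertices (disjoint).  We get `f` on `X \ H` with `f + m < n` on the neighbours of `h`.
Colour `y ∈ X \ H` with `f y` and `y ∈ X ∩ H` with `n - m + g y`.  An edge between `y ∈ X \ H` and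
`z ∈ X ∩ H`: then `y ~ h`, so `f y < n - m ≤ n - m + g z`. -/
def G_SUB : Prop :=
  ∀ (V : Type) [Finite V] (G : SimpleGraph V) (A H : Set V) (h : V), h ∈ H →
    (∀ x ∈ A, x ∉ H → (∀ y ∈ H, G.Adj x y) ∨ (∀ y ∈ H, ¬ G.Adj x y)) →
    Perf G (insert h (A \ H)) → Perf G (A ∩ H) → Perf G A

/-- CJ (1.2 h; may assume REP).  The co-1-join of perfect sets is perfect.

PROOF.  Let `X ⊆ A1 ∪ A2`, `ω(X) ≤ n`, `X1 = X ∩ A1`, `X2 = X ∩ A2`.  Let `o1` be the maximal size
of a clique of `X1`, `a1` that of `X1 \ F1`, similarly `o2`, `a2`.  As `A1 \ F1` is complete to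
`A2`, `a1 + o2 ≤ n`; as `A2 \ F2` is complete to `A1`, `o1 + a2 ≤ n`.  Apply REP to the perfect
set `A1 ∪ {t}`, `X := X1 ∪ {t}`, `x := t`, `c := o1`, `m := o1 - a1`: `X1 = (X1 ∪ {t}) \ {t}`
(`t ∉ A1`) has `ω ≤ o1`; the neighbours of `t` in `X1` are the vertices of `X1 \ F1`, whose
cliques have at most `a1` vertices.  So `X1` has a colouring `f1` with colours `< o1` such that
`f1 < a1` on `X1 \ F1`.  Similarly (with `y`) `X2` has a colouring `f2` with colours `< o2` and
`f2 < a2` on `X2 \ F2`.  Colour `x ∈ X1`: `f1 x` if `f1 x < a1`, and `a2 + f1 x` otherwise;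
`x ∈ X2`: `a1 + f2 x` (in all cases!).  [So the colours of `X1` are in `[0, a1) ∪ [a1 + a2, …)`,
those of `X2` are in `[a1, …)`.]  All colours are `< n`: `a2 + f1 x < a2 + o1 ≤ n`,
`a1 + f2 x < a1 + o2 ≤ n`.  Inside `X1` and inside `X2` the colouring is proper (an increasing
function of `f1`, of `f2`).  Let `x ∈ X1`, `z ∈ X2` be adjacent; by the crossing rule `x ∉ F1` or
`z ∉ F2`.  If `x ∉ F1`, `x` has a colour `< a1` and `z` has a colour `≥ a1`.  If `x ∈ F1` and
`z ∉ F2`, the colour of `z` is in `[a1, a1 + a2)` and the colour of `x` is `< a1` or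
`≥ a1 + a2`. -/
def G_CJ : Prop :=
  ∀ (V : Type) [Finite V] (G : SimpleGraph V) (A1 A2 F1 F2 : Set V) (t y : V),
    Disjoint A1 A2 → t ∉ A1 → y ∉ A2 →
    (∀ a ∈ A1, ∀ b ∈ A2, (G.Adj a b ↔ ¬ (a ∈ F1 ∧ b ∈ F2))) →
    (∀ a ∈ A1, (G.Adj t a ↔ a ∉ F1)) → (∀ b ∈ A2, (G.Adj y b ↔ b ∉ F2)) →
    Perf G (insert t A1) → Perf G (insert y A2) → Perf G (A1 ∪ A2)

/-- MI (2 h; may assume GLUE, COB, SUB).  Properties of minimal imperfect sets `Q`:
existence; (dom) no vertex of `Q` is dominated by a neighbour; (simp) no vertex of `Q` is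
simplicial; (prime) no homogeneous set; (cocon) connected complement; (two) `Q` is not covered by
two cliques.

PROOF.  Existence: a finite set `M` which is not perfect contains a minimal one (well-founded
induction on `⊂`, `Set V` with `V` finite).
Since the proper subsets of `Q` are perfect and `Q` is not, there is `n` with `ω(Q) ≤ n` and no
colouring of `Q` with `n` colours (if the failing `X` is a proper subset of `Q` we contradict
minimality).
(a) For every nonempty stable set `I ⊆ Q` there is a clique `K ⊆ Q \ I` with `n ≤ |K|`: otherwise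
`n ≥ 1` and `ω(Q \ I) ≤ n - 1`, `Q \ I` is perfect, so it has a colouring with `n - 1` colours
and giving `I` the colour `n - 1` we colour `Q` with `n` colours.
(dom) Let `r, s ∈ Q`, `r ~ s`, and suppose that every `t ∈ Q` with `r ~ t` has `t = s` or `s ~ t`.
`Q \ {r}` is perfect and has `ω ≤ n`: colouring `f` with `n` colours.  Let `I` be the set of
`t ∈ Q \ {r}` with `f t = f s`; it is stable and contains `s`.  By (a) there is a clique
`K ⊆ Q \ I` with `n ≤ |K|` (so `|K| = n`).  If `r ∉ K`, the `n` vertices of `K` have `n` different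
colours `< n`, so one of them has the colour `f s`: it is in `I`, contradiction.  If `r ∈ K`:
`s ∉ K` (`s ∈ I`), and `s` is adjacent to every vertex of `K` (to `r`, and to every `t ∈ K \ r`
since `r ~ t`, `t ≠ s`), so `K ∪ {s}` is a clique of `Q` with `n + 1` vertices, contradiction.
(simp) If the neighbours of `s` in `Q` form a clique, `Q = (Q \ {s}) ∪ {s}` is perfect by GLUE (3).
(prime) Let `H ⊆ Q`, two different vertices in `H`, `H ≠ Q`, homogeneous.  For `h ∈ H`, the set
`(Q \ H) ∪ {h}` is a proper subset of `Q` (a second vertex of `H` is missing) and `H = Q ∩ H` is a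
proper subset: both are perfect, so `Q` is perfect by SUB.
(cocon) Let `P ⊆ Q`, `P ≠ ∅`, `P ≠ Q`, all pairs between `P` and `Q \ P` adjacent.  `P` is
homogeneous and `Q \ P` is homogeneous; by (prime) both have only one vertex; so `Q` is a clique
(two vertices), perfect by GLUE (2).
(two) COB and monotonicity. -/
def G_MI : Prop :=
  (∀ (V : Type) [Finite V] (G : SimpleGraph V) (M : Set V), ¬ Perf G M →
    ∃ Q ⊆ M, MinImp G Q) ∧
  ∀ (V : Type) [Finite V] (G : SimpleGraph V) (Q : Set V), MinImp G Q →
    (∀ r ∈ Q, ∀ s ∈ Q, G.Adj r s → ∃ t ∈ Q, G.Adj r t ∧ t ≠ s ∧ ¬ G.Adj s t) ∧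
    (∀ s ∈ Q, ¬ Clq G {x | x ∈ Q ∧ G.Adj s x}) ∧
    (∀ H ⊆ Q, (∀ x ∈ Q, x ∉ H → (∀ y ∈ H, G.Adj x y) ∨ (∀ y ∈ H, ¬ G.Adj x y)) →
      (∃ a ∈ H, ∃ b ∈ H, a ≠ b) → H = Q) ∧
    CoConn G Q ∧
    (∀ C1 C2 : Set V, Clq G C1 → Clq G C2 → ¬ Q ⊆ C1 ∪ C2)

/-- MC0 (1.5 h; may assume GLUE).  The derived properties of a minimal counterexample.

PROOF.  (conn) Let `S ≠ ∅`, `S ≠ V`, no edge between `S` and its complement.  By `ih` (with the
weight `w`) there are good sets `B1 ⊆ S` and `B2 ⊆ Sᶜ`.  `B1 ∪ B2` is perfect by GLUE (1)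
(`B1 ∩ B2 = ∅`).  By `bad` some tight clique `K` is missed by `B1 ∪ B2`; as `K` is a clique, it
is inside `S` or inside `Sᶜ`, where it is `Tight` with positive weight, so it meets `B1` or `B2`.
(nperf) Let `M(v)` be perfect.  `{v} ∪ M(v)` is perfect by GLUE (3) (`v` has no neighbour in
`M(v)`).  By `bad` some tight `K` avoids it; every `x ∈ K` is `≠ v` and not in `M(v)`, so `v ~ x`;
then `K ∪ {v}` is a clique of larger weight.
(free) The perfect set `B` is contained in a maximal perfect set `B'` (finite).  By `bad` some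
tight `K` avoids `B'`, hence `B`.  Let `v ∈ K` and suppose that `N(v) \ K` is a clique.  The
neighbours of `v` in `B'` are in `N(v) \ K`, so they form a clique and `B' ∪ {v}` is perfect by
GLUE (3), but `v ∉ B'`: contradiction to the maximality.
(ih) Apply `ih` to `S` and the weight `w`: a tight clique `K ⊆ S` of `G` is `Tight G w S K`, and it
has positive weight because it is nonempty and `w > 0`.
(max) If `z` is adjacent to all vertices of `K` then `z ∉ K` and `K ∪ {z}` is a clique of larger
weight. -/
def G_MC0 : Prop :=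
  ∀ (V : Type) [Finite V] (G : SimpleGraph V) (w : V → ℕ), MinCE G w → MF0 G w

/-- TRANS (2 h).  From a failure of `PW` to a minimal counterexample: if there is no minimal
counterexample in a class of graphs `C` closed under induced subgraphs then `PW` holds for all
vertex sets of all finite graphs of the class.  Here `C` is given as a property of graphs on all
types which passes to induced subgraphs `G.induce S`.

PROOF.  Suppose `¬ PW G S` for some `S`; choose `S` minimal (`V` is finite).  There is `w` without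
a `Good` set for `S`.  Let `S' = {x ∈ S : 0 < w x}`.  If `S' ≠ S`, `PW G S'` gives a good
`A' ⊆ S'`; it is good for `S`: if `K` is tight in `S` with positive weight, then the set `K'` of
the vertices of positive weight of `K` has the same weight, lies in `S'` and is tight there, so
`A'` meets `K' ⊆ K`; contradiction.  So `w > 0` on `S`.  Let `V' = ↥S`, `G' = G.induce S`,
`w' = w ∘ Subtype.val`.  We claim `MinCE G' w'`, a contradiction.
Transfer of perfection: for `A ⊆ V'`, `Perf G' A ↔ Perf G (val '' A)`, and for `A3 ⊆ V`,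
`Perf G A3 → Perf G' (val ⁻¹' A3)`: cliques `K : Finset V'` correspond to `K.map val`, colourings
`f` of a subset of `S` restrict to `f ∘ val`, and colourings of a subset of `V'` extend by `0`.
(pos) clear.  (ih) Let `T ⊆ V'`, `T ≠ univ`, and `w'' : V' → ℕ`; extend `w''` by `0` to
`w3 : V → ℕ`.  `val '' T` is a proper subset of `S`, so `PW` holds for it: `A3`; then
`val ⁻¹' A3` is good for `T`, `w''` (tight cliques `K` go to `K.map val`, with the same sums).
(bad) Let `A ⊆ V'` be perfect; `val '' A ⊆ S` is perfect in `G` and not good, so some clique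
`K ⊆ S` tight in `S` with positive weight (so nonempty) is disjoint from it; its preimage in `V'`
is a `TC` disjoint from `A`. -/
def G_TRANS : Prop :=
  ∀ C : (∀ (V : Type), SimpleGraph V → Prop),
    (∀ (V : Type) (G : SimpleGraph V) (S : Set V), C V G → C ↥S (G.induce S)) →
    (∀ (V : Type) [Finite V] (G : SimpleGraph V) (w : V → ℕ), MinCE G w → C V G → False) →
    ∀ (V : Type) [Finite V] (G : SimpleGraph V) (S : Set V), C V G → PW G S

/-- FIN (1.2 h).  From `PW` to the definitions of the problem.

PROOF.  `ForkFree G` gives `ForkF G`: a fork `{v; a, b, c - d}` gives the map `0 ↦ v`, `1 ↦ a`,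
`2 ↦ b`, `3 ↦ c`, `4 ↦ d`, which is injective and preserves adjacency both ways (25 pairs).
`Perf G A → PerfectOn G A`: let `X ⊆ A`, `n = (G.induce X).cliqueNum`; every clique inside `X`
has at most `n` vertices, so `Perf` gives a colouring with `n` colours, `G.induce X` is
`n`-colourable, the chromatic number is at most `n`; and it is at least the clique number
(`SimpleGraph.IsClique.card_le_chromaticNumber` or similar).  Perfect divisibility: let `X ≠ ∅`;
`PW G X` for the weight `1` gives a good `A ⊆ X`; let `B = X \ A`.  If the clique number of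
`G[B]` were at least that of `G[X]`, a maximum clique of `G[B]` would be (as a finset of `V`) a
clique of `X` of maximum size, nonempty as `X ≠ ∅`, so `A` meets it; but it is inside `B`. -/
def G_FIN : Prop :=
  (∀ (V : Type) [Finite V] (G : SimpleGraph V) (S : Set V), ForkF G → PW G S) →
  ∀ (V : Type) [Finite V] (G : SimpleGraph V), ForkFree G → PerfectlyDivisible G

end Pool.Agent.Helper2.SV
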