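import Pool.Agent.Helper2.SV.GoalsC
import Pool.Agent.Helper2.SV.GoalsP

set_option autoImplicit false

namespace Pool.Agent.Helper2.SV

theorem goalEXCH (hGLUE : G_GLUE) (hCOB : G_COB) (hLQ : G_LQ) : G_EXCH := by
  intro V _ G w hw hN
  classical
  have : Fintype V := Fintype.ofFinite V
  obtain ⟨glue, -, addv⟩ := hGLUE
  have hempty : Perf G ((∅ : Finset V) : Set V) := by
    intro X hX n _
    refine ⟨fun _ => 0, fun x hx => absurd (hX hx) (by simp), fun x hx => absurd (hX hx) (by simp)⟩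
  obtain ⟨B, hBm, hBmax⟩ := Finset.exists_max_image
    (Finset.univ.filter (fun B : Finset V => Perf G (B : Set V))) (fun B => ∑ x ∈ B, w x)
    ⟨∅, by simpa using hempty⟩
  have hB : Perf G (B : Set V) := by simpa using hBm
  have hmax : ∀ B' : Finset V, Perf G (B' : Set V) → ∑ x ∈ B', w x ≤ ∑ x ∈ B, w x := by
    intro B' hB'
    exact hBmax B' (by simpa using hB')
  refine ⟨B, hB, fun K hK => ?_⟩
  by_contra hmiss
  push Not at hmiss
  have hmissB : ∀ x ∈ K, x ∉ B := fun x hx h => hmiss x hx (by simpa using h)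
  obtain ⟨hKne, hKc, hKt⟩ := hK
  -- no vertex complete to K
  have hnoc : ∀ e, e ∉ K → ∃ k ∈ K, ¬ G.Adj e k := by
    intro e he
    by_contra hcon
    push Not at hcon
    have hc : Clq G (↑(insert e K) : Set V) := by
      rw [Finset.coe_insert]
      exact hKc.insert (fun x hx _ => hcon x hx)
    have := hKt _ hc
    rw [Finset.sum_insert he] at this
    have := hw e
    omega
  let E : Set V := {e | e ∈ B ∧ ∃ k ∈ K, G.Adj e k}
  have hEK : ∀ e ∈ E, e ∉ (K : Set V) := fun e he h => hmissB e h he.1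
  -- neighbourhoods
  have htwo : ∀ v a b c, G.Adj v a → G.Adj v b → G.Adj v c → a ≠ b → b ≠ c → a ≠ c →
      G.Adj a b ∨ G.Adj b c ∨ G.Adj a c := by
    intro v a b c ha hb hc hab hbc hac
    obtain ⟨C1, C2, h1, h2, hsub⟩ := hN v
    rcases hsub ha with a1 | a1 <;> rcases hsub hb with b1 | b1 <;> rcases hsub hc with c1 | c1
    · exact Or.inl (h1 a a1 b b1 hab)
    · exact Or.inl (h1 a a1 b b1 hab)
    · exact Or.inr (Or.inr (h1 a a1 c c1 hac))
    · exact Or.inr (Or.inl (h2 b b1 c c1 hbc))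
    · exact Or.inr (Or.inl (h1 b b1 c c1 hbc))
    · exact Or.inr (Or.inr (h2 a a1 c c1 hac))
    · exact Or.inl (h2 a a1 b b1 hab)
    · exact Or.inl (h2 a a1 b b1 hab)
  have hfive : ∀ v a b c d e, G.Adj v a → G.Adj v b → G.Adj v c → G.Adj v d → G.Adj v e →
      a ≠ b → b ≠ c → c ≠ d → d ≠ e → e ≠ a →
      G.Adj a b ∨ G.Adj b c ∨ G.Adj c d ∨ G.Adj d e ∨ G.Adj e a := by
    intro v a b c d e ha hb hc hd he hab hbc hcd hde hea
    obtain ⟨C1, C2, h1, h2, hsub⟩ := hN v
    by_contra hcon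
    push Not at hcon
    obtain ⟨n1, n2, n3, n4, n5⟩ := hcon
    rcases hsub ha with a1 | a1 <;> rcases hsub hb with b1 | b1 <;> rcases hsub hc with c1 | c1 <;>
      rcases hsub hd with d1 | d1 <;> rcases hsub he with e1 | e1 <;>
      first
        | exact n1 (h1 a a1 b b1 hab)
        | exact n1 (h2 a a1 b b1 hab)
        | exact n2 (h1 b b1 c c1 hbc)
        | exact n2 (h2 b b1 c c1 hbc)
        | exact n3 (h1 c c1 d d1 hcd)
        | exact n3 (h2 c c1 d d1 hcd)
        | exact n4 (h1 d d1 e e1 hde)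
        | exact n4 (h2 d d1 e e1 hde)
        | exact n5 (h1 e e1 a a1 hea)
        | exact n5 (h2 e e1 a a1 hea)
  obtain ⟨k, hk, hgood⟩ := hLQ V (fun x y => x ≠ y ∧ ¬ G.Adj x y)
    (fun x y h => ⟨h.1.symm, fun h' => h.2 h'.symm⟩) (fun x h => h.1 rfl) (K : Set V) E
    (by simpa using hKne)
    (fun x hx y hy h => h.2 (hKc x hx y hy h.1)) hEK
    (by
      intro e he
      refine ⟨?_, ?_⟩
      · obtain ⟨k, hk, hek⟩ := hnoc e (hEK e he)
        exact ⟨k, hk, fun h => hEK e he (h ▸ hk), hek⟩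
      · obtain ⟨-, k, hk, hek⟩ := he
        exact ⟨k, hk, fun h => h.2 hek⟩)
    (by
      intro a _ b _ c _ v _ hab hbc hac hva hvb hvc
      by_contra hcon
      push Not at hcon
      obtain ⟨h1, h2, h3⟩ := hcon
      rcases htwo v a b c (h1 hva) (h2 hvb) (h3 hvc) hab.1 hbc.1 hac.1 with h | h | h
      · exact hab.2 h
      · exact hbc.2 h
      · exact hac.2 h)
    (by
      intro a _ b _ c _ d _ e _ v _ hab hbc hcd hde hea hva hvb hvc hvd hve
      by_contra hcon
      push Not at hcon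
      obtain ⟨h1, h2, h3, h4, h5⟩ := hcon
      rcases hfive v a b c d e (h1 hva) (h2 hvb) (h3 hvc) (h4 hvd) (h5 hve)
        hab.1 hbc.1 hcd.1 hde.1 hea.1 with h | h | h | h | h
      · exact hab.2 h
      · exact hbc.2 h
      · exact hcd.2 h
      · exact hde.2 h
      · exact hea.2 h)
    (by
      intro k hk
      by_contra hcon
      have hkB : k ∉ B := hmissB k hk
      have hcl : Clq G {x | x ∈ (B : Set V) ∧ G.Adj k x} := by
        intro x hx y hy hxy
        by_contra hn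
        have hxE : x ∈ E := ⟨hx.1, k, hk, hx.2.symm⟩
        have hyE : y ∈ E := ⟨hy.1, k, hk, hy.2.symm⟩
        exact hcon ⟨x, hxE, y, hyE, ⟨hxy, hn⟩, fun h => h.2 hx.2.symm, fun h => h.2 hy.2.symm⟩
      have hP := addv V G (B : Set V) k hB hcl
      rw [← Finset.coe_insert] at hP
      have := hmax _ hP
      rw [Finset.sum_insert hkB] at this
      have := hw k
      omega)
  -- the exchange
  have hgoodE : Clq G {e | e ∈ E ∧ ¬ G.Adj k e} := by
    intro x hx y hy hxy
    by_contra hn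
    have hxk : x ≠ k := fun h => hEK x hx.1 (h ▸ hk)
    have hyk : y ≠ k := fun h => hEK y hy.1 (h ▸ hk)
    exact hgood x hx.1 y hy.1 ⟨hxy, hn⟩ ⟨hxk, fun h => hx.2 h.symm⟩ ⟨hyk, fun h => hy.2 h.symm⟩
  have hP1 : Perf G ((K : Set V) ∪ {e | e ∈ E ∧ ¬ G.Adj k e}) := hCOB V G _ _ hKc hgoodE
  have hP2 : Perf G {x | x ∈ (B : Set V) ∧ ¬ G.Adj k x} := hB.mono (fun x hx => hx.1)
  have hP3 : Perf G ({x | x ∈ (B : Set V) ∧ ¬ G.Adj k x} ∪
      ((K : Set V) ∪ {e | e ∈ E ∧ ¬ G.Adj k e})) := by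
    apply glue V G _ _ hP2 hP1
    · apply hgoodE.mono
      rintro x ⟨⟨hx1, hx2⟩, hx3 | hx3⟩
      · exact absurd hx1 (hmissB x hx3)
      · exact hx3
    · rintro x ⟨hx1, hx2⟩ hx3 y hy hy2 hadj
      rcases hy with hy | hy
      · exact hx3 (Or.inr ⟨⟨hx1, y, hy, hadj⟩, hx2⟩)
      · exact hy2 ⟨hy.1.1, hy.2⟩
  let B' : Finset V := (B.filter (fun x => ¬ G.Adj k x)) ∪ K
  have hB'P : Perf G (B' : Set V) := by
    apply hP3.mono
    intro x hx
    have hx' : x ∈ B' := hx
    simp only [B', Finset.mem_union, Finset.mem_filter] at hx'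
    rcases hx' with hx' | hx'
    · exact Or.inl ⟨hx'.1, hx'.2⟩
    · exact Or.inr (Or.inl hx')
  have hle := hmax B' hB'P
  have hdis : Disjoint (B.filter (fun x => ¬ G.Adj k x)) K := by
    rw [Finset.disjoint_left]
    intro x hx hxK
    exact hmissB x hxK (Finset.mem_filter.1 hx).1
  have hsum1 : ∑ x ∈ B', w x = ∑ x ∈ B.filter (fun x => ¬ G.Adj k x), w x + ∑ x ∈ K, w x := by
    rw [Finset.sum_union hdis]
  have hsum2 : ∑ x ∈ B.filter (fun x => G.Adj k x), w x +
      ∑ x ∈ B.filter (fun x => ¬ G.Adj k x), w x = ∑ x ∈ B, w x :=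
    Finset.sum_filter_add_sum_filter_not B (fun x => G.Adj k x) w
  have hKB : ∑ x ∈ K, w x ≤ ∑ x ∈ B.filter (fun x => G.Adj k x), w x := by
    omega
  obtain ⟨C1, C2, h1, h2, hsub⟩ := hN k
  have hcl : ∀ C : Set V, Clq G C →
      ∑ x ∈ (B ∪ K).filter (fun x => G.Adj k x ∧ x ∈ C), w x + w k ≤ ∑ x ∈ K, w x := by
    intro C hC
    have hkn : k ∉ (B ∪ K).filter (fun x => G.Adj k x ∧ x ∈ C) := by
      intro h
      exact G.loopless.irrefl k (Finset.mem_filter.1 h).2.1
    have hc : Clq G (↑(insert k ((B ∪ K).filter (fun x => G.Adj k x ∧ x ∈ C))) : Set V) := by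
      rw [Finset.coe_insert]
      apply Clq.insert
      · apply hC.mono
        intro x hx
        exact (Finset.mem_filter.1 hx).2.2
      · intro x hx _
        exact (Finset.mem_filter.1 hx).2.1
    have := hKt _ hc
    rw [Finset.sum_insert hkn] at this
    omega
  have hc1 := hcl C1 h1
  have hc2 := hcl C2 h2
  have hcov : ∑ x ∈ (B ∪ K).filter (fun x => G.Adj k x), w x ≤
      ∑ x ∈ (B ∪ K).filter (fun x => G.Adj k x ∧ x ∈ C1), w x +
      ∑ x ∈ (B ∪ K).filter (fun x => G.Adj k x ∧ x ∈ C2), w x := by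
    have hsubset : (B ∪ K).filter (fun x => G.Adj k x) ⊆
        (B ∪ K).filter (fun x => G.Adj k x ∧ x ∈ C1) ∪
        (B ∪ K).filter (fun x => G.Adj k x ∧ x ∈ C2) := by
      intro x hx
      rw [Finset.mem_filter] at hx
      rw [Finset.mem_union, Finset.mem_filter, Finset.mem_filter]
      rcases hsub hx.2 with h | h
      · exact Or.inl ⟨hx.1, hx.2, h⟩
      · exact Or.inr ⟨hx.1, hx.2, h⟩
    refine (Finset.sum_le_sum_of_subset hsubset).trans ?_
    have := Finset.sum_union_inter (s₁ := (B ∪ K).filter (fun x => G.Adj k x ∧ x ∈ C1))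
      (s₂ := (B ∪ K).filter (fun x => G.Adj k x ∧ x ∈ C2)) (f := w)
    omega
  have hsplit : ∑ x ∈ (B ∪ K).filter (fun x => G.Adj k x), w x =
      ∑ x ∈ B.filter (fun x => G.Adj k x), w x + ∑ x ∈ K.filter (fun x => G.Adj k x), w x := by
    rw [Finset.filter_union, Finset.sum_union]
    rw [Finset.disjoint_left]
    intro x hx hx2
    exact hmissB x (Finset.mem_filter.1 hx2).1 (Finset.mem_filter.1 hx).1
  have hKk : ∑ x ∈ K.filter (fun x => G.Adj k x), w x + w k = ∑ x ∈ K, w x := by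
    have : K.filter (fun x => G.Adj k x) = K.erase k := by
      ext x
      rw [Finset.mem_filter, Finset.mem_erase]
      constructor
      · rintro ⟨hx, hkx⟩
        exact ⟨fun h => G.loopless.irrefl k (h ▸ hkx), hx⟩
      · rintro ⟨hx, hxK⟩
        exact ⟨hxK, hKc k hk x hxK hx.symm⟩
    rw [this, Finset.sum_erase_add _ _ hk]
  have := hw k
  omega

end Pool.Agent.Helper2.SV
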