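import Pool.Agent.Helper2.SV.Defs

/-!
# Project SV, goals F: Theorem B (a minimal fork-free counterexample is claw-free)

Notation: `~` adjacent, `≁` not adjacent; `M(v)` is `Mn G v`; `{v; a, b, c - d}` is a fork:
`v ~ a, b, c`, `c ~ d`, and no other edges among these five vertices.  `Q` is a minimal imperfect
set; `X = Xs G Q` (complete to `Q`), `Y = Ys G Q` (anticomplete), `Z = Zs G Q` (mixed),
`X+ = Xp G Q` (vertices of `X` with a neighbour in `Y`).  `V` is the disjoint union of `Q`, `X`,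
`Y`, `Z` (`Q` is not empty).  From MI (GoalsP) we use for `Q`: (dom) if `r ~ s` in `Q` then some
`t ∈ Q` has `t ~ r`, `t ≠ s`, `t ≁ s`; (simp) no simplicial vertex in `Q`; (prime); (cocon);
(two) `Q` is not covered by two cliques.
-/

set_option autoImplicit false

namespace Pool.Agent.Helper2.SV

/-- PR (1.5 h; may assume SUB, MC0, GLUE (GoalsP)).  A minimal counterexample is prime and its
complement is connected.

PROOF.  Let `H` be homogeneous with two different vertices, `H ≠ V`; fix `h ∈ H`.  Let `m` be the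
maximum weight of a clique of `H`, let `w'` be `w` with the value `m` at `h`, and
`S = (V \ H) ∪ {h}`; `S ≠ V`.  Let `A'` be good for `S`, `w'`, and `A1` good for `H`, `w`.
Let `A = A'` if `h ∉ A'`, and `A = (A' \ {h}) ∪ A1` if `h ∈ A'`.  `A` is perfect: in the second case
apply SUB (`A ∩ H = A1`, `(A \ H) ∪ {h} = A'`).  `A` meets every tight clique `K` of `G`
(contradiction to `bad`).  First, for a clique `L` of `S` the weight `w'(L)` is at most the maximum
weight `W` of a clique of `G`: if `h ∈ L`, replace `h` by a clique of `H` of weight `m` (the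
vertices of `L \ h` are outside `H` and adjacent to `h`, so complete to `H`).
If `K ∩ H = ∅`: `K` is tight in `S` for `w'`, so `A'` meets `K`, in a vertex outside `H`, which is
in `A`.  If `K ∩ H ≠ ∅`: the vertices of `K \ H` are adjacent to a vertex of `H`, so complete to
`H`; `w(K ∩ H) = m` (otherwise exchange it for a clique of weight `m`), and `(K \ H) ∪ {h}` is a
clique of `S` of `w'`-weight `W`.  So `A'` meets it; if it does outside `H`, done; otherwise
`h ∈ A'`, and `A1` meets `K ∩ H` (a clique of `H` of maximum, positive weight).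
(The weights are positive; `W > 0`.)
Complement: let `P ≠ ∅, V` be complete to `V \ P`.  `P` and `V \ P` are homogeneous, so both have
one vertex, `V = {p, q}`, `M(p) = ∅` is perfect, contradiction to `nperf`. -/
def G_PR : Prop :=
  ∀ (V : Type) [Finite V] (G : SimpleGraph V) (w : V → ℕ), MinCE G w →
    IsPrime G ∧ CoConn G Set.univ

/-- S2 (1 h; may assume MI (GoalsP)).  Mixed vertices with a neighbour in `Y`.

PROOF.  First claim.  Let `N = N(z) ∩ Q`, `N' = Q \ N ≠ ∅`; suppose that `N` is not a clique.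
For `a ≠ c` in `N`, `a ≁ c`, and `e ∈ N'`: `c ~ e` implies `a ~ e` (otherwise
`{z; y, a, c - e}` is a fork: `y` is anticomplete to `Q`, `e ≁ z`).  Take non-adjacent
`a0 ≠ a1` in `N` and let `C` be the set of the vertices of `N` which can be joined to `a0` by a
sequence of vertices of `N`, consecutive ones different and non-adjacent
(`Relation.ReflTransGen`).  `C` contains `a0`, `a1`; a vertex of `N \ C` is complete to `C`;
a vertex `e ∈ N'` has the same adjacency to all the vertices of `C`.  So `C ⊆ Q` is homogeneous in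
`Q`, has two vertices and is not `Q`, against (prime).
Second claim: `{q ∈ Q : q ≁ z}` is not a clique by (two) and the first claim. -/
def G_S2 : Prop :=
  ∀ (V : Type) [Finite V] (G : SimpleGraph V) (Q : Set V), ForkF G → MinImp G Q →
    ∀ y ∈ Ys G Q, ∀ z ∈ Zs G Q, G.Adj y z →
      Clq G {q | q ∈ Q ∧ G.Adj z q} ∧
      ∃ q ∈ Q, ∃ q' ∈ Q, q ≠ q' ∧ ¬ G.Adj q q' ∧ ¬ G.Adj z q ∧ ¬ G.Adj z q'

/-- S3 (1 h; may assume MI (GoalsP), S2).  The vertices of `X+`.

PROOF.  `Q` contains `q ≠ q'` with `q ≁ q'` (by (two)).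
(a) `x ∈ X`, `x ~ y`, `y ~ y'`, `y, y' ∈ Y`: if `x ≁ y'` then `{x; q, q', y - y'}` is a fork.
(b) `x ∈ X+`, `x ~ y ∈ Y`, `z ∈ Z`: suppose `x ≁ z`.  If `y ≁ z`: by (cocon) for
`P = N(z) ∩ Q` (not empty, not `Q`) there are `s ∈ Q`, `s ~ z`, and `q ∈ Q`, `q ≁ z`, `q ≁ s`:
`{x; y, q, s - z}` is a fork.  If `y ~ z`: by S2 there are non-adjacent `q, q' ∈ Q` with
`z ≁ q, q'`: `{x; q, q', y - z}` is a fork.
(c) `x ∈ X+`, `k ∈ Y`, `z ∈ Z`, `z ~ k`: suppose `x ≁ k`.  Let `y ∈ Y`, `x ~ y`.  `y ≠ k` and by (a)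
`y ≁ k`.  By (b) `x ~ z`.  If `z ≁ y`: let `q ∈ Q`, `q ≁ z`: `{x; y, q, z - k}` is a fork.  If
`z ~ y`: by S2 there are non-adjacent `q, q' ∈ Q`, `z ≁ q, q'`: `{x; q, q', z - k}` is a fork. -/
def G_S3 : Prop :=
  ∀ (V : Type) [Finite V] (G : SimpleGraph V) (Q : Set V), ForkF G → MinImp G Q →
    (∀ x ∈ Xs G Q, ∀ y ∈ Ys G Q, ∀ y' ∈ Ys G Q, G.Adj x y → G.Adj y y' → G.Adj x y') ∧
    (∀ x ∈ Xp G Q, ∀ z ∈ Zs G Q, G.Adj x z) ∧
    (∀ x ∈ Xp G Q, ∀ k ∈ Ys G Q, ∀ z ∈ Zs G Q, G.Adj z k → G.Adj x k)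

/-- LD (1 h).  In a prime fork-free graph, if `R` is anticomplete to `y`, has two vertices and a
connected complement then some neighbour of `y` is not complete to `R`.

PROOF.  Suppose that `N(y)` is complete to `R`.  Choose `R` maximal with the properties:
`R ⊆ M(y)`, two different vertices, `CoConn G R`, `N(y)` complete to `R` (`V` is finite).
`R ≠ V` (`y ∉ R`), so `R` is not homogeneous: some `v ∉ R` has `a0 ∈ R`, `v ~ a0` and `b0 ∈ R`,
`v ≁ b0`.  `v ≠ y` and `v ≁ y` (`y` is anticomplete and `N(y)` is complete to `R`), so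
`v ∈ M(y)`.  `R ∪ {v}` has a connected complement (`v ≁ b0`).  By maximality some `x ∈ N(y)` is not
complete to `R ∪ {v}`, so `x ≁ v` (`x ≠ v`).  By `CoConn` for `P = N(v) ∩ R` (not empty, not `R`)
there are `a ∈ R`, `a ~ v` and `b ∈ R`, `b ≁ v`, `b ≁ a`.  `{x; y, b, a - v}` is a fork: `x ~ y, b,
a`; `a ~ v`; `x ≁ v`; `y ≁ a, b, v`; `a ≁ b`; `b ≁ v`. -/
def G_LD : Prop :=
  ∀ (V : Type) [Finite V] (G : SimpleGraph V), IsPrime G → ForkF G →
    ∀ (y : V) (R : Set V), R ⊆ Mn G y → (∃ a ∈ R, ∃ b ∈ R, a ≠ b) → CoConn G R →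
    ∃ x, G.Adj y x ∧ ∃ r ∈ R, ¬ G.Adj x r

/-- S4 (1 h; may assume MI (GoalsP), S3, LD).  `X+` is complete to everything outside `X`.

PROOF.  Let `x ∈ X+`, `v ∉ X`.  If `v ∈ Q` clear; if `v ∈ Z` by S3 (b).  Let `v ∈ Y` and suppose
`x ≁ v`.  Let `K` be the set of the vertices of `Y` which can be reached from `v` inside `Y`
(`Relation.ReflTransGen`).  If some `k ∈ K` has a neighbour `z ∈ Z`, S3 (c) gives `x ~ k`, and then
by S3 (a) along the path `x ~ v`, contradiction.  So `K` has no neighbours in `Z`; it has none in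
`Q` and none in `Y \ K`; a vertex of `X` with a neighbour in `K` is complete to `K` by S3 (a).  So
`K` is homogeneous in `G`, and it is not `V`; by primality `K = {v}`.  So `N(v) ⊆ X` is complete to
`Q`; LD for `y = v`, `R = Q` (`CoConn` by (cocon); two vertices by (two)) gives a neighbour of `v`
not complete to `Q`, contradiction. -/
def G_S4 : Prop :=
  ∀ (V : Type) [Finite V] (G : SimpleGraph V) (Q : Set V), IsPrime G → ForkF G → MinImp G Q →
    ∀ x ∈ Xp G Q, ∀ v, v ∉ Xs G Q → G.Adj x v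

/-- S5 (2 h; may assume MI (GoalsP), S2, S3, LD, S4).  If `X+ ≠ ∅` there is a co-1-join.

PROOF.  `X0 = X \ X+`: the vertices of `X` with no neighbour in `Y`.  `Y ≠ ∅` as `X+ ≠ ∅`.
(1) There are `x1 ∈ X+`, `x0 ∈ X0`, `x1 ≁ x0`: otherwise `X+` is complete to its complement
(S4), against `CoConn G univ`.
(2) `Y` is a clique: for `y ≠ y'` in `Y`, `y ≁ y'`, `q ∈ Q`: `{x1; y, y', q - x0}` is a fork.
(3) For `x0 ∈ X0` with a non-neighbour `x1 ∈ X+`: a vertex `z ∈ Z` with `z ≁ x0` is complete to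
`Y`: if `y ≁ z`, let `q ∈ Q`, `q ≁ z`: `{x1; y, z, q - x0}` is a fork.
(4) A vertex `z ∈ Z` with a neighbour `y ∈ Y` is anticomplete to `X0`: if `z ~ x' ∈ X0`, by S2
there are non-adjacent `q, q' ∈ Q`, `z ≁ q, q'`: `{x'; q, q', z - y}` is a fork.
(5) So `Zy := {z ∈ Z : z has a neighbour in Y}` is `{z ∈ Z : z ≁ x0}` (for every `x0` as in (3))
and it is complete to `Y`.  So `Y` is homogeneous (`X+` complete by S4, `Zy` complete, all the others
anticomplete), hence `Y = {y}` by primality.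
(6) `Zy ≠ ∅`: by LD for `y` and `Q` some neighbour of `y` is not complete to `Q`; it is not in `X`,
`Q`, `Y`; so it is in `Z`.
(7) `X0` is a clique: `t1 ≠ t2` in `X0`, `t1 ≁ t2`; let `z ∈ Zy`, `q ∈ Q`, `q ~ z`:
`{q; t1, t2, z - y}` is a fork (`z ≁ t1, t2` by (4)).
(8) Let `X0'` be the set of the vertices of `X0` with a non-neighbour in `X+`, `X0'' = X0 \ X0'`.
`V1 = Q ∪ Z ∪ {y} ∪ X0''`, so the complement is `X+ ∪ X0'`; `F1 = {y} ∪ Zy`, `F2 = X0'`, `t = x0`.
The crossing rule: `X+` is complete to `Q, Z, y` by S4 and to `X0''` by definition; `t' ∈ X0'` is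
complete to `Q`; by (5) (for `t'`) its non-neighbours in `Z` are exactly `Zy`; it is not adjacent
to `y`; it is complete to `X0''` by (7).  `big1`: a vertex of `Q`; `big2`: `x1`. -/
def G_S5 : Prop :=
  ∀ (V : Type) [Finite V] (G : SimpleGraph V) (Q : Set V), IsPrime G → CoConn G Set.univ →
    ForkF G → MinImp G Q → (Xp G Q).Nonempty →
    ∃ (V1 F1 F2 : Set V) (t y : V), CoJoin G V1 F1 F2 t y

/-- S6 (2 h; may assume CJ (GoalsP)).  A minimal counterexample has no co-1-join.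

PROOF.  `V2` is the complement of `V1`.  Weights of cliques: let `o1`, `a1` be the maximum weights
of the cliques of `V1`, `V1 \ F1`, and `o2`, `a2` those for `V2`, `V2 \ F2`.  `a1 ≤ o1`; `δ = o1 -
a1`.  Every clique `K` of `G` is `K1 ∪ K2` (`K1 ⊆ V1`, `K2 ⊆ V2`) with `K1 ∩ F1 = ∅` (type 1) or
`K2 ∩ F2 = ∅` (type 2); the maximum weight is `W = max (a1 + o2) (o1 + a2)` (the unions of a
clique of `V1 \ F1` and one of `V2`, and of a clique of `V1` and one of `V2 \ F2`, are cliques).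
`S1 = V1 ∪ {t}` (not `V` by `big2`) with the weight `w1` = `w` except `w1 t = δ`: the maximum
weight of a clique is `o1` (`t` is anticomplete to `F1` and complete to `V1 \ F1`).  Let `A1` be
good for `S1`, `w1`.  `S2 = V2 ∪ {y}` (not `V` by `big1`) with `w2` = `w` except `w2 y = δ`: the
maximum weight is `max o2 (a2 + δ)`.  Let `A2` be good for `S2`, `w2`.
For a tight `K = K1 ∪ K2` of `G`:
type 1: `w(K1) = a1`, `w(K2) = o2` and `W = a1 + o2 ≥ o1 + a2`, so `a2 + δ ≤ o2`;
type 2: `w(K1) = o1`, `w(K2) = a2` and `W = o1 + a2 ≥ a1 + o2`, so `o2 ≤ a2 + δ`.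
Case `t ∉ A1`: `A = A1 ⊆ V1`.  Type 1: `K1 ∪ {t}` has `w1`-weight `a1 + δ = o1 > 0`, so `A1` meets
it, so it meets `K1`.  Type 2: `K1` has weight `o1 > 0`, so `A1` meets it.
Case `y ∉ A2`: `A = A2 ⊆ V2`.  Type 1: `K2` has the weight `o2 = max o2 (a2 + δ) > 0`: `A2` meets
it.  Type 2: `K2 ∪ {y}` has `w2`-weight `a2 + δ = max`, which is positive (`V2` is not empty and
has positive weights: `o2 > 0`), so `A2` meets it, so it meets `K2`.
Case `t ∈ A1`, `y ∈ A2`: `A = (A1 \ {t}) ∪ (A2 \ {y})`, perfect by CJ.  Type 1: `K2` is tight in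
`S2`, `y ∉ K2`, so `A2 \ {y}` meets it.  Type 2: `K1` is tight in `S1`, `t ∉ K1`, so `A1 \ {t}`
meets it.
In all cases `A` is perfect and meets all tight cliques, contradiction to `bad`. -/
def G_S6 : Prop :=
  ∀ (V : Type) [Finite V] (G : SimpleGraph V) (w : V → ℕ), MinCE G w →
    ∀ (V1 F1 F2 : Set V) (t y : V), ¬ CoJoin G V1 F1 F2 t y

/-- S7A (1.5 h; may assume MI (GoalsP), S2).  Let `X+ = ∅` and let `{v; a, b, c}` be a claw with
`v ∈ Y`.  Then `a, b, c ∈ Y`.

PROOF.  `a, b, c ∉ Q` (adjacent to `v ∈ Y`), and they are not in `X` (`X+ = ∅`), so they are in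
`Y ∪ Z`.  `Sa = N(a) ∩ Q`, etc., are cliques (empty or by S2).
(1) `Sa ⊆ Sb ∪ Sc`: `q ∈ Sa` outside gives the fork `{v; b, c, a - q}`.  Similarly for `Sb`, `Sc`.
(2) If `s ∈ Sa ∩ Sb` then every neighbour `r` of `s` in `Q` is in `Sa ∪ Sb`: suppose not.  By (dom)
for `r ~ s` there is `r' ∈ Q` with `r' ~ r`, `r' ≠ s`, `r' ≁ s`.  `r' ∉ Sa`, `r' ∉ Sb` (cliques
containing `s`).  `{s; a, b, r - r'}` is a fork.  (And for the other pairs.)
(3) `Sa ∩ Sb` has at most one element: if `s ≠ s'` are in it, they are adjacent; every `r ∈ Q`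
with `s ~ r` is in `Sa ∪ Sb` by (2), so it is `s'` or adjacent to `s'` (both are cliques
containing `s'`): this contradicts (dom) for the pair `s, s'`.
(4) `Sa ∩ Sb = ∅`: let `s` be in it, it is the only one by (3).  Every neighbour `r ≠ s` of `s` in
`Q` is in `Sa ∪ Sb` by (2), and by (1) and (3) in `Sc` (if `r ∈ Sa` then `r ∈ Sb` or `r ∈ Sc`, and
`r ∈ Sa ∩ Sb` means `r = s`).  So the neighbours of `s` in `Q` form a clique, against (simp).
Similarly the other pairs.  So by (1) `Sa = (Sa ∩ Sb) ∪ (Sa ∩ Sc) = ∅`, etc.: `a, b, c` are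
not adjacent to `Q`: in `Y`. -/
def G_S7A : Prop :=
  ∀ (V : Type) [Finite V] (G : SimpleGraph V) (Q : Set V), ForkF G → MinImp G Q →
    Xp G Q = ∅ → ∀ v a b c, v ∈ Ys G Q → G.Adj v a → G.Adj v b → G.Adj v c → a ≠ b → a ≠ c →
    b ≠ c → ¬ G.Adj a b → ¬ G.Adj a c → ¬ G.Adj b c → a ∈ Ys G Q ∧ b ∈ Ys G Q ∧ c ∈ Ys G Q

/-- S7B (1.5 h; may assume MI (GoalsP), S2).  Let `X+ = ∅`; there is no claw inside `Y`.

PROOF.  Let `{v; a, b, c}` be a claw in `Y`, `L = {v, a, b, c}`, `F` = the set of the vertices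
outside `L` with no neighbour in `L`.  `Q ⊆ F` as `L ⊆ Y`.  Fix `q0 ∈ Q` and let `D` be the set of
the vertices which can be reached from `q0` inside `F` (`Relation.ReflTransGen`).  `D` is not empty,
not `V`; by `Conn` there are `x ∈ D`, `p ∉ D`, `x ~ p`.  `p ∉ F` (else `p ∈ D`), `p ∉ L` (`x ∈ F`).
So `p` has a neighbour in `L`.
Claim: there are `p2, p3 ∈ D` with `p ~ p2`, `p2 ~ p3`, `p3 ≠ p`, `p3 ≁ p`.  Suppose not: if
`p2 ∈ D`, `p ~ p2`, then `p` is adjacent to all neighbours of `p2` in `D` (`p ∉ D`).  As `p ~ x` and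
every vertex of `D` is joined to `x` inside `D`, `p` is complete to `D`.  So `p ~ q0`; `p` is
adjacent to a vertex of `L ⊆ Y` and of `Q`, so `p ∉ Y`, `p ∉ Q`, and `p ∉ X` as `X+ = ∅`; so
`p ∈ Z`, and by S2 `N(p) ∩ Q` is a clique.  The neighbours of `q0` in `Q ⊆ F` are in `D`, so
adjacent to `p`, so they form a clique, against (simp).
The vertices `p2, p3` are not in `L` and not adjacent to `L`.
Now if `p` is adjacent to two of `a, b, c`, say `a, b`: `{p; a, b, p2 - p3}` is a fork.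
Otherwise `p` is adjacent to at most one of `a, b, c`.  If `p ~ v`: `p` is not adjacent to two of
them, say `b, c`: `{v; b, c, p - p2}` is a fork.  If `p ≁ v`: `p` is adjacent to exactly one,
say `a` (`p` has a neighbour in `L`): `{v; b, c, a - p}` is a fork. -/
def G_S7B : Prop :=
  ∀ (V : Type) [Finite V] (G : SimpleGraph V) (Q : Set V), ForkF G → Conn G → MinImp G Q →
    Xp G Q = ∅ → ∀ v a b c, v ∈ Ys G Q → a ∈ Ys G Q → b ∈ Ys G Q → c ∈ Ys G Q →
    G.Adj v a → G.Adj v b → G.Adj v c → a ≠ b → a ≠ c → b ≠ c →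
    G.Adj a b ∨ G.Adj a c ∨ G.Adj b c

/-- TB (0.5 h; may assume MI, MC0 (GoalsP), PR, S5, S6, S7A, S7B).  Theorem B.

PROOF.  `MF0 G w` by MC0, `IsPrime G` and `CoConn G univ` by PR.  For every minimal imperfect `Q`,
`Xp G Q = ∅` (otherwise S5 gives a co-1-join, against S6).  Let `{v; a, b, c}` be a claw.
`M(v)` is not perfect (`nperf`), so it contains a minimal imperfect `Q` (MI); `v ∈ Y`.  S7A and
S7B give a contradiction. -/
def G_TB : Prop :=
  ∀ (V : Type) [Finite V] (G : SimpleGraph V) (w : V → ℕ), MinCE G w → ForkF G → ClawFree G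

end Pool.Agent.Helper2.SV
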