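import Pool.Agent.Helper2.SV.GoalsC

set_option autoImplicit false

namespace Pool.Agent.Helper2.SV

lemma cf {V : Type} {G : SimpleGraph V} (h : ClawFree G) {v a b c : V} (ha : G.Adj v a)
    (hb : G.Adj v b) (hc : G.Adj v c) (hab : a ≠ b) (hac : a ≠ c) (hbc : b ≠ c)
    (n1 : ¬ G.Adj a b) (n2 : ¬ G.Adj a c) : G.Adj b c := by
  rcases h v a b c ha hb hc hab hac hbc with h | h | h
  exacts [absurd h n1, absurd h n2, h]

lemma f5_cases : ∀ i j : Fin 5, j = i ∨ j = i + 1 ∨ j = i + 2 ∨ j = i + 3 ∨ j = i + 4 := by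
  decide

lemma f5_1 : ∀ i : Fin 5, i + 1 ≠ i := by decide
lemma f5_2 : ∀ i : Fin 5, i + 2 ≠ i := by decide
lemma f5_3 : ∀ i : Fin 5, i + 3 ≠ i := by decide
lemma f5_4 : ∀ i : Fin 5, i + 4 ≠ i := by decide

lemma types_bool : ∀ p : Fin 5 → Bool,
    (∀ i, p i = true → p (i + 1) = true ∨ p (i - 1) = true) →
    (∀ i, p i = false) ∨ (∃ i, ∀ j, p j = true ↔ (j = i ∨ j = i + 1)) ∨
      ∃ j, p j = true ∧ p (j + 1) = true ∧ p (j + 2) = true := by
  decide

lemma three_bool : ∀ p : Fin 5 → Bool,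
    (∀ i, p i = true ∨ p (i + 2) = true) →
      ∃ j, p j = true ∧ p (j + 1) = true ∧ p (j + 2) = true := by
  decide

lemma types_aux (P : Fin 5 → Prop) (h : ∀ i, P i → P (i + 1) ∨ P (i - 1)) :
    (∀ i, ¬ P i) ∨ (∃ i, ∀ j, P j ↔ (j = i ∨ j = i + 1)) ∨
      ∃ j, P j ∧ P (j + 1) ∧ P (j + 2) := by
  classical
  have := types_bool (fun i => decide (P i)) (by simpa using h)
  simpa using this

lemma three_aux (P : Fin 5 → Prop) (h : ∀ i, P i ∨ P (i + 2)) :
    ∃ j, P j ∧ P (j + 1) ∧ P (j + 2) := by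
  classical
  have := three_bool (fun i => decide (P i)) (by simpa using h)
  simpa using this

section
variable {V : Type} {G : SimpleGraph V} {u : V} {d : Fin 5 → V}

lemma Wheel.a1 (W : Wheel G u d) (i : Fin 5) : G.Adj (d i) (d (i + 1)) := W.rim i
lemma Wheel.a4 (W : Wheel G u d) (i : Fin 5) : G.Adj (d i) (d (i + 4)) := by
  have := W.rim (i + 4)
  rw [show i + 4 + 1 = i by omega] at this
  exact this.symm
lemma Wheel.n2 (W : Wheel G u d) (i : Fin 5) : ¬ G.Adj (d i) (d (i + 2)) := W.non i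
lemma Wheel.n3 (W : Wheel G u d) (i : Fin 5) : ¬ G.Adj (d i) (d (i + 3)) := by
  have := W.non (i + 3)
  rw [show i + 3 + 2 = i by omega] at this
  exact fun h => this h.symm
lemma Wheel.am (W : Wheel G u d) (i : Fin 5) : G.Adj (d i) (d (i - 1)) := by
  have := W.a4 i
  rwa [show i + 4 = i - 1 by omega] at this

lemma Wheel.ne (W : Wheel G u d) {i j : Fin 5} (h : i ≠ j) : d i ≠ d j :=
  fun hc => h (W.inj hc)

lemma Wheel.off (W : Wheel G u d) {x : V} (hx : x ∈ Mn G u) (j : Fin 5) : x ≠ d j :=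
  fun h => hx.2 (h ▸ W.spoke j)

end

theorem goalWFC : G_WFC := by
  intro V _ G u d hcf W
  have hmiss : ∀ x i, G.Adj u x → (∀ j, x ≠ d j) → G.Adj x (d i) ∨ G.Adj x (d (i + 2)) := by
    intro x i hux hx
    by_contra hcon
    push Not at hcon
    exact W.n2 i (cf hcf hux (W.spoke i) (W.spoke (i + 2)) (hx i) (hx _)
      (W.ne (f5_2 i).symm) hcon.1 hcon.2)
  have hthree : ∀ x, G.Adj u x → (∀ j, x ≠ d j) → Three G d x := fun x hux hx =>
    three_aux (fun i => G.Adj x (d i)) (fun i => hmiss x i hux hx)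
  have hside : ∀ v i, (∀ j, v ≠ d j) → G.Adj v (d i) →
      G.Adj v (d (i + 1)) ∨ G.Adj v (d (i - 1)) := by
    intro v i hv hvi
    by_contra hcon
    push Not at hcon
    have h := cf hcf hvi.symm (W.a1 i) (W.am i) (hv _) (hv _)
      (W.ne (by omega)) hcon.1 hcon.2
    rw [show i - 1 = i + 1 + 3 by omega] at h
    exact W.n3 (i + 1) h
  have hcommon : ∀ v v' i, v ∈ Mn G u → v' ∈ Mn G u → v ≠ v' → G.Adj v (d i) →
      G.Adj v' (d i) → G.Adj v v' := by
    intro v v' i hv hv' hne h h'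
    exact cf hcf (W.spoke i).symm h.symm h'.symm hv.1.symm hv'.1.symm hne hv.2 hv'.2
  have htypes : ∀ v ∈ Mn G u, v ∈ V0 G u d ∨ (∃ i, v ∈ V2 G u d i) ∨ Three G d v := by
    intro v hv
    rcases types_aux (fun i => G.Adj v (d i)) (fun i hi => hside v i (W.off hv) hi) with
      h | ⟨i, h⟩ | h
    · exact Or.inl ⟨hv, h⟩
    · exact Or.inr (Or.inl ⟨i, hv, h⟩)
    · exact Or.inr (Or.inr h)
  have hv0N : ∀ y ∈ V0 G u d, ∀ x, G.Adj u x → ¬ G.Adj y x := by
    intro y hy x hux hyx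
    by_cases hx : ∀ j, x ≠ d j
    · obtain ⟨j, h0, -, h2⟩ := hthree x hux hx
      exact W.n2 j (cf hcf hyx.symm h0 h2 (W.off hy.1 j) (W.off hy.1 _)
        (W.ne (f5_2 j).symm) (hy.2 _) (hy.2 _))
    · push Not at hx
      obtain ⟨j, rfl⟩ := hx
      exact hy.2 j hyx
  have hv0M : ∀ y ∈ V0 G u d, ∀ m, G.Adj y m → m ∈ Mn G u := by
    intro y hy m hym
    exact ⟨fun h => hy.1.2 (h ▸ hym.symm), fun h => hv0N y hy m h hym⟩
  have hv03 : ∀ y ∈ V0 G u d, ∀ m, G.Adj y m → ¬ Three G d m := by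
    rintro y hy m hym ⟨j, h0, -, h2⟩
    exact W.n2 j (cf hcf hym.symm h0 h2 (W.off hy.1 j) (W.off hy.1 _)
      (W.ne (f5_2 j).symm) (hy.2 _) (hy.2 _))
  have hv0E : ∀ y ∈ V0 G u d, ∀ m, G.Adj y m → m ∈ V0 G u d ∨ ∃ i, m ∈ EE G u d i := by
    intro y hy m hym
    rcases htypes m (hv0M y hy m hym) with h | ⟨i, h⟩ | h
    · exact Or.inl h
    · exact Or.inr ⟨i, h, y, hy, hym.symm⟩
    · exact absurd h (hv03 y hy m hym)
  have hv0T : ∀ y ∈ V0 G u d, ∀ t ∈ TT G u d, ¬ G.Adj y t := by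
    intro y hy t ht hyt
    rcases hv0E y hy t hyt with h | ⟨i, h⟩
    · exact ht.1 h
    · exact ht.2 i h
  -- membership helpers
  have gi : ∀ {i g}, g ∈ V2 G u d i → G.Adj g (d i) := fun {i g} hg => (hg.2 i).2 (Or.inl rfl)
  have gi1 : ∀ {i g}, g ∈ V2 G u d i → G.Adj g (d (i + 1)) :=
    fun {i g} hg => (hg.2 (i + 1)).2 (Or.inr rfl)
  have gn : ∀ {i g} (j : Fin 5), g ∈ V2 G u d i → j ≠ i → j ≠ i + 1 → ¬ G.Adj g (d j) := by
    intro i g j hg h1 h2 h
    rcases (hg.2 j).1 h with h | h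
    · exact h1 h
    · exact h2 h
  have g3 : ∀ {i g}, g ∈ V2 G u d i → ¬ Three G d g := by
    rintro i g hg ⟨j, h0, h1, h2⟩
    rcases (hg.2 _).1 h0 with e0 | e0 <;> rcases (hg.2 _).1 h2 with e2 | e2 <;> omega
  have hv0C : ∀ i, ∀ g ∈ V2 G u d i, ∀ y ∈ V0 G u d, ∀ y' ∈ V0 G u d, G.Adj y g →
      G.Adj y' g → y ≠ y' → G.Adj y y' := by
    intro i g hg y hy y' hy' h h' hne
    exact cf hcf (gi hg) h.symm h'.symm (W.off hy.1 i).symm (W.off hy'.1 i).symm hne
      (fun h => hy.2 i h.symm) (fun h => hy'.2 i h.symm)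
  have he3 : ∀ i, (EE G u d i).Nonempty → ∀ m ∈ Mn G u, Three G d m →
      (G.Adj m (d i) ∨ G.Adj m (d (i + 1))) → G.Adj m (d i) ∧ G.Adj m (d (i + 1)) := by
    rintro i ⟨g, hg, y, hy, hgy⟩ m hm hm3 hmi
    have hmg : m ≠ g := fun h => g3 hg (h ▸ hm3)
    have hadj : G.Adj m g := by
      rcases hmi with h | h
      · exact hcommon m g i hm hg.1 hmg h (gi hg)
      · exact hcommon m g (i + 1) hm hg.1 hmg h (gi1 hg)
    have hmy : ¬ G.Adj y m := fun h => hv03 y hy m h hm3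
    have hym : y ≠ m := by
      rintro rfl
      obtain ⟨j, h0, -⟩ := hm3
      exact hy.2 j h0
    constructor
    · by_contra hc
      exact hc (cf hcf hgy hadj.symm (gi hg) hym (W.off hy.1 _) (W.off hm _) hmy (hy.2 _))
    · by_contra hc
      exact hc (cf hcf hgy hadj.symm (gi1 hg) hym (W.off hy.1 _) (W.off hm _) hmy (hy.2 _))
  have he4a : ∀ i, ∀ y ∈ V0 G u d, ∀ g ∈ V2 G u d i, G.Adj y g →
      ∀ h ∈ V2 G u d (i + 1), G.Adj y h := by
    intro i y hy g hg hyg h hh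
    have hgh : g ≠ h := fun hc => gn (i + 2) hg (f5_2 i) (by omega)
      (hc ▸ by have := gi1 hh; rwa [show i + 1 + 1 = i + 2 by omega] at this)
    have h1 : G.Adj g h := hcommon g h (i + 1) hg.1 hh.1 hgh (gi1 hg) (gi hh)
    exact cf hcf (gi hg) hyg.symm h1 (W.off hy.1 i).symm (W.off hh.1 i).symm
      (fun hc => hy.2 (i + 1) (hc ▸ gi hh)) (fun hc => hy.2 i hc.symm)
      (fun hc => gn i hh (f5_1 i).symm (by omega) hc.symm)
  have he4b : ∀ i, ∀ y ∈ V0 G u d, ∀ g ∈ V2 G u d (i + 1), G.Adj y g →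
      ∀ h ∈ V2 G u d i, G.Adj y h := by
    intro i y hy g hg hyg h hh
    have hgh : g ≠ h := fun hc => gn (i + 2) hh (f5_2 i) (by omega)
      (hc ▸ by have := gi1 hg; rwa [show i + 1 + 1 = i + 2 by omega] at this)
    have h1 : G.Adj g h := hcommon g h (i + 1) hg.1 hh.1 hgh (gi hg) (gi1 hh)
    have hg2 : G.Adj g (d (i + 2)) := by
      have := gi1 hg
      rwa [show i + 1 + 1 = i + 2 by omega] at this
    exact cf hcf hg2 hyg.symm h1 (W.off hy.1 _).symm (W.off hh.1 _).symm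
      (fun hc => hy.2 i (hc ▸ gi hh)) (fun hc => hy.2 _ hc.symm)
      (fun hc => gn (i + 2) hh (f5_2 i) (by omega) hc.symm)
  have hsd1 : ∀ i, ∀ t ∈ SS G u d i,
      (t = d i ∨ G.Adj t (d i)) ∧ (t = d (i + 1) ∨ G.Adj t (d (i + 1))) := by
    rintro i t ⟨ht, g, ⟨hg, y, hy, hgy⟩, htg⟩
    have hyt : y ≠ t := fun h => ht.1 (h ▸ hy)
    have hnyt : ¬ G.Adj y t := hv0T y hy t ht
    constructor
    · by_cases h : t = d i
      · exact Or.inl h
      · exact Or.inr (cf hcf hgy htg.symm (gi hg) hyt (W.off hy.1 _) h hnyt (hy.2 _))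
    · by_cases h : t = d (i + 1)
      · exact Or.inl h
      · exact Or.inr (cf hcf hgy htg.symm (gi1 hg) hyt (W.off hy.1 _) h hnyt (hy.2 _))
  have hsC : ∀ i, ∀ t ∈ SS G u d i, ∀ g ∈ EE G u d i, G.Adj t g := by
    intro i t hts g' hg'
    obtain ⟨ht, g, hgE, htg⟩ := id hts
    obtain ⟨hg, y, hy, hgy⟩ := id hgE
    have htg' : t ≠ g' := fun h => ht.2 i (h ▸ hg')
    have htu : t ≠ u := fun h => hg.1.2 (h ▸ htg)
    by_cases htM : t ∈ Mn G u
    · have := (hsd1 i t hts).1.resolve_left (W.off htM i)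
      exact hcommon t g' i htM hg'.1.1 htg' this (gi hg'.1)
    · have hut : G.Adj u t := by
        by_contra h
        exact htM ⟨htu, h⟩
      by_cases hoff : ∀ j, t ≠ d j
      · have hti : G.Adj t (d i) := (hsd1 i t hts).1.resolve_left (hoff i)
        have hti1 : G.Adj t (d (i + 1)) := (hsd1 i t hts).2.resolve_left (hoff _)
        by_cases h1 : G.Adj t (d (i - 1))
        · by_cases h2 : G.Adj t (d (i + 2))
          · exfalso
            have := cf hcf htg h1 h2 (W.off hg.1 _) (W.off hg.1 _)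
              (W.ne (by omega)) (gn _ hg (by omega) (by omega))
              (gn _ hg (by omega) (by omega))
            rw [show i - 1 = i + 2 + 2 by omega] at this
            exact W.n2 (i + 2) this.symm
          · have ha : G.Adj (d (i + 1)) (d (i + 2)) := by
              have := W.a1 (i + 1)
              rwa [show i + 1 + 1 = i + 2 by omega] at this
            exact cf hcf ha hti1.symm (gi1 hg'.1).symm (hoff _).symm (W.off hg'.1.1 _).symm htg'
              (fun h => h2 h.symm)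
              (fun h => gn (i + 2) hg'.1 (f5_2 i) (by omega) h.symm)
        · exact cf hcf (W.am i) hti.symm (gi hg'.1).symm (hoff _).symm (W.off hg'.1.1 _).symm htg'
            (fun h => h1 h.symm)
            (fun h => gn (i - 1) hg'.1 (by omega) (by omega) h.symm)
      · push Not at hoff
        obtain ⟨j, rfl⟩ := hoff
        rcases (hg.2 j).1 htg.symm with h | h
        · rw [h]
          exact (gi hg'.1).symm
        · rw [h]
          exact (gi1 hg'.1).symm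
  refine
    { miss := hmiss
      three := hthree
      both := ?_
      side := hside
      common := hcommon
      types := htypes
      v0N := hv0N
      v0E := hv0E
      v0T := hv0T
      v0C := hv0C
      e3 := he3
      e4 := ?_
      sC := hsC
      sQ := ?_
      sD := hsd1
      sd := ?_
      sN := ?_
      sM := ?_
      uT := ?_
      dT := ?_ }
  · intro x x' i hux hux' hne h1 h2 n1 n2
    exact cf hcf (W.spoke i) hux hux' h1.symm h2.symm hne (fun h => n1 h.symm)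
      (fun h => n2 h.symm)
  · intro i hE hV hV'
    have key : ∀ y ∈ V0 G u d, ∀ g ∈ V2 G u d i ∪ V2 G u d (i + 1), G.Adj y g →
        ∀ g' ∈ V2 G u d i ∪ V2 G u d (i + 1), G.Adj y g' := by
      obtain ⟨a, ha⟩ := hV
      obtain ⟨b, hb⟩ := hV'
      rintro y hy g (hg | hg) hyg g' (hg' | hg')
      · exact he4b i y hy b hb (he4a i y hy g hg hyg b hb) g' hg'
      · exact he4a i y hy g hg hyg g' hg'
      · exact he4b i y hy g hg hyg g' hg'
      · exact he4a i y hy a ha (he4b i y hy g hg hyg a ha) g' hg'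
    have hy : ∃ y ∈ V0 G u d, ∃ g ∈ V2 G u d i ∪ V2 G u d (i + 1), G.Adj y g := by
      rcases hE with ⟨g, hg, y, hy, hgy⟩ | ⟨g, hg, y, hy, hgy⟩
      · exact ⟨y, hy, g, Or.inl hg, hgy.symm⟩
      · exact ⟨y, hy, g, Or.inr hg, hgy.symm⟩
    obtain ⟨y, hy, g, hg, hyg⟩ := hy
    exact ⟨fun g' hg' => ⟨hg', y, hy, (key y hy g hg hyg g' (Or.inl hg')).symm⟩,
      fun g' hg' => ⟨hg', y, hy, (key y hy g hg hyg g' (Or.inr hg')).symm⟩, key⟩
  · rintro i x (hx | hx) x' (hx' | hx') hne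
    · exact hcommon x x' i hx.1.1 hx'.1.1 hne (gi hx.1) (gi hx'.1)
    · exact (hsC i x' hx' x hx).symm
    · exact hsC i x hx x' hx'
    · obtain ⟨ht, g, hgE, htg⟩ := id hx
      obtain ⟨hg, y, hy, hgy⟩ := id hgE
      exact cf hcf hgy htg.symm (hsC i x' hx' g hgE).symm (fun h => ht.1 (h ▸ hy))
        (fun h => hx'.1.1 (h ▸ hy)) hne (hv0T y hy x ht) (hv0T y hy x' hx'.1)
  · rintro i ⟨g, hg⟩
    have hdT : ∀ j, d j ∈ TT G u d := fun j => ⟨fun h => h.1.2 (W.spoke j),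
      fun k h => h.1.1.2 (W.spoke j)⟩
    exact ⟨⟨hdT i, g, hg, (gi hg.1).symm⟩, ⟨hdT _, g, hg, (gi1 hg.1).symm⟩⟩
  · rintro i ⟨g, hg⟩ x hux hoff hx
    have hxT : x ∈ TT G u d := ⟨fun h => h.1.2 hux, fun k h => h.1.1.2 hux⟩
    have hxg : x ≠ g := fun h => hg.1.1.2 (h ▸ hux)
    refine ⟨hxT, g, hg, ?_⟩
    rcases hx with ⟨h1, h2⟩ | ⟨h1, h2⟩
    · exact cf hcf (W.am i) h1.symm (gi hg.1).symm (hoff _).symm (W.off hg.1.1 _).symm hxg
        (fun h => h2 h.symm)
        (fun h => gn (i - 1) hg.1 (by omega) (by omega) h.symm)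
    · have ha : G.Adj (d (i + 1)) (d (i + 2)) := by
        have := W.a1 (i + 1)
        rwa [show i + 1 + 1 = i + 2 by omega] at this
      exact cf hcf ha h1.symm (gi1 hg.1).symm (hoff _).symm (W.off hg.1.1 _).symm hxg
        (fun h => h2 h.symm)
        (fun h => gn (i + 2) hg.1 (f5_2 i) (by omega) h.symm)
  · rintro i ⟨g, hg⟩ x hxM hxT hx
    have hxg : x ≠ g := fun h => hxT.2 i (h ▸ hg)
    refine ⟨hxT, g, hg, ?_⟩
    rcases hx with h | h
    · exact hcommon x g i hxM hg.1.1 hxg h (gi hg.1)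
    · exact hcommon x g (i + 1) hxM hg.1.1 hxg h (gi1 hg.1)
  · exact ⟨⟨fun h => h.1.1 rfl, fun k h => h.1.1.1 rfl⟩, fun i h => by
      obtain ⟨-, g, hg, hug⟩ := h
      exact hg.1.1.2 hug⟩
  · intro j
    refine ⟨⟨fun h => h.1.2 (W.spoke j), fun k h => h.1.1.2 (W.spoke j)⟩, ?_⟩
    rintro i ⟨-, g, hg, h⟩
    exact (hg.1.2 j).1 h.symm

end Pool.Agent.Helper2.SV
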