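import Pool.Agent.Helper2.SV.GoalsP
import Pool.Agent.Helper2.SV.WFC

set_option autoImplicit false

namespace Pool.Agent.Helper2.SV

theorem goalI013 (hGLUE : G_GLUE) (hCOB : G_COB) (hA : G_I013A) : G_I013 := by
  classical
  intro V _ G w u d hcf hM hW hWF hV0 hI
  obtain ⟨glue, clqp, -⟩ := hGLUE
  obtain ⟨f1, f2, f3, f4, f5⟩ := hA V G w u d hcf hM hW hWF hV0 hI
  have hE0 : (EE G u d 0).Nonempty := (hI 0).2 (Or.inl rfl)
  have hE1 : (EE G u d 1).Nonempty := (hI 1).2 (Or.inr (Or.inl rfl))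
  have hE3 : (EE G u d 3).Nonempty := (hI 3).2 (Or.inr (Or.inr rfl))
  have hne : ∀ i : Fin 5, i ≠ 0 → i ≠ 1 → i ≠ 3 → ∀ x, x ∉ EE G u d i := by
    intro i h0 h1 h3 x hx
    rcases (hI i).1 ⟨x, hx⟩ with h | h | h
    exacts [h0 h, h1 h, h3 h]
  have memT : ∀ x, x ∉ V0 G u d → x ∉ EE G u d 0 → x ∉ EE G u d 1 → x ∉ EE G u d 3 →
      x ∈ TT G u d := by
    intro x h0 h1 h2 h3
    refine ⟨h0, fun j => ?_⟩
    by_cases hj0 : j = 0
    · subst hj0; exact h1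
    by_cases hj1 : j = 1
    · subst hj1; exact h2
    by_cases hj3 : j = 3
    · subst hj3; exact h3
    exact hne j hj0 hj1 hj3 x
  have memS : ∀ i x g, x ∈ TT G u d → g ∈ EE G u d i → G.Adj x g → x ∈ SS G u d i :=
    fun i x g hx hg h => ⟨hx, g, hg, h⟩
  -- EA is a clique
  have hEA : Clq G (EE G u d 0 ∪ EE G u d 1) := by
    intro x hx y hy hxy
    have hd : ∀ z ∈ EE G u d 0 ∪ EE G u d 1, z ∈ Mn G u ∧ G.Adj z (d 1) := by
      rintro z (hz | hz)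
      · exact ⟨hz.1.1, (hz.1.2 1).2 (by decide)⟩
      · exact ⟨hz.1.1, (hz.1.2 1).2 (by decide)⟩
    exact hWF.common x y 1 (hd x hx).1 (hd y hy).1 hxy (hd x hx).2 (hd y hy).2
  have h3cl : Clq G (EE G u d 3 ∪ SS G u d 3) := hWF.sQ 3
  set R : Set V := {x | x ∈ TT G u d ∧ x ∉ SS G u d 0 ∧ x ∉ SS G u d 1 ∧ x ∉ SS G u d 3} with hR
  set P : Set V := SS G u d 0 ∩ SS G u d 1 with hP
  have hWne : (V0 G u d ∪ EE G u d 3 : Set V) ≠ Set.univ := by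
    intro h
    have : u ∈ V0 G u d ∪ EE G u d 3 := h ▸ Set.mem_univ u
    rcases this with h | h
    · exact h.1.1 rfl
    · exact h.1.1.1 rfl
  obtain ⟨A', hA'sub, hA'perf, hA'meet⟩ := hM.ih _ hWne
  -- nonadjacency in T
  have n3T : ∀ x ∈ TT G u d, x ∉ SS G u d 3 → ∀ g ∈ EE G u d 3, ¬ G.Adj x g :=
    fun x hx hx3 g hg h => hx3 (memS 3 x g hx hg h)
  have nV0 : ∀ x ∈ TT G u d, ∀ y ∈ V0 G u d, ¬ G.Adj x y := fun x hx y hy h =>
    hWF.v0T y hy x hx h.symm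
  have SSsub : ∀ i, SS G u d i ⊆ TT G u d := fun i x hx => hx.1
  have hPcl : Clq G P := (hWF.sQ 0).mono (fun x hx => Or.inr hx.1)
  have hS3cl : Clq G (SS G u d 3) := (hWF.sQ 3).mono (fun x hx => Or.inr hx)
  -- R ∪ P ∪ S3
  have hRP : Perf G (R ∪ P) := hCOB V G R P f5 hPcl
  have hRS : Perf G (R ∪ SS G u d 3) := hCOB V G R _ f5 hS3cl
  have h1 : Perf G ((R ∪ P) ∪ (R ∪ SS G u d 3)) := by
    apply glue V G _ _ hRP hRS
    · apply f5.mono
      rintro x ⟨hx | hx, hx' | hx'⟩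
      · exact hx
      · exact hx
      · exact hx'
      · exact absurd hx.1 (f3 x hx').1
    · rintro x (hx | hx) hx2 y (hy | hy) hy2
      · exact absurd (Or.inl hx) hx2
      · exact absurd (Or.inl hx) hx2
      · exact absurd (Or.inl hy) hy2
      · exact f4 x hx.1 hx.2 y hy
  have hcl3 : Clq G (SS G u d 3 ∪ (A' ∩ EE G u d 3)) := h3cl.mono (by
    rintro x (hx | hx)
    · exact Or.inr hx
    · exact Or.inl hx.2)
  set B1 : Set V := (R ∪ P) ∪ (R ∪ SS G u d 3) with hB1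
  have hB1T : ∀ x ∈ B1, x ∈ TT G u d := by
    rintro x ((hx | hx) | (hx | hx))
    · exact hx.1
    · exact hx.1.1
    · exact hx.1
    · exact hx.1
  have hB1S : ∀ x ∈ B1, x ∈ SS G u d 3 ∨ x ∉ SS G u d 3 := fun x _ => em _
  have h2 : Perf G (B1 ∪ (SS G u d 3 ∪ (A' ∩ EE G u d 3))) := by
    apply glue V G _ _ h1 (clqp V G _ hcl3) (hcl3.mono Set.inter_subset_right)
    rintro x hx hx2 y (hy | hy) hy2
    · exact absurd (Or.inr (Or.inr hy)) hy2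
    · exact n3T x (hB1T x hx) (fun h => hx2 (Or.inl h)) y hy.2
  have h3 : Perf G ((B1 ∪ (SS G u d 3 ∪ (A' ∩ EE G u d 3))) ∪ A') := by
    apply glue V G _ _ h2 hA'perf
    · apply h3cl.mono
      rintro x ⟨hx | hx | hx, hxA⟩
      · rcases hA'sub hxA with h | h
        · exact absurd h (hB1T x hx).1
        · exact absurd h ((hB1T x hx).2 3)
      · rcases hA'sub hxA with h | h
        · exact absurd h hx.1.1
        · exact absurd h (hx.1.2 3)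
      · exact Or.inl hx.2
    · rintro x hx hx2 y hy hy2
      have hy0 : y ∈ V0 G u d := by
        rcases hA'sub hy with h | h
        · exact h
        · exact absurd (Or.inr (Or.inr ⟨hy, h⟩)) hy2
      rcases hx with hx | hx | hx
      · exact nV0 x (hB1T x hx) y hy0
      · exact nV0 x hx.1 y hy0
      · exact absurd hx.1 hx2
  obtain ⟨K, hK, hmiss, hfree⟩ := hM.free _ h3
  have hKA : ∀ x ∈ K, x ∉ A' := fun x hx h => hmiss x hx (Or.inr h)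
  have hKB : ∀ x ∈ K, x ∉ B1 := fun x hx h => hmiss x hx (Or.inl (Or.inl h))
  have hKcases : ∀ x ∈ K, x ∈ V0 G u d ∨ x ∈ EE G u d 3 ∨ x ∈ EE G u d 0 ∨ x ∈ EE G u d 1 ∨
      (x ∈ SS G u d 0 ∧ x ∉ SS G u d 1) ∨ (x ∈ SS G u d 1 ∧ x ∉ SS G u d 0) := by
    intro x hx
    by_cases c0 : x ∈ V0 G u d
    · exact Or.inl c0
    by_cases c1 : x ∈ EE G u d 0
    · exact Or.inr (Or.inr (Or.inl c1))
    by_cases c2 : x ∈ EE G u d 1
    · exact Or.inr (Or.inr (Or.inr (Or.inl c2)))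
    by_cases c3 : x ∈ EE G u d 3
    · exact Or.inr (Or.inl c3)
    have hT := memT x c0 c1 c2 c3
    by_cases s0 : x ∈ SS G u d 0
    · by_cases s1 : x ∈ SS G u d 1
      · exact absurd (Or.inl (Or.inr ⟨s0, s1⟩)) (hKB x hx)
      · exact Or.inr (Or.inr (Or.inr (Or.inr (Or.inl ⟨s0, s1⟩))))
    · by_cases s1 : x ∈ SS G u d 1
      · exact Or.inr (Or.inr (Or.inr (Or.inr (Or.inr ⟨s1, s0⟩))))
      · by_cases s3 : x ∈ SS G u d 3
        · exact absurd (Or.inr (Or.inr s3)) (hKB x hx)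
        · exact absurd (Or.inl (Or.inl ⟨hT, s0, s1, s3⟩)) (hKB x hx)
  have hd1S : d 1 ∈ SS G u d 0 ∧ d 1 ∈ SS G u d 1 :=
    ⟨(hWF.sd 0 hE0).2, (hWF.sd 1 hE1).1⟩
  have hd1K : d 1 ∉ K := fun h => hKB _ h (Or.inl (Or.inr hd1S))
  have kadj : ∀ s ∈ K, ∀ x ∈ K, x ≠ s → G.Adj s x := fun s hs x hx h =>
    hK.2.1 s hs x hx (Ne.symm h)
  have hno0 : ∀ s ∈ K, s ∈ SS G u d 0 → s ∉ SS G u d 1 → False := by
    intro s hs s0 s1
    apply hM.max K hK (d 1)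
    intro x hx
    have hne' : d 1 ≠ x := fun h => hd1K (h ▸ hx)
    have e0 : ∀ z ∈ EE G u d 0 ∪ SS G u d 0, z ∈ K → G.Adj (d 1) z := fun z hz hzK =>
      hWF.sQ 0 (d 1) (Or.inr hd1S.1) z hz (fun h => hd1K (h ▸ hzK))
    by_cases hxs : x = s
    · subst hxs
      exact e0 x (Or.inr s0) hx
    have hsx := kadj s hs x hx hxs
    rcases hKcases x hx with h | h | h | h | h | h
    · exact absurd hsx (nV0 s s0.1 x h)
    · exact absurd hsx (n3T s s0.1 (fun h3 => (f3 s h3).1 s0) x h)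
    · exact e0 x (Or.inl h) hx
    · exact absurd (memS 1 s x s0.1 h hsx) s1
    · exact e0 x (Or.inr h.1) hx
    · exact hWF.sQ 1 (d 1) (Or.inr hd1S.2) x (Or.inr h.1) hne'
  have hno1 : ∀ s ∈ K, s ∈ SS G u d 1 → s ∉ SS G u d 0 → False := by
    intro s hs s1 s0
    apply hM.max K hK (d 1)
    intro x hx
    have hne' : d 1 ≠ x := fun h => hd1K (h ▸ hx)
    have e0 : ∀ z ∈ EE G u d 1 ∪ SS G u d 1, z ∈ K → G.Adj (d 1) z := fun z hz hzK =>
      hWF.sQ 1 (d 1) (Or.inr hd1S.2) z hz (fun h => hd1K (h ▸ hzK))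
    by_cases hxs : x = s
    · subst hxs
      exact e0 x (Or.inr s1) hx
    have hsx := kadj s hs x hx hxs
    rcases hKcases x hx with h | h | h | h | h | h
    · exact absurd hsx (nV0 s s1.1 x h)
    · exact absurd hsx (n3T s s1.1 (fun h3 => (f3 s h3).2 s1) x h)
    · exact absurd (memS 0 s x s1.1 h hsx) s0
    · exact e0 x (Or.inl h) hx
    · exact hWF.sQ 0 (d 1) (Or.inr hd1S.1) x (Or.inr h.1) hne'
    · exact e0 x (Or.inr h.1) hx
  have hKc : ∀ x ∈ K, x ∈ V0 G u d ∨ x ∈ EE G u d 3 ∨ x ∈ EE G u d 0 ∪ EE G u d 1 := by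
    intro x hx
    rcases hKcases x hx with h | h | h | h | h | h
    · exact Or.inl h
    · exact Or.inr (Or.inl h)
    · exact Or.inr (Or.inr (Or.inl h))
    · exact Or.inr (Or.inr (Or.inr h))
    · exact (hno0 x hx h.1 h.2).elim
    · exact (hno1 x hx h.1 h.2).elim
  obtain ⟨g, hgK, hg⟩ : ∃ g ∈ K, g ∈ EE G u d 0 ∪ EE G u d 1 := by
    by_contra hcon
    push Not at hcon
    obtain ⟨x, hx, hxA⟩ := hA'meet K hK (by
      intro x hx
      rcases hKc x hx with h | h | h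
      · exact Or.inl h
      · exact Or.inr h
      · exact absurd h (hcon x hx))
    exact hKA x hx hxA
  -- K' = Y0 ∪ E3+ ∪ EA
  set K' : Set V := {x | (x ∈ V0 G u d ∧ ∃ g ∈ EE G u d 0 ∪ EE G u d 1, G.Adj x g) ∨
    (x ∈ EE G u d 3 ∧ ∃ g ∈ EE G u d 0 ∪ EE G u d 1, G.Adj x g) ∨
    x ∈ EE G u d 0 ∪ EE G u d 1} with hK'
  have hV2sub : ∀ x ∈ EE G u d 0 ∪ EE G u d 1, ∃ i, x ∈ V2 G u d i := by
    rintro x (h | h)
    exacts [⟨0, h.1⟩, ⟨1, h.1⟩]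
  have hK'cl : Clq G K' := by
    have y3 : ∀ x ∈ V0 G u d, (∃ g ∈ EE G u d 0 ∪ EE G u d 1, G.Adj x g) →
        ∀ y ∈ EE G u d 3, (∃ g ∈ EE G u d 0 ∪ EE G u d 1, G.Adj y g) → G.Adj x y := by
      rintro x hx ⟨g, hg, hxg⟩ y hy ⟨g', hg', hyg'⟩
      exact (f2 y hy g' hg' hyg').2 x hx g hg hxg
    have yE : ∀ x ∈ V0 G u d, (∃ g ∈ EE G u d 0 ∪ EE G u d 1, G.Adj x g) →
        ∀ y ∈ EE G u d 0 ∪ EE G u d 1, G.Adj x y := by
      rintro x hx ⟨g, hg, hxg⟩ y hy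
      exact f1 x hx g hg hxg y hy
    have e3E : ∀ x ∈ EE G u d 3, (∃ g ∈ EE G u d 0 ∪ EE G u d 1, G.Adj x g) →
        ∀ y ∈ EE G u d 0 ∪ EE G u d 1, G.Adj x y := by
      rintro x hx ⟨g, hg, hxg⟩ y hy
      exact (f2 x hx g hg hxg).1 y hy
    rintro x hx y hy hxy
    rcases hx with ⟨hx, hx'⟩ | ⟨hx, hx'⟩ | hx <;> rcases hy with ⟨hy, hy'⟩ | ⟨hy, hy'⟩ | hy
    · obtain ⟨i, hi⟩ := hV2sub g hg
      exact hWF.v0C i g hi x hx y hy (yE x hx hx' g hg) (yE y hy hy' g hg) hxy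
    · exact y3 x hx hx' y hy hy'
    · exact yE x hx hx' y hy
    · exact (y3 y hy hy' x hx hx').symm
    · exact h3cl x (Or.inl hx) y (Or.inl hy) hxy
    · exact e3E x hx hx' y hy
    · exact (yE y hy hy' x hx).symm
    · exact (e3E y hy hy' x hx).symm
    · exact hEA x hx y hy hxy
  have hKK' : ∀ x ∈ K, x ∈ K' := by
    intro x hx
    by_cases hxg : x = g
    · subst hxg
      exact Or.inr (Or.inr hg)
    have hadj := (kadj g hgK x hx hxg).symm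
    rcases hKc x hx with h | h | h
    · exact Or.inl ⟨h, g, hg, hadj⟩
    · exact Or.inr (Or.inl ⟨h, g, hg, hadj⟩)
    · exact Or.inr (Or.inr h)
  have hK'K : ∀ x ∈ K', x ∈ K := by
    intro x hx
    by_contra hxK
    exact hM.max K hK x (fun y hy => hK'cl x hx y (hKK' y hy) (fun h => hxK (h ▸ hy)))
  obtain ⟨g0, hg0⟩ := hE0
  have hg0K : g0 ∈ K := hK'K g0 (Or.inr (Or.inr (Or.inl hg0)))
  apply hfree g0 hg0K
  have hsub : {x | G.Adj g0 x ∧ x ∉ K} ⊆ EE G u d 0 ∪ SS G u d 0 := by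
    rintro x ⟨hx, hxK⟩
    have c0 : x ∉ V0 G u d := fun h => hxK (hK'K x (Or.inl ⟨h, g0, Or.inl hg0, hx.symm⟩))
    have c3 : x ∉ EE G u d 3 := fun h =>
      hxK (hK'K x (Or.inr (Or.inl ⟨h, g0, Or.inl hg0, hx.symm⟩)))
    have ce0 : x ∉ EE G u d 0 := fun h => hxK (hK'K x (Or.inr (Or.inr (Or.inl h))))
    have ce1 : x ∉ EE G u d 1 := fun h => hxK (hK'K x (Or.inr (Or.inr (Or.inr h))))
    exact Or.inr (memS 0 x g0 (memT x c0 ce0 ce1 c3) hg0 hx.symm)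
  exact (hWF.sQ 0).mono hsub

end Pool.Agent.Helper2.SV
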