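import Pool.Agent.Helper2.SV.GoalsP
import Pool.Agent.Helper2.SV.WFC

set_option autoImplicit false

namespace Pool.Agent.Helper2.SV

theorem goalICO (hCOB : G_COB) (hICOA : G_ICOA) : G_ICO := by
  classical
  intro V _ G w u d hcf hM hW hWF hV0 hI
  obtain ⟨hVE, hV0cl, hV0E, hMn, -, hN⟩ := hICOA V G w u d hcf hM hW hWF hV0 hI
  have rimE : ∀ i v, v ∈ EE G u d i → ∀ j, G.Adj v (d j) ↔ (j = i ∨ j = i + 1) :=
    fun i v hv => hv.1.2
  have EM : ∀ i v, v ∈ EE G u d i → v ∈ Mn G u := fun i v hv => hv.1.1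
  obtain ⟨y0, hy0⟩ := hV0
  let D : Fin 5 → Set V := fun j => {x | x = d j ∨ (G.Adj u x ∧ (∀ k, x ≠ d k) ∧
    ∀ i, G.Adj x (d i) ↔ (i = j - 1 ∨ i = j ∨ i = j + 1))}
  let U5 : Set V := {x | G.Adj u x ∧ (∀ k, x ≠ d k) ∧ ∀ i, G.Adj x (d i)}
  have Du : ∀ j, ∀ x ∈ D j, G.Adj u x := by
    rintro j x (rfl | hx)
    exacts [hW.spoke j, hx.1]
  have Dm : ∀ j, ∀ x ∈ D j, G.Adj x (d (j - 1)) := by
    rintro j x (rfl | hx)
    exacts [hW.am j, (hx.2.2 _).2 (Or.inl rfl)]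
  have Dp : ∀ j, ∀ x ∈ D j, G.Adj x (d (j + 1)) := by
    rintro j x (rfl | hx)
    exacts [hW.rim j, (hx.2.2 _).2 (Or.inr (Or.inr rfl))]
  have Dn : ∀ j, ∀ x ∈ D j, ∀ i, (i = j + 2 ∨ i = j + 3) → x ≠ d i ∧ ¬ G.Adj x (d i) := by
    rintro j x (rfl | hx) i hi
    · rcases hi with rfl | rfl
      · exact ⟨hW.ne (by omega), hW.n2 j⟩
      · exact ⟨hW.ne (by omega), hW.n3 j⟩
    · refine ⟨hx.2.1 i, fun h => ?_⟩
      have := (hx.2.2 i).1 h
      omega
  -- (i)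
  have f1 : ∀ x i v, G.Adj u x → v ∈ EE G u d i → G.Adj x v →
      (x = d i ∨ G.Adj x (d i)) ∧ (x = d (i + 1) ∨ G.Adj x (d (i + 1))) := by
    intro x i v hux hv hxv
    have hyx : ¬ G.Adj y0 x := hWF.v0N y0 hy0 x hux
    have key : ∀ j, (j = i ∨ j = i + 1) → (x = d j ∨ G.Adj x (d j)) := by
      intro j hj
      by_cases hx : x = d j
      · exact Or.inl hx
      · right
        exact cf hcf (hV0E y0 hy0 i v hv).symm hxv.symm ((rimE i v hv j).2 hj)
          (fun h => hy0.1.2 (h ▸ hux)) (fun h => hy0.1.2 (h ▸ hW.spoke j)) hx hyx (hy0.2 j)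
    exact ⟨key i (Or.inl rfl), key (i + 1) (Or.inr rfl)⟩
  -- (ii)
  have f2 : ∀ z ∈ U5, ∀ i, ∀ v ∈ EE G u d i, ¬ G.Adj z v := by
    rintro z ⟨hz1, hz2, hz3⟩ i v hv hzv
    have h1 : ¬ G.Adj v (d (i + 4)) := fun h => by
      have := (rimE i v hv _).1 h
      omega
    have h2 : ¬ G.Adj v (d (i + 2)) := fun h => by
      have := (rimE i v hv _).1 h
      omega
    have := cf hcf hzv (hz3 (i + 4)) (hz3 (i + 2)) (hW.off (EM i v hv) _) (hW.off (EM i v hv) _)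
      (hW.ne (by omega)) h1 h2
    have h3 := hW.n2 (i + 2)
    rw [show i + 2 + 2 = i + 4 by omega] at h3
    exact h3 this.symm
  -- (iii)
  have f3a : ∀ j, ∀ x ∈ D j, ∀ v ∈ EE G u d j, G.Adj x v := by
    rintro j x hx v hv
    have hvx : v ≠ x := fun h => (EM j v hv).2 (h ▸ Du j x hx)
    rcases hx with rfl | hx'
    · exact ((rimE j v hv j).2 (Or.inl rfl)).symm
    · have h1 : G.Adj (d (j + 1)) (d (j + 2)) := by
        have := hW.rim (j + 1)
        rwa [show j + 1 + 1 = j + 2 by omega] at this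
      have h2 := Dn j x (Or.inr hx') (j + 2) (Or.inl rfl)
      exact cf hcf h1 ((hx'.2.2 _).2 (Or.inr (Or.inr rfl))).symm
        ((rimE j v hv (j + 1)).2 (Or.inr rfl)).symm h2.1.symm (hW.off (EM j v hv) _).symm hvx.symm
        (fun h => h2.2 h.symm) (fun h => by
          have := (rimE j v hv _).1 h.symm
          omega)
  have f3b : ∀ j, ∀ x ∈ D j, ∀ v ∈ EE G u d (j - 1), G.Adj x v := by
    rintro j x hx v hv
    have hvx : v ≠ x := fun h => (EM _ v hv).2 (h ▸ Du j x hx)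
    rcases hx with rfl | hx'
    · exact ((rimE _ v hv j).2 (Or.inr (by omega))).symm
    · have h1 : G.Adj (d (j - 1)) (d (j + 3)) := by
        have := hW.am (j - 1)
        rwa [show j - 1 - 1 = j + 3 by omega] at this
      have h2 := Dn j x (Or.inr hx') (j + 3) (Or.inr rfl)
      exact cf hcf h1 ((hx'.2.2 _).2 (Or.inl rfl)).symm
        ((rimE _ v hv (j - 1)).2 (Or.inl rfl)).symm h2.1.symm (hW.off (EM _ v hv) _).symm hvx.symm
        (fun h => h2.2 h.symm) (fun h => by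
          have := (rimE _ v hv _).1 h.symm
          omega)
  have f3c : ∀ j, ∀ x ∈ D j, ∀ i, ∀ v ∈ EE G u d i, G.Adj x v → i = j ∨ i = j - 1 := by
    intro j x hx i v hv hxv
    obtain ⟨h1, h2⟩ := f1 x i v (Du j x hx) hv hxv
    have key : ∀ k, (x = d k ∨ G.Adj x (d k)) → ¬ (k = j + 2 ∨ k = j + 3) := by
      intro k hk hk2
      have := Dn j x hx k hk2
      rcases hk with h | h
      exacts [this.1 h, this.2 h]
    have k1 := key _ h1
    have k2 := key _ h2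
    omega
  -- (iv)
  have f4a : ∀ z ∈ U5, ∀ z' ∈ U5, z ≠ z' → G.Adj z z' := by
    intro z hz z' hz' hzz
    obtain ⟨v, hv⟩ := hI 0
    exact cf hcf ((rimE 0 v hv 0).2 (Or.inl rfl)).symm (hz.2.2 0).symm (hz'.2.2 0).symm
      (fun h => (EM 0 v hv).2 (h ▸ hz.1)) (fun h => (EM 0 v hv).2 (h ▸ hz'.1)) hzz
      (fun h => f2 z hz 0 v hv h.symm) (fun h => f2 z' hz' 0 v hv h.symm)
  have f4b : ∀ z ∈ U5, ∀ j, ∀ x ∈ D j, G.Adj z x := by
    intro z hz j x hx
    rcases hx with rfl | hx'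
    · exact hz.2.2 j
    · obtain ⟨v, hv⟩ := hI (j + 1)
      have hzx : z ≠ x := by
        rintro rfl
        have := (hx'.2.2 (j + 2)).1 (hz.2.2 _)
        omega
      exact cf hcf ((rimE _ v hv (j + 1)).2 (Or.inl rfl)).symm (hz.2.2 _).symm
        ((hx'.2.2 _).2 (Or.inr (Or.inr rfl))).symm
        (fun h => (EM _ v hv).2 (h ▸ hz.1)) (fun h => (EM _ v hv).2 (h ▸ hx'.1)) hzx
        (fun h => f2 z hz _ v hv h.symm)
        (fun h => by
          have := f3c j x (Or.inr hx') _ v hv h.symm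
          omega)
  -- (v)
  have f5a : ∀ j, ∀ x ∈ D j, ∀ x' ∈ D j, x ≠ x' → G.Adj x x' := by
    intro j x hx x' hx' hxx
    have h := Dn j x hx (j + 2) (Or.inl rfl)
    have h' := Dn j x' hx' (j + 2) (Or.inl rfl)
    exact hWF.both x x' (j + 2) (Du j x hx) (Du j x' hx') hxx h.1 h'.1 h.2 h'.2
  have f5b : ∀ j, ∀ x ∈ D j, ∀ x' ∈ D (j + 1), G.Adj x x' := by
    intro j x hx x' hx'
    have h := Dn j x hx (j + 3) (Or.inr rfl)
    have h' := Dn (j + 1) x' hx' (j + 3) (Or.inl (by omega))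
    have hxx : x ≠ x' := by
      rintro rfl
      exact (Dn (j + 1) x hx' (j + 4) (Or.inr (by omega))).2
        (by have := Dm j x hx; rwa [show j - 1 = j + 4 by omega] at this)
    exact hWF.both x x' (j + 3) (Du j x hx) (Du _ x' hx') hxx h.1 h'.1 h.2 h'.2
  have f5c : ∀ j, ∀ x ∈ D j, ∀ x' ∈ D (j + 2), ¬ G.Adj x x' := by
    intro j x hx x' hx' hadj
    obtain ⟨v, hv⟩ := hI j
    have h' := Dn (j + 2) x' hx' (j - 1) (Or.inl (by omega))
    have := cf hcf (Dm j x hx) hadj (f3a j x hx v hv) h'.1.symm (hW.off (EM j v hv) _).symm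
      (fun h => (EM j v hv).2 (h ▸ Du _ x' hx')) (fun h => h'.2 h.symm)
      (fun h => by
        have := (rimE _ v hv _).1 h.symm
        omega)
    have := f3c (j + 2) x' hx' j v hv this
    omega
  -- V is the union
  have hcov : ∀ x, x = u ∨ x ∈ U5 ∨ (∃ j, x ∈ D j) ∨ x ∈ V0 G u d ∨ ∃ i, x ∈ EE G u d i := by
    intro x
    by_cases hxu : x = u
    · exact Or.inl hxu
    by_cases hux : G.Adj u x
    · by_cases hr : ∃ j, x = d j
      · obtain ⟨j, rfl⟩ := hr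
        exact Or.inr (Or.inr (Or.inl ⟨j, Or.inl rfl⟩))
      · push Not at hr
        rcases hN x hux hr with h | ⟨j, h⟩
        · exact Or.inr (Or.inl ⟨hux, hr, h⟩)
        · refine Or.inr (Or.inr (Or.inl ⟨j + 1, Or.inr ⟨hux, hr, fun i => ?_⟩⟩))
          rw [h i]
          omega
    · exact Or.inr (Or.inr (Or.inr (hMn x ⟨hxu, hux⟩)))
  -- the perfect set
  have hc1 : Clq G ({u} ∪ U5 ∪ D 0 ∪ D 1) := by
    rintro x (((rfl | hx) | hx) | hx) x' (((rfl | hx') | hx') | hx') hxx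
    · exact absurd rfl hxx
    · exact hx'.1
    · exact Du _ _ hx'
    · exact Du _ _ hx'
    · exact hx.1.symm
    · exact f4a x hx x' hx' hxx
    · exact f4b x hx _ x' hx'
    · exact f4b x hx _ x' hx'
    · exact (Du _ _ hx).symm
    · exact (f4b x' hx' _ x hx).symm
    · exact f5a _ x hx x' hx' hxx
    · exact f5b 0 x hx x' hx'
    · exact (Du _ _ hx).symm
    · exact (f4b x' hx' _ x hx).symm
    · exact (f5b 0 x' hx' x hx).symm
    · exact f5a _ x hx x' hx' hxx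
  have hc2 : Clq G (V0 G u d ∪ EE G u d 2 ∪ EE G u d 3) := by
    have hEE : ∀ x ∈ EE G u d 2 ∪ EE G u d 3, x ∈ Mn G u ∧ G.Adj x (d 3) := by
      rintro x (hx | hx)
      · exact ⟨EM _ x hx, (rimE _ x hx 3).2 (by decide)⟩
      · exact ⟨EM _ x hx, (rimE _ x hx 3).2 (by decide)⟩
    have hVEE : ∀ y ∈ V0 G u d, ∀ x ∈ EE G u d 2 ∪ EE G u d 3, G.Adj y x := by
      rintro y hy x (hx | hx)
      exacts [hV0E y hy _ x hx, hV0E y hy _ x hx]
    rw [Set.union_assoc]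
    rintro x (hx | hx) x' (hx' | hx') hxx
    · exact hV0cl x hx x' hx' hxx
    · exact hVEE x hx x' hx'
    · exact (hVEE x' hx' x hx).symm
    · exact hWF.common x x' 3 (hEE x hx).1 (hEE x' hx').1 hxx (hEE x hx).2 (hEE x' hx').2
  have hperf := hCOB V G _ _ hc1 hc2
  obtain ⟨K, hK, hmiss, -⟩ := hM.free _ hperf
  have hcase : ∀ x ∈ K, (∃ j, (j = 2 ∨ j = 3 ∨ j = 4) ∧ x ∈ D j) ∨
      (∃ l, (l = 0 ∨ l = 1 ∨ l = 4) ∧ x ∈ EE G u d l) := by
    intro x hx
    have hm := hmiss x hx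
    rcases hcov x with h | h | ⟨j, h⟩ | h | ⟨l, h⟩
    · exact absurd (Or.inl (Or.inl (Or.inl (Or.inl h)))) hm
    · exact absurd (Or.inl (Or.inl (Or.inl (Or.inr h)))) hm
    · left
      refine ⟨j, ?_, h⟩
      by_contra hj
      have : j = 0 ∨ j = 1 := by omega
      rcases this with rfl | rfl
      · exact hm (Or.inl (Or.inl (Or.inr h)))
      · exact hm (Or.inl (Or.inr h))
    · exact absurd (Or.inr (Or.inl (Or.inl h))) hm
    · right
      refine ⟨l, ?_, h⟩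
      by_contra hl
      have : l = 2 ∨ l = 3 := by omega
      rcases this with rfl | rfl
      · exact hm (Or.inr (Or.inl (Or.inr h)))
      · exact hm (Or.inr (Or.inr h))
  obtain ⟨x, hxK, j, hj, hx⟩ : ∃ x ∈ K, ∃ j, (j = 2 ∨ j = 3 ∨ j = 4) ∧ x ∈ D j := by
    by_contra hcon
    apply hM.max K hK y0
    intro x hx
    rcases hcase x hx with h | ⟨l, -, h⟩
    · exact absurd ⟨x, hx, h⟩ hcon
    · exact hV0E y0 hy0 l x h
  obtain ⟨v, hvK, l, hl, hv⟩ : ∃ v ∈ K, ∃ l, (l = 0 ∨ l = 1 ∨ l = 4) ∧ v ∈ EE G u d l := by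
    by_contra hcon
    apply hM.max K hK u
    intro x hx
    rcases hcase x hx with ⟨j, -, h⟩ | h
    · exact Du j x h
    · exact absurd ⟨x, hx, h⟩ hcon
  have DE : ∀ j, ∀ x ∈ D j, ∀ l, ∀ v ∈ EE G u d l, x ≠ v := by
    intro j x hx l v hv h
    exact (EM l v hv).2 (h ▸ Du j x hx)
  have DEK : ∀ j, ∀ x ∈ D j, x ∈ K → ∀ l, ∀ v ∈ EE G u d l, v ∈ K → l = j ∨ l = j - 1 := by
    intro j x hx hxK l v hv hvK
    exact f3c j x hx l v hv (hK.2.1 x hxK v hvK (DE j x hx l v hv))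
  have DDK : ∀ x ∈ D 2, x ∈ K → ∀ x' ∈ D 4, x' ∈ K → False := by
    intro x hx hxK x' hx' hx'K
    by_cases hxx : x = x'
    · subst hxx
      exact (Dn 4 x hx' 1 (by decide)).2 (by have := Dm 2 x hx; exact this)
    · exact f5c 2 x hx x' hx' (hK.2.1 x hxK x' hx'K hxx)
  have hjl := DEK j x hx hxK l v hv hvK
  have h24 : (j = 2 ∧ l = 1) ∨ (j = 4 ∧ l = 4) := by omega
  rcases h24 with ⟨rfl, rfl⟩ | ⟨rfl, rfl⟩
  · apply hM.max K hK (d 1)
    intro z hz
    rcases hcase z hz with ⟨i, hi, h⟩ | ⟨i, hi, h⟩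
    · have := DEK i z h hz 1 v hv hvK
      have hi2 : i = 2 := by omega
      subst hi2
      exact (Dm 2 z h).symm
    · have := DEK 2 x hx hxK i z h hz
      have hi1 : i = 1 := by omega
      subst hi1
      exact ((rimE 1 z h 1).2 (Or.inl rfl)).symm
  · apply hM.max K hK (d 0)
    intro z hz
    rcases hcase z hz with ⟨i, hi, h⟩ | ⟨i, hi, h⟩
    · have := DEK i z h hz 4 v hv hvK
      have hi2 : i = 4 := by omega
      subst hi2
      exact (Dp 4 z h).symm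
    · have := DEK 4 x hx hxK i z h hz
      have hi1 : i = 4 := by omega
      subst hi1
      exact ((rimE 4 z h 0).2 (by decide)).symm

end Pool.Agent.Helper2.SV
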