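import Pool.Agent.Helper2.SV.GoalsP
import Pool.Agent.Helper2.SV.WFC

set_option autoImplicit false

namespace Pool.Agent.Helper2.SV

theorem goalJOIN (hGLUE : G_GLUE) : G_JOIN := by
  classical
  intro V _ G w hM hcf V1 A1 A2 hne huniv hA1 hA2 hcl hcross
  obtain ⟨glue, clqp, -⟩ := hGLUE
  have hV2 : (V1ᶜ : Set V) ≠ Set.univ := by
    intro h
    obtain ⟨x, hx⟩ := hne
    have : x ∈ (V1ᶜ : Set V) := h ▸ Set.mem_univ x
    exact this hx
  obtain ⟨B1, hB1, hP1, hT1⟩ := hM.ih V1 huniv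
  obtain ⟨B2, hB2, hP2, hT2⟩ := hM.ih V1ᶜ hV2
  have hnB2 : ∀ x ∈ B2, x ∉ V1 := fun x hx => hB2 hx
  have hC : Clq G ((A1 ∩ B1) ∪ (A2 ∩ B2)) := hcl.mono
    (Set.union_subset_union Set.inter_subset_left Set.inter_subset_left)
  have hG1 : Perf G (B1 ∪ ((A1 ∩ B1) ∪ (A2 ∩ B2))) := by
    apply glue V G _ _ hP1 (clqp V G _ hC) (hC.mono Set.inter_subset_right)
    rintro x hx hx2 y (hy | hy) hy2 hadj
    · exact hy2 hy.2
    · have := hcross x (hB1 hx) y (hnB2 y hy.2) hadj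
      exact hx2 (Or.inl ⟨this.1, hx⟩)
  have hG2 : Perf G ((B1 ∪ ((A1 ∩ B1) ∪ (A2 ∩ B2))) ∪ B2) := by
    apply glue V G _ _ hG1 hP2
    · apply hC.mono
      rintro x ⟨hx | hx | hx, hx2⟩
      · exact absurd (hB1 hx) (hnB2 x hx2)
      · exact Or.inl hx
      · exact Or.inr hx
    · rintro x hx hx2 y hy hy2 hadj
      rcases hx with hx | hx | hx
      · have := hcross x (hB1 hx) y (hnB2 y hy) hadj
        exact hy2 (Or.inr (Or.inr ⟨this.2, hy⟩))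
      · have := hcross x (hA1 hx.1) y (hnB2 y hy) hadj
        exact hy2 (Or.inr (Or.inr ⟨this.2, hy⟩))
      · exact hx2 hx.2
  obtain ⟨K, hK, hmiss, hfree⟩ := hM.free _ hG2
  have hm1 : ∀ x ∈ K, x ∉ B1 := fun x hx h => hmiss x hx (Or.inl (Or.inl h))
  have hm2 : ∀ x ∈ K, x ∉ B2 := fun x hx h => hmiss x hx (Or.inr h)
  have hex1 : ∃ a2 ∈ K, a2 ∉ V1 := by
    by_contra hcon
    push Not at hcon
    obtain ⟨x, hx, hxB⟩ := hT1 K hK (fun x hx => hcon x hx)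
    exact hm1 x hx hxB
  have hex2 : ∃ v ∈ K, v ∈ V1 := by
    by_contra hcon
    push Not at hcon
    obtain ⟨x, hx, hxB⟩ := hT2 K hK (fun x hx => hcon x hx)
    exact hm2 x hx hxB
  obtain ⟨a2, ha2, ha2V⟩ := hex1
  obtain ⟨v, hv, hvV⟩ := hex2
  have hKA : ∀ x ∈ K, x ∈ A1 ∪ A2 := by
    intro x hx
    by_cases h : x ∈ V1
    · have hne : x ≠ a2 := fun h' => ha2V (h' ▸ h)
      exact Or.inl (hcross x h a2 ha2V (hK.2.1 x hx a2 ha2 hne)).1
    · have hne : v ≠ x := fun h' => h (h' ▸ hvV)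
      exact Or.inr (hcross v hvV x h (hK.2.1 v hv x hx hne)).2
  have hAK : ∀ x ∈ A1 ∪ A2, x ∈ K := by
    intro x hx
    by_contra hxK
    exact hM.max K hK x (fun y hy => hcl x hx y (hKA y hy) (fun h => hxK (h ▸ hy)))
  have hva2 : G.Adj v a2 := hK.2.1 v hv a2 ha2 (fun h => ha2V (h ▸ hvV))
  apply hfree v hv
  have key : ∀ a, G.Adj v a → a ∉ K → a ∈ V1 ∧ ¬ G.Adj a2 a := by
    intro a hva haK
    have haV : a ∈ V1 := by
      by_contra h
      exact haK (hAK a (Or.inr (hcross v hvV a h hva).2))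
    exact ⟨haV, fun h => haK (hAK a (Or.inl (hcross a haV a2 ha2V h.symm).1))⟩
  intro a ha b hb hab
  obtain ⟨ha1, ha3⟩ := key a ha.1 ha.2
  obtain ⟨hb1, hb3⟩ := key b hb.1 hb.2
  exact cf hcf hva2 ha.1 hb.1 (fun h => ha2V (h ▸ ha1)) (fun h => ha2V (h ▸ hb1)) hab ha3 hb3

end Pool.Agent.Helper2.SV
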