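import Pool.Agent.Helper2.SV.S2

set_option autoImplicit false

namespace Pool.Agent.Helper2.SV

theorem goalS7B (hMI : G_MI) (hS2 : G_S2) : G_S7B := by
  intro V _ G Q hF hconn hQ hXp v a b c hv ha hb hc va vb vc ab ac bc
  by_contra hcon
  push Not at hcon
  obtain ⟨nab, nac, nbc⟩ := hcon
  obtain ⟨-, hsimp, -, -, -⟩ := hMI.2 V G Q hQ
  obtain ⟨q0, hq0⟩ : Q.Nonempty := by
    rw [Set.nonempty_iff_ne_empty]
    rintro rfl
    exact hQ.1 (fun X hX n _ => ⟨fun _ => 0, fun x hx => absurd (hX hx) (by simp),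
      fun x hx => absurd (hX hx) (by simp)⟩)
  let L : Set V := {v, a, b, c}
  have hLY : ∀ x ∈ L, x ∈ Ys G Q := by
    rintro x (rfl | rfl | rfl | rfl) <;> assumption
  let F : Set V := {x | x ∉ L ∧ ∀ l ∈ L, ¬ G.Adj x l}
  have hQF : Q ⊆ F := by
    intro q hq
    exact ⟨fun h => (hLY q h).1 hq, fun l hl h => (hLY l hl).2 q hq h.symm⟩
  let R : V → V → Prop := fun x y => G.Adj x y ∧ y ∈ F
  let D : Set V := {x | Relation.ReflTransGen R q0 x}
  have hDF : ∀ x ∈ D, x ∈ F := by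
    intro x hx
    induction hx with
    | refl => exact hQF hq0
    | tail _ h _ => exact h.2
  have hDstep : ∀ x ∈ D, ∀ y, G.Adj x y → y ∈ F → y ∈ D := by
    intro x hx y hxy hy
    exact Relation.ReflTransGen.tail hx ⟨hxy, hy⟩
  have hvL : v ∈ L := Or.inl rfl
  have haL : a ∈ L := Or.inr (Or.inl rfl)
  have hbL : b ∈ L := Or.inr (Or.inr (Or.inl rfl))
  have hcL : c ∈ L := Or.inr (Or.inr (Or.inr rfl))
  have hvD : v ∉ D := fun h => (hDF v h).1 hvL
  obtain ⟨x, hx, p, hp, hxp⟩ := hconn D ⟨q0, Relation.ReflTransGen.refl⟩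
    (fun h => hvD (h ▸ Set.mem_univ v))
  have hpF : p ∉ F := fun h => hp (hDstep x hx p hxp h)
  have hpL : p ∉ L := fun h => (hDF x hx).2 p h hxp
  obtain ⟨l, hl, hpl⟩ : ∃ l ∈ L, G.Adj p l := by
    by_contra h
    push Not at h
    exact hpF ⟨hpL, h⟩
  obtain ⟨p2, hp2, hpp2, p3, hp3, h23, hn3⟩ : ∃ p2 ∈ D, G.Adj p p2 ∧ ∃ p3 ∈ D, G.Adj p2 p3 ∧
      ¬ G.Adj p p3 := by
    by_contra hcon
    push Not at hcon
    -- p is complete to D
    have key : ∀ y, Relation.ReflTransGen R q0 y → (G.Adj p y → G.Adj p q0) := by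
      intro y hy
      induction hy with
      | refl => exact id
      | @tail b' c' h1 h2 ih =>
        intro h
        apply ih
        exact hcon c' (Relation.ReflTransGen.tail h1 h2) h b' h1 h2.1.symm
    have hpq0 : G.Adj p q0 := key x hx hxp.symm
    have hpQ : p ∉ Q := fun h => hpF (hQF h)
    have hpX : p ∉ Xs G Q := by
      intro h
      have : p ∈ Xp G Q := ⟨h, l, hLY l hl, hpl⟩
      rw [hXp] at this
      exact this
    have hpZ : p ∈ Zs G Q := by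
      refine ⟨hpQ, ⟨q0, hq0, hpq0⟩, ?_⟩
      by_contra h
      push Not at h
      exact hpX ⟨hpQ, h⟩
    have hcl := (hS2 V G Q hF hQ l (hLY l hl) p hpZ hpl.symm).1
    apply hsimp q0 hq0
    apply hcl.mono
    rintro q ⟨hq, hq0q⟩
    exact ⟨hq, hcon q0 Relation.ReflTransGen.refl hpq0 q (hDstep q0 Relation.ReflTransGen.refl q
      hq0q (hQF hq)) hq0q⟩
  have e2 := hDF p2 hp2
  have e3 := hDF p3 hp3
  have ne2 : ∀ l ∈ L, l ≠ p2 := fun l hl h => e2.1 (h ▸ hl)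
  have ne3 : ∀ l ∈ L, l ≠ p3 := fun l hl h => e3.1 (h ▸ hl)
  have nep : ∀ l ∈ L, l ≠ p := fun l hl h => hpL (h ▸ hl)
  have n2 : ∀ l ∈ L, ¬ G.Adj l p2 := fun l hl h => e2.2 l hl h.symm
  have n3 : ∀ l ∈ L, ¬ G.Adj l p3 := fun l hl h => e3.2 l hl h.symm
  have hp3p : p3 ≠ p := fun h => hp (h ▸ hp3)
  have two : ∀ x ∈ L, ∀ y ∈ L, x ≠ y → ¬ G.Adj x y → G.Adj p x → G.Adj p y → False := by
    intro x hx y hy hxy hn h1 h2
    exact ff hF h1 h2 hpp2 h23 hxy (ne2 x hx) (ne2 y hy) hp3p hn (n2 x hx) (n2 y hy) hn3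
      (n3 x hx) (n3 y hy)
  -- v adjacent
  have hv' : ∀ x ∈ L, ∀ y ∈ L, G.Adj v x → G.Adj v y → x ≠ y → ¬ G.Adj x y → G.Adj p v →
      ¬ G.Adj p x → ¬ G.Adj p y → False := by
    intro x hx y hy h1 h2 hxy hn hpv hpx hpy
    exact ff hF h1 h2 hpv.symm hpp2 hxy (nep x hx) (nep y hy) (ne2 v hvL).symm hn
      (fun h => hpx h.symm) (fun h => hpy h.symm) (n2 v hvL) (n2 x hx) (n2 y hy)
  have hone : ∀ x ∈ L, ∀ y ∈ L, ∀ z ∈ L, G.Adj v x → G.Adj v y → G.Adj v z → x ≠ y → x ≠ z →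
      y ≠ z → ¬ G.Adj x y → ¬ G.Adj x z → ¬ G.Adj y z → ¬ G.Adj p v → ¬ G.Adj p x →
      ¬ G.Adj p y → G.Adj p z → False := by
    intro x hx y hy z hz h1 h2 h3 hxy hxz hyz m1 m2 m3 hpv hpx hpy hpz
    exact ff hF h1 h2 h3 hpz.symm hxy hxz hyz (nep v hvL).symm m1 m2 m3
      (fun h => hpv h.symm) (fun h => hpx h.symm) (fun h => hpy h.symm)
  have nba : ¬ G.Adj b a := fun h => nab h.symm
  have nca : ¬ G.Adj c a := fun h => nac h.symm
  have ncb : ¬ G.Adj c b := fun h => nbc h.symm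
  by_cases pa : G.Adj p a
  · have pb : ¬ G.Adj p b := fun h => two a haL b hbL ab nab pa h
    have pc : ¬ G.Adj p c := fun h => two a haL c hcL ac nac pa h
    by_cases pv : G.Adj p v
    · exact hv' b hbL c hcL vb vc bc nbc pv pb pc
    · exact hone b hbL c hcL a haL vb vc va bc ab.symm ac.symm nbc nba nca pv pb pc pa
  by_cases pb : G.Adj p b
  · have pc : ¬ G.Adj p c := fun h => two b hbL c hcL bc nbc pb h
    by_cases pv : G.Adj p v
    · exact hv' a haL c hcL va vc ac nac pv pa pc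
    · exact hone a haL c hcL b hbL va vc vb ac ab bc.symm nac nab ncb pv pa pc pb
  by_cases pv : G.Adj p v
  · exact hv' a haL b hbL va vb ab nab pv pa pb
  by_cases pc : G.Adj p c
  · exact hone a haL b hbL c hcL va vb vc ab ac bc nab nac nbc pv pa pb pc
  rcases hl with rfl | rfl | rfl | rfl
  exacts [pv hpl, pa hpl, pb hpl, pc hpl]

end Pool.Agent.Helper2.SV
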