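import Pool.Agent.Helper2.SV.Defs

/-!
# Project SV, goals C: Theorem A (there is no minimal claw-free counterexample)

Notation: `~` adjacent, `≁` not adjacent; `M(v)` is `Mn G v`; `{v; a, b, c}` is a claw with
centre `v` (`v ~ a, b, c`, pairwise non-adjacent `a, b, c`): in a claw-free graph, if
`v ~ a, b, c` and `a ≁ b`, `a ≁ c` then `b ~ c`.  We say `apply {v; a, b, c}`.
A tight clique is a `TC`.
-/

set_option autoImplicit false

namespace Pool.Agent.Helper2.SV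

/-- ODDC (1.5 h).  A set which is not covered by two cliques contains an induced odd cycle of the
complement (length 3 = stable set of size 3).

PROOF.  Let `H` be the graph on `X` (subtype or a relation on `V`) with `x, y` adjacent iff
`x ≠ y` and `x ≁ y` in `G`.  `H` is not 2-colourable: the colour classes would be two cliques of
`G` covering `X`.  Hence `H` has a closed walk of odd length
(`SimpleGraph.two_colorable_iff_forall_loop_even` or similar).  Take one of minimal length `n`, as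
a map `c` from `{0, …, n}` with `c n = c 0`, consecutive vertices `H`-adjacent; `n ≥ 3` (`n = 1`
is impossible: `H` has no loops).  `c` is injective on `{0, …, n-1}`: if `c i = c j`, `i < j < n`,
the walk splits into closed walks of lengths `j - i` and `n - (j - i)`, both shorter and
positive, one of them odd.  No chords: if `c i`, `c j` are `H`-adjacent with `i < j < n` and
`2 ≤ j - i ≤ n - 2`, there are closed walks of lengths `(j - i) + 1` and `n - (j - i) + 1`, both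
`< n`, with odd sum `n + 2`, so one of them is odd.  Read the indices modulo `n`. -/
def G_ODDC : Prop :=
  ∀ (V : Type) [Finite V] (G : SimpleGraph V) (X : Set V),
    (∀ C1 C2 : Set V, Clq G C1 → Clq G C2 → ¬ X ⊆ C1 ∪ C2) →
    ∃ n : ℕ, 3 ≤ n ∧ Odd n ∧ ∃ c : ZMod n → V, (∀ i, c i ∈ X) ∧ IsAC G n c

/-- AH (1.5 h).  Antiholes of length at least 7 in a connected claw-free graph.

PROOF.  Let `Q` be the image of `q`.  For `p ∉ Q` let `T(p) = {i : p ~ q i}`.
(1) If `T = T(p) ≠ ∅`, then for every `j`: `j ∈ T` or `j + 1 ∈ T`.  Suppose `j, j + 1 ∉ T`.  Every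
`i ∈ T` is in `{j - 1, j + 2}`: otherwise `i ≠ j - 1, j, j + 1, j + 2`, so `q i ~ q j` and
`q i ~ q (j + 1)`, and `{q i; p, q j, q (j + 1)}` is a claw.  So `T ⊆ {j - 1, j + 2}`.  As `n ≥ 7`,
`j + 3, j + 4 ∉ T`, so (the same with `j + 3`) `T ⊆ {j + 2, j + 5}`; and `j + 4, j + 5 ∉ T`, so
`T ⊆ {j + 3, j + 6}`.  As `n ≥ 7` these three sets have no common element: an element `i` is
`j - 1` or `j + 2`, but `j + 2 ∉ {j + 3, j + 6}` and `j - 1 ∉ {j + 2, j + 5}` (as `n ≥ 7`,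
`3` and `6` are not `0` modulo `n`).  So `T = ∅`, contradiction.
(2) If `T(p) ≠ ∅` there is `j` with `j, j + 1 ∈ T(p)`: otherwise by (1) `i ∈ T ↔ i + 1 ∉ T` for
all `i`, so `i ∈ T ↔ i + n ∉ T` as `n` is odd, but `i + n = i`.
(3) First claim.  Let `W` be the set of the vertices outside `Q` with no neighbour in `Q`, and
suppose that it is not empty.  It is not `V`.  By `Conn` there are `z ∈ W`, `p ∉ W`, `z ~ p`.  As
`z` has no neighbour in `Q`, `p ∉ Q`, so `T(p) ≠ ∅`; take `j` from (2): `{p; q j, q (j + 1), z}` is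
a claw.
(4) Second claim.  Let `u` be adjacent to all `q i`, and let `v, v' ∈ M(u)` be different and not
adjacent.  They are not in `Q`.  By (3) `T(v)`, `T(v')` are not empty.  `T(v) ∩ T(v') = ∅`:
otherwise `{q i; u, v, v'}` is a claw.  By (1) for both, for every `j` exactly one of `j`, `j + 1`
is in `T(v)` (one of them is in `T(v)`, one is in `T(v')`).  So `i ∈ T(v) ↔ i + 1 ∉ T(v)`, which is
impossible for odd `n` as in (2). -/
def G_AH : Prop :=
  ∀ (V : Type) [Finite V] (G : SimpleGraph V), ClawFree G → Conn G →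
    ∀ n : ℕ, 7 ≤ n → Odd n → ∀ q : ZMod n → V, IsAC G n q →
      (∀ p, (∀ i, p ≠ q i) → ∃ i, G.Adj p (q i)) ∧
      ∀ u, (∀ i, G.Adj u (q i)) → Clq G (Mn G u)

/-- JOIN (1 h; may assume GLUE from GoalsP).  A minimal claw-free counterexample has no 1-join.
The statement of `goalJOIN` should import GoalsP for the hypothesis `G_GLUE`.

PROOF.  Let `V2` be the complement of `V1`.  By `MF0.ih` there are perfect `B1 ⊆ V1`, `B2 ⊆ V2`
meeting all tight cliques inside `V1`, respectively inside `V2`.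
`B = B1 ∪ B2` is perfect: glue `B1` and the clique `(A1 ∩ B1) ∪ (A2 ∩ B2)` along `A1 ∩ B1`, then
glue the result `B1 ∪ (A2 ∩ B2)` and `B2` along `A2 ∩ B2`; there are no other edges between `B1`
and `B2`.  By `MF0.free` there is a tight `K` missed by `B` without free vertex.  `K` is not inside
`V1` and not inside `V2`; so it has vertices in both, all crossing pairs of `K` are edges, so
`K ⊆ A1 ∪ A2`; by maximality (`MF0.max`, a vertex of `A1 ∪ A2` outside `K` would be adjacent to all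
of `K`) `K = A1 ∪ A2`.  Let `v ∈ K ∩ V1` and `a2 ∈ K ∩ V2`; `v ∈ A1`, `a2 ∈ A2`.  We show that
`N(v) \ K` is a clique (contradiction): its vertices `a, b` are not in `V2` (a neighbour of `v` in
`V2` is in `A2 ⊆ K`), so they are in `V1 \ A1`, not adjacent to `a2`; apply `{v; a2, a, b}`. -/
def G_JOIN : Prop :=
  ∀ (V : Type) [Finite V] (G : SimpleGraph V) (w : V → ℕ), MF0 G w → ClawFree G → NoJoin G

/-- LQ (2 h; taken by helper2).  The lemma on the exchange.  `H` is the non-adjacency relation.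

PROOF.  For `e ∈ E` let `n(e) = {k ∈ K : H e k}`; `∅ ≠ n(e) ≠ K`.  An edge is an `H`-edge inside
`E`.  An edge `fg` is close if some `k ∈ K` is outside `n(f) ∪ n(g)`; then `n(f) ∩ n(g) = ∅`
(an `l` in the intersection gives a triangle `f, g, l` not adjacent to `k`, against (T)).  It is
far if `n(f) ∩ n(g) ≠ ∅`; then `n(f) ∪ n(g) = K`.
(5c) If `uv` is an edge, `x ∈ E`, `z ∈ K`, `z ∉ n(u), n(v), n(x)` then `n(u) ∩ n(x) = ∅` or
`n(v) ∩ n(x) = ∅`.  [`uv` is close.  If `k1 ∈ n(u) ∩ n(x)`, `k2 ∈ n(v) ∩ n(x)` then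
`x, k1, u, v, k2` is a closed 5-walk with no vertex adjacent to `z`, against (C).]
(d) If `eh` is far there is an endpoint `a` of a close edge with `n(a) ⊊ n(e)`.  [Let `z ∉ n(h)`,
so `z ∈ n(e)`.  By (3) there is a close edge `ab` with `z ∉ n(a) ∪ n(b)`.  By (5c) for `ab`, `h`,
`z`, say `n(a) ∩ n(h) = ∅`, so `n(a) ⊆ K \ n(h) ⊆ n(e)`, and `z ∈ n(e) \ n(a)`.]
Let `f` be an endpoint of a close edge with `|n(f)|` minimal.  By (d) `f` is in no far edge.  Let
`k ∈ n(f)`; we claim that `k` is good.  Suppose `H e h` with `e, h ∈ E`, `k ∈ n(e) ∩ n(h)`.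
* `eh` is far, `n(e) ∪ n(h) = K`.  `f ≠ e, h` and `f` is not `H`-adjacent to `e`, `h` (such an edge
  would be far because of `k`).
* Each `y ∈ K \ n(f)` is in exactly one of `n(e)`, `n(h)` (otherwise the triangle `e, h, y` is not
  adjacent to `f`).
* Let `g` be a partner of `f` in a close edge and `j ∉ n(f) ∪ n(g)`; by symmetry let
  `j ∈ n(e) \ n(h)`.  (5c) for `fg`, `h`, `j`: as `k ∈ n(f) ∩ n(h)`, `n(g) ∩ n(h) = ∅`, so
  `n(g) ⊆ n(e)`.
* Claim: some `w ∈ K` is outside `n(f) ∪ n(e)`.  Suppose not.  Then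
  `K \ n(f) ⊆ n(e) \ n(h)`.  By (3) there is a close edge `pq` with `k ∉ n(p) ∪ n(q)`.  As `|n(f)|`
  is minimal and `k ∈ n(f)`, there are `yp ∈ n(p) \ n(f)` and `yq ∈ n(q) \ n(f)`; both are in
  `n(e) \ n(h)`.  `p, q ≠ e, f, h` because of `k`.  The closed 5-walk `yp, p, q, yq, e` must have
  a vertex adjacent to `f`, which is `p` or `q`.
  Let `f` be adjacent to `q` (the other case is symmetric).  `fq` is close by `yp`
  (`n(p) ∩ n(q) = ∅`).  (5c) for `fq`, `h`, `yp`: `n(q) ∩ n(h) = ∅`, so `n(q) ⊆ n(e)`.  Let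
  `z ∉ n(e)`; then `z ∈ n(h)`, `z ∉ n(q)`.  (5c) for `pq`, `e`, `z` shows `z ∈ n(p)` (`yp`, `yq`
  are in `n(e)`).  The triangle `e, h, k` and `p`: `p` is adjacent to `e` or to `h` (`k ∉ n(p)`).
  If `p` is adjacent to `h`: `z ∈ n(p) ∩ n(h)`, so `n(p) ∪ n(h) = K`, but `n(q)` is disjoint from
  both, contradiction.  So `p` is adjacent to `e`; the triangle `p, e, yp` and `f`: `f` is
  adjacent to `p`.  `fp` is close by `yq`.  (5c) for `fp`, `h`, `yq`: `n(f) ∩ n(h) = ∅` (no, `k`)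
  or `n(p) ∩ n(h) = ∅` (no, `z`).
* Then `w ∈ n(h)`, `w ∉ n(g)` (`n(g) ⊆ n(e)`); (5c) for `fg`, `e`, `w`: `n(g) ∩ n(e) = ∅` (as
  `k ∈ n(f) ∩ n(e)`), so `n(g) = ∅`, contradiction. -/
def G_LQ : Prop :=
  ∀ (V : Type) [Finite V] (H : V → V → Prop), (∀ x y, H x y → H y x) → (∀ x, ¬ H x x) →
    ∀ K E : Set V, K.Nonempty → (∀ x ∈ K, ∀ y ∈ K, ¬ H x y) → (∀ e ∈ E, e ∉ K) →
    (∀ e ∈ E, (∃ k ∈ K, H e k) ∧ ∃ k ∈ K, ¬ H e k) →
    (∀ a ∈ K ∪ E, ∀ b ∈ K ∪ E, ∀ c ∈ K ∪ E, ∀ v ∈ K ∪ E, H a b → H b c → H a c →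
      v ≠ a → v ≠ b → v ≠ c → H v a ∨ H v b ∨ H v c) →
    (∀ a ∈ K ∪ E, ∀ b ∈ K ∪ E, ∀ c ∈ K ∪ E, ∀ d ∈ K ∪ E, ∀ e ∈ K ∪ E, ∀ v ∈ K ∪ E,
      H a b → H b c → H c d → H d e → H e a →
      v ≠ a → v ≠ b → v ≠ c → v ≠ d → v ≠ e → H v a ∨ H v b ∨ H v c ∨ H v d ∨ H v e) →
    (∀ k ∈ K, ∃ f ∈ E, ∃ g ∈ E, H f g ∧ ¬ H f k ∧ ¬ H g k) →
    ∃ k ∈ K, ∀ e ∈ E, ∀ h ∈ E, H e h → H e k → ¬ H h k

/-- EXCH (1.5 h; may assume GLUE, COB, LQ).  The exchange theorem for graphs in which every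
neighbourhood is covered by two cliques (import GoalsP for GLUE and COB).

PROOF.  Let `B` be a perfect set of maximum weight `w(B)`, and suppose that it misses a tight
clique `K`.  `B ∩ K = ∅`.  Let `E` be the set of the vertices of `B` with a neighbour in `K`.
Let `H x y` mean `x ≠ y` and `x ≁ y`.  We check the hypotheses of LQ.  Each `e ∈ E` has a neighbour
in `K` and a non-neighbour in `K` (otherwise `K ∪ {e}` is a clique of larger weight).  (T): if
`a, b, c` are pairwise `H`-adjacent and `v ≠ a, b, c` is `H`-adjacent to none of them, then `a, b, c`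
are in `N(v)`, which is covered by two cliques: two of them are in the same clique, contradiction.
(C): similarly five vertices `a, b, c, d, e` of `N(v)` which are cyclically non-adjacent: neighbours
in the cycle are in different cliques, impossible for an odd cycle.  (3): let `k ∈ K`.  If the
neighbours of `k` in `B` form a clique, `B ∪ {k}` is perfect (GLUE (3)) and has larger weight;
so there are non-adjacent `f ≠ g` in `B ∩ N(k)`, which are in `E`.
By LQ there is `k ∈ K` such that `E \ N(k)` is a clique.  Let `B' = (B \ N(k)) ∪ K`.  `B'` is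
perfect: `K ∪ (E \ N(k))` is a union of two cliques, perfect by COB; glue it with `B \ N(k)` along
the clique `E \ N(k)` (GLUE (1); the vertices of `B` adjacent to something in `K` are in `E`).
So `w(B') ≤ w(B)`, i.e. `w(K) ≤ w(B ∩ N(k))`.  Let `N(k) ⊆ C1 ∪ C2` with cliques `C1`, `C2`; put
`D1 = N(k) ∩ C1 ∩ (B ∪ K)`, `D2 = N(k) ∩ C2 ∩ (B ∪ K)`.  `D_i ∪ {k}` is a clique, so
`w(D_i) ≤ w(K) - w(k)`.  So
`w(B ∩ N(k)) + w(K \ {k}) = w(N(k) ∩ (B ∪ K)) ≤ w(D1) + w(D2) ≤ 2 (w(K) - w(k))`, hence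
`w(B ∩ N(k)) ≤ w(K) - w(k) < w(K)`, contradiction. -/
def G_EXCH : Prop :=
  ∀ (V : Type) [Finite V] (G : SimpleGraph V) (w : V → ℕ), (∀ v, 0 < w v) →
    (∀ v, ∃ C1 C2 : Set V, Clq G C1 ∧ Clq G C2 ∧ {x | G.Adj v x} ⊆ C1 ∪ C2) →
    ∃ A : Set V, Perf G A ∧ ∀ K : Finset V, TC G w K → ∃ x ∈ K, x ∈ A

/-- MFC (0.8 h; may assume GLUE, COB, MC0 (GoalsP), ODDC, AH, JOIN).  Minimal claw-free
counterexamples satisfy `MF`.

PROOF.  MC0 and JOIN give all but `odd`.  (odd) Let `u` be a vertex.  `M(u)` is not perfect, so by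
COB (and monotonicity) it is not covered by two cliques, and ODDC gives an odd `n ≥ 3` and
`c : ZMod n → V` with values in `M(u)`.  If `n ≥ 7`, AH says that `u` (which is not one of the
`c i`) has a neighbour among them, contradiction.  `n = 3`: `c 0`, `c 1`, `c 2` are pairwise
non-adjacent.  `n = 5` (`ZMod 5` is `Fin 5`): `c i ≁ c (i + 1)` and `c i ~ c (i + 2)`. -/
def G_MFC : Prop :=
  ∀ (V : Type) [Finite V] (G : SimpleGraph V) (w : V → ℕ), MinCE G w → ClawFree G → MF G w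

/-- WFC (2.5 h; may be split: WF1 = the fields miss, three, both, side, common, types, v0N, v0E,
v0T, v0C and WF2 = the others).  The elementary facts on 5-wheels in claw-free graphs.

PROOF.  Rim neighbours: `i` with `x ~ d i`.  Note `d i ≁ d (i + 2)`, `d i ≁ d (i + 3)`.
miss: `{u; x, d i, d (i + 2)}`.  three: by miss the set of the missed indices has no two elements at
distance 2 in the 5-cycle, so the complement contains `j, j + 1, j + 2` (check the 32 subsets, or: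
if `x ≁ d i` then `x ~ d (i + 2), d (i + 3)`, and one of `d (i + 1)`, `d (i + 4)` is not missed by
miss for `i + 4`).  both: `{u; d i, x, x'}`.  side: `{d i; v, d (i + 1), d (i - 1)}`.
common: `{d i; u, v, v'}`.  types: by side.  v0N: let `u ~ x`.  If `x = d j`, by definition of `V0`.
Otherwise by three `x ~ d j, d (j + 2)`; `{x; y, d j, d (j + 2)}`.
v0E: by v0N `m` is in `M(u)` (`m ≠ u` since `y ≁ u`).  If `Three`, `{m; y, d j, d (j + 2)}` is a
claw.  So by types `m` is in `V0` or in some `V2 i`, so in `EE i`.  v0T: immediate from v0E.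
v0C: `{g; d i, y, y'}`.
e3: let `g ∈ EE i`, `y ∈ V0`, `y ~ g`.  `m ≠ g` (`g` has exactly two rim neighbours), `m ~ g` by
common, `m ≁ y` by v0E (`Three m` excludes `V0` and `V2`).  If `m ~ d i`, `m ≁ d (i + 1)`:
`{g; y, m, d (i + 1)}` is a claw.  If `m ~ d (i + 1)`, `m ≁ d i`: `{g; y, m, d i}`.
e4: let `y ∈ V0`.  If `y ~ g ∈ V2 i` then for `h ∈ V2 (i + 1)`: `g ~ h` by common (`d (i + 1)`),
`{g; d i, y, h}` gives `y ~ h`.  Symmetrically if `y ~ h ∈ V2 (i + 1)` then `y ~ g'` for all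
`g' ∈ V2 i`: `{h; d (i + 2), y, g'}`.  As both are nonempty, `y` is complete to both.  The
nonemptiness of `EE i` or `EE (i + 1)` gives such a `y`.
sD: `t ~ g ∈ EE i`, `y ~ g`, `t ≁ y` by v0T: `{g; y, t, d i}` and `{g; y, t, d (i + 1)}`.
sC: let `t ~ g ∈ EE i`, `g' ∈ EE i`.  `t ≠ g'` as `t ∈ T`.  `t ≠ u` as `u ≁ g`.  If `t ∈ M(u)`:
by sD `t ~ d i` (`t = d i` is not in `M(u)`), so common.  If `u ~ t`: if `t = d j` then, as
`t ~ g`, `j = i` or `i + 1` and `t ~ g'`.  Otherwise by sD `t ~ d i, d (i + 1)`.  If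
`t ≁ d (i - 1)`: `{d i; d (i - 1), g', t}`.  If `t ≁ d (i + 2)`: `{d (i + 1); d (i + 2), g', t}`.
Otherwise `{t; g, d (i - 1), d (i + 2)}` is a claw.
sQ: inside `EE i` common; between `EE i` and `SS i` sC; `t, t' ∈ SS i`: `{g; y, t, t'}` for
`g ∈ EE i`, `y ~ g`.
sd: `d i`, `d (i + 1)` are adjacent to every `g ∈ EE i`; they are in `T` since `V0` and `EE j` are
inside `M(u)`.  sN: let `g ∈ EE i`; `{d i; d (i - 1), x, g}` or `{d (i + 1); d (i + 2), x, g}`
gives `x ~ g`; `x ∈ T` as `u ~ x`.  sM: `g ∈ EE i`, `x ≠ g` as `x ∈ T`, common gives `x ~ g`.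
uT: `u ∉ M(u)`, and `u` is not adjacent to `g ∈ M(u)`.  dT: `u ~ d j`; `d j ~ g ∈ V2 i` means
`j = i` or `j = i + 1`. -/
def G_WFC : Prop :=
  ∀ (V : Type) [Finite V] (G : SimpleGraph V) (u : V) (d : Fin 5 → V),
    ClawFree G → Wheel G u d → WF G u d

/-- AJ (1.5 h).  A 5-hole in `M(u)` whose vertices have rim neighbours can be numbered so that
`c i ∈ V2 i`; moreover `M(u)` has no stable set of size 3 of vertices with rim neighbours.

PROOF.  For `m ∈ M(u) \ V0` let `N(m)` be the set of its rim neighbours: by side it contains a pair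
`{a, a + 1}`.  If `m, m'` are non-adjacent (and different) then `N(m) ∩ N(m') = ∅` by common.
Second claim: three pairwise disjoint pairs `{a, a + 1}` do not exist modulo 5 (six elements).
First claim: choose `a j` with `{a j, a j + 1} ⊆ N(c j)`.  As `N(c j) ∩ N(c (j + 1)) = ∅`,
`a (j + 1) = a j + 2` or `a (j + 1) = a j + 3`.  Going around the cycle the sum of the five steps is
`0` modulo 5; as they are `± 2`, all are equal (finite check: 32 cases).  So `a (j + 1) = a j + s`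
for all `j`, `s = 2` or `s = 3`.  The sets `N(c (j ± 1))` contain `a j + 2, a j + 3` and
`a j + 3, a j + 4` (in some order), so `N(c j) = {a j, a j + 1}`, i.e. `c j ∈ V2 (a j)`.  `a` is a
bijection (`a j = a 0 + s j`); put `c' (a j) = c j`.  The vertices `c' i`, `c' (i + 2)` are `c j`,
`c (j + 1)` or `c j`, `c (j - 1)` for some `j`, so they are not adjacent. -/
def G_AJ : Prop :=
  ∀ (V : Type) [Finite V] (G : SimpleGraph V) (u : V) (d : Fin 5 → V),
    ClawFree G → Wheel G u d → WF G u d →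
    (∀ c : Fin 5 → V, (∀ i, c i ∈ Mn G u) → (∀ i, c i ∉ V0 G u d) → Function.Injective c →
      (∀ i, ¬ G.Adj (c i) (c (i + 1))) →
      ∃ c' : Fin 5 → V, (∀ i, c' i ∈ V2 G u d i) ∧ ∀ i, ¬ G.Adj (c' i) (c' (i + 2))) ∧
    ∀ a b c, a ∈ Mn G u → b ∈ Mn G u → c ∈ Mn G u → a ∉ V0 G u d → b ∉ V0 G u d →
      c ∉ V0 G u d → a ≠ b → a ≠ c → b ≠ c → ¬ G.Adj a b → ¬ G.Adj a c → ¬ G.Adj b c → False

/-- CI (1.5 h).  Consequences of the vertices `c i`: no vertex of `M(u)` has three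
consecutive rim neighbours, and every neighbour of `u` off the rim is adjacent to all rim vertices
or to exactly three consecutive ones.

PROOF.  `c i ~ d i, d (i + 1)` only; `c i ≁ c (i + 2)`, `c i ≁ c (i + 3)`.
(1) Let `v ∈ M(u)`, `v ~ d (i - 1), d i, d (i + 1)`.  `v` is not one of the `c j` (these have
exactly two rim neighbours), so by common `v` is adjacent to `c (i - 2)` (common neighbour
`d (i - 1)`) and to `c (i + 1)` (common neighbour `d (i + 1)`).  These two are not adjacent and not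
adjacent to `d i`: `{v; d i, c (i - 2), c (i + 1)}` is a claw.
(2) Let `u ~ x`, `x` off the rim, `x ≁ d i`.  Suppose that `x ~ d (i + 1), d (i - 1)`.
`{d (i + 1); d i, x, c (i + 1)}` (`d i ≁ x`, `d i ≁ c (i + 1)`): `x ~ c (i + 1)`.
`{d (i - 1); d i, x, c (i - 2)}`: `x ~ c (i - 2)`.  Then `{x; u, c (i + 1), c (i - 2)}` is a claw.
So `x` misses one of `d (i + 1)`, `d (i - 1)`, and by miss it misses nothing else (if it misses
`d i`, `d (i + 1)` it is adjacent to `d (i + 2), d (i + 3)` and `d (i + 4)`). -/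
def G_CI : Prop :=
  ∀ (V : Type) [Finite V] (G : SimpleGraph V) (u : V) (d : Fin 5 → V),
    ClawFree G → Wheel G u d → WF G u d →
    ∀ c : Fin 5 → V, (∀ i, c i ∈ V2 G u d i) → (∀ i, ¬ G.Adj (c i) (c (i + 2))) →
    (∀ v ∈ Mn G u, ¬ Three G d v) ∧
    ∀ x, G.Adj u x → (∀ j, x ≠ d j) → (∀ j, G.Adj x (d j)) ∨
      ∃ j, ∀ i, G.Adj x (d i) ↔ (i = j ∨ i = j + 1 ∨ i = j + 2)

/-- C6 (1.2 h; may assume COB (GoalsP), AJ, CI).  The case `V0 = ∅`.

PROOF.  By `MF.odd` for `u`, since no vertex is in `V0`: a stable set of size 3 is excluded by AJ,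
so there is a 5-hole, and AJ gives the `c i`.  By CI no vertex of `M(u)` has `Three`, so by types
`M(u)` is the union of the `V2 i`, and the neighbours of `u` off the rim are of type `U5` (complete
to the rim) or `U3(i)` (rim neighbours exactly `d (i - 1), d i, d (i + 1)`).
We show that `M(d 0)` is covered by two cliques, so it is perfect by COB, contradiction to `nperf`.
The non-neighbours of `d 0` (other than `d 0`) are: `d 2`, `d 3`, the vertices of `U3(2)` and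
`U3(3)`, and the vertices of `V2 1`, `V2 2`, `V2 3` (`u` and `U5` are adjacent to `d 0`).
First clique: `{d 2} ∪ U3(2) ∪ V2 1 ∪ V2 2`.  `U3(2)` is a clique by both (all miss `d 0`) and
`d 2` is adjacent to all the others; `V2 1 ∪ V2 2` is a clique by common (`d 2`); `x ∈ U3(2)`
and `v ∈ V2 1`: `{d 1; d 0, x, v}` gives `x ~ v`; `v ∈ V2 2`: `{d 3; d 4, x, v}` gives `x ~ v`.
Second clique: `{d 3} ∪ U3(3) ∪ V2 3`: `U3(3)` is a clique by both (all miss `d 0`), `V2 3` is a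
clique by common, `d 3` is adjacent to the others, and `x ∈ U3(3)`, `v ∈ V2 3`:
`{d 4; d 0, x, v}` gives `x ~ v`. -/
def G_C6 : Prop :=
  ∀ (V : Type) [Finite V] (G : SimpleGraph V) (w : V → ℕ) (u : V) (d : Fin 5 → V),
    ClawFree G → MF G w → Wheel G u d → WF G u d → V0 G u d = ∅ → False

/-- CH (1 h).  If `V0 ≠ ∅` and every vertex of `V0` with a neighbour in `E = ⋃ EE i` is complete
to `E` then `E` is not a clique, `V0` is a clique and is complete to `E`; and `E ≠ ∅` anyway.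

PROOF.  (0) `V0 ≠ V` (`u ∉ V0`), so by `conn` some edge `y x` leaves `V0`, and by v0E `x ∈ E`.
So `E ≠ ∅`.
Let `Y0` be the set of the `y ∈ V0` with a neighbour in `E`; `Y0` is complete to `E` by
hypothesis, nonempty, and it is a clique by v0C.
(1) If `E` is a clique: `join` with `V1 = V0`, `A1 = Y0`, `A2 = E`: `Y0 ∪ E` is a clique, an edge
`x y` with `x ∈ V0`, `y ∉ V0` has `y ∈ E` by v0E and then `x ∈ Y0`.  Contradiction.
So there are `g ≠ g'` in `E`, not adjacent.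
(2) `V0 = Y0`: otherwise by `conn` for `V0 \ Y0` there are `x ∈ V0 \ Y0`, `z ∉ V0 \ Y0`, `x ~ z`.
By v0E `z ∈ V0` or `z ∈ E`; the latter is excluded as `x ∉ Y0`.  So `z ∈ Y0`, `z ~ g, g'` and
`x ≁ g, g'`: `{z; x, g, g'}` is a claw. -/
def G_CH : Prop :=
  ∀ (V : Type) [Finite V] (G : SimpleGraph V) (w : V → ℕ) (u : V) (d : Fin 5 → V),
    ClawFree G → MF G w → Wheel G u d → WF G u d → (V0 G u d).Nonempty →
    (∃ i, (EE G u d i).Nonempty) ∧
    ((∀ y ∈ V0 G u d, ∀ i, ∀ g ∈ EE G u d i, G.Adj y g → ∀ j, ∀ g' ∈ EE G u d j, G.Adj y g') →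
      (∃ i, ∃ g ∈ EE G u d i, ∃ j, ∃ g' ∈ EE G u d j, g ≠ g' ∧ ¬ G.Adj g g') ∧
      Clq G (V0 G u d) ∧ ∀ y ∈ V0 G u d, ∀ i, ∀ g ∈ EE G u d i, G.Adj y g)

/-- I12 (0.8 h; may assume CH).  `I0 = {i : EE i ≠ ∅}` is not `{0}` and not `{0, 1}`.

PROOF.  `{0}`: `join` with `V1 = V0 ∪ EE 0`, `A1 = EE 0`, `A2 = SS 0`: `V1` is not empty,
`u ∉ V1`; `EE 0 ∪ SS 0` is a clique by sQ; an edge `x y` with `x ∈ V1`, `y ∉ V1`: `y ∈ T` (the
other `EE j` are empty), `x ∉ V0` by v0T, so `x ∈ EE 0` and `y ∈ SS 0`.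
`{0, 1}`: by e4 (`EE 0`, `EE 1` nonempty) the hypothesis of CH holds: if `y ∈ V0` has a neighbour in
`EE 0 ∪ EE 1` it is complete to `V2 0 ∪ V2 1`.  But `EE 0 ∪ EE 1` is a clique by common (`d 1`),
contradiction to CH. -/
def G_I12 : Prop :=
  ∀ (V : Type) [Finite V] (G : SimpleGraph V) (w : V → ℕ) (u : V) (d : Fin 5 → V),
    ClawFree G → MF G w → Wheel G u d → WF G u d → (V0 G u d).Nonempty →
    ¬ (∀ i, (EE G u d i).Nonempty ↔ i = 0) ∧
    ¬ (∀ i, (EE G u d i).Nonempty ↔ (i = 0 ∨ i = 1))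

/-- I34 (1.2 h; may assume CH, COB (GoalsP)).  `I0` is not `{0, 1, 2}` and not `{0, 1, 2, 3}`.

PROOF.  Chain: by e4 for the consecutive pairs in `I0`, a vertex of `V0` with a neighbour in one
`EE i`, `i ∈ I0`, is complete to `EE i` and to its neighbours `EE (i ± 1)` in the chain, so
(going along the chain) complete to `E`.  CH gives that `V0` is a clique complete to `E`.  Also by
e4 `V2 i = EE i` for `i ∈ I0`, and `V2 i = ∅` for `i ∉ I0` adjacent to an element of `I0`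
(otherwise `EE i` would be nonempty by e4), that is for all `i ∉ I0`.
Let `W` be the set of the vertices of `M(u)` with `Three`.  `M(u) = V0 ∪ E ∪ W` by types.
`I0 = {0, 1, 2}`: `m ∈ W` is adjacent to one of `d 0, …, d 3` (it has three rim neighbours), and by
e3 for `i = 0, 1, 2` it is adjacent to all of `d 0, …, d 3`.  Cliques: `V0 ∪ EE 0 ∪ EE 1`
(common with `d 1`) and `EE 2 ∪ W` (common with `d 2`; all of them are in `M(u)`).  So `M(u)` is
covered by two cliques, perfect by COB, contradiction to `nperf`.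
`I0 = {0, 1, 2, 3}`: `m ∈ W` is adjacent to all `d i` by e3 for `i = 0, 1, 2, 3`.  Cliques:
`V0 ∪ EE 0 ∪ EE 1` (common with `d 1`) and `EE 2 ∪ EE 3 ∪ W` (common with `d 3`). -/
def G_I34 : Prop :=
  ∀ (V : Type) [Finite V] (G : SimpleGraph V) (w : V → ℕ) (u : V) (d : Fin 5 → V),
    ClawFree G → MF G w → Wheel G u d → WF G u d → (V0 G u d).Nonempty →
    ¬ (∀ i, (EE G u d i).Nonempty ↔ (i = 0 ∨ i = 1 ∨ i = 2)) ∧
    ¬ (∀ i, (EE G u d i).Nonempty ↔ (i = 0 ∨ i = 1 ∨ i = 2 ∨ i = 3))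

/-- ICOA (1.5 h; may assume CH, AJ, CI).  All `EE i` nonempty: preparation.

PROOF.  By e4 for all `i`: `V2 i = EE i`, and a vertex of `V0` with a neighbour in `E` is complete
to `E`.  CH: `V0` is a clique complete to `E`, and there are non-adjacent `g ≠ g'` in `E`; by common
`g ∈ EE i`, `g' ∈ EE (i + 2)` for some `i` (up to exchange).
No vertex of `M(u)` has `Three`: let `m` be one; by e3 for all `i`, `m ~ d i` for all `i`.  By
common `m ~ g, g'`.  With `g ∈ EE i`, `g' ∈ EE (i + 2)` non-adjacent: `d (i + 4) ≁ g, g'` and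
`{m; g, g', d (i + 4)}` is a claw.
So `M(u) = V0 ∪ E`.  By `MF.odd`: `M(u)` contains a stable set of size 3 or a 5-hole; their vertices
are not in `V0` (a vertex of `V0` is adjacent to all the other vertices of `M(u)`; each vertex of a
5-hole has a non-neighbour in it).  By AJ the first is impossible and the second gives the `c i`.
CI gives the last claim. -/
def G_ICOA : Prop :=
  ∀ (V : Type) [Finite V] (G : SimpleGraph V) (w : V → ℕ) (u : V) (d : Fin 5 → V),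
    ClawFree G → MF G w → Wheel G u d → WF G u d → (V0 G u d).Nonempty →
    (∀ i, (EE G u d i).Nonempty) →
    (∀ i, V2 G u d i = EE G u d i) ∧ Clq G (V0 G u d) ∧
    (∀ y ∈ V0 G u d, ∀ i, ∀ g ∈ EE G u d i, G.Adj y g) ∧
    (∀ v ∈ Mn G u, v ∈ V0 G u d ∨ ∃ i, v ∈ EE G u d i) ∧
    (∃ c : Fin 5 → V, (∀ i, c i ∈ V2 G u d i) ∧ ∀ i, ¬ G.Adj (c i) (c (i + 2))) ∧
    ∀ x, G.Adj u x → (∀ j, x ≠ d j) → (∀ j, G.Adj x (d j)) ∨
      ∃ j, ∀ i, G.Adj x (d i) ↔ (i = j ∨ i = j + 1 ∨ i = j + 2)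

/-- ICO (2.5 h; may assume COB (GoalsP), ICOA).  `I0` is not everything (the icosahedron case).

PROOF.  Use ICOA.  `E i` means `EE i = V2 i`.  Let `D j` be the set of `d j` and of the neighbours
`x` of `u` off the rim whose rim neighbours are exactly `d (j - 1), d j, d (j + 1)`; let `U5` be
the set of the neighbours of `u` off the rim complete to the rim.  `V` is the union of `{u}`, `U5`,
the `D j`, the `E i` and `V0`.
(i) If `u ~ x`, `x ~ v ∈ E i` then (`x = d i` or `x ~ d i`) and the same for `d (i + 1)`: let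
`y ∈ V0` (`y ~ v`, `y ≁ x` by v0N), `{v; y, x, d i}`.
(ii) `U5` is anticomplete to `E i`: `z ∈ U5`, `v ∈ E i`, `z ~ v`: `{z; v, d (i - 1), d (i + 2)}` is
a claw (`v` is adjacent only to `d i`, `d (i + 1)`).
(iii) `D j` is complete to `E j` and to `E (j - 1)` and anticomplete to the other `E i`.
[For `d j` clear.  `x ∈ D j` off the rim, `v ∈ E j`: `{d (j + 1); d (j + 2), x, v}`.
`v ∈ E (j - 1)`: `{d (j - 1); d (j - 2), x, v}`.  The others: by (i), `x ~ v ∈ E i` needs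
`x ~ d i, d (i + 1)`.]
(iv) `U5` is a clique, complete to all `D j`: `z, z' ∈ U5`: `{d 0; c 0, z, z'}` (`c 0 ∈ E 0` is
adjacent to `d 0`, not adjacent to `z, z'`).  `z ∈ U5`, `x ∈ D j` off the rim:
`{d (j + 1); v, z, x}` with `v ∈ E (j + 1)` (`v ~ d (j + 1)`, `v ≁ z` by (ii), `v ≁ x` by (iii)).
(v) `D j` is a clique, complete to `D (j + 1)`, anticomplete to `D (j + 2)`.  [`D j` off the rim:
both with `d (j + 2)`.  `x ∈ D j`, `x' ∈ D (j + 1)` off the rim: both miss `d (j + 3)`: both.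
With rim vertices: by definition.  `x ∈ D j`, `x' ∈ D (j + 2)`, one of them on the rim: by
definition (`d j ≁ x'` since `j ∉ {j + 1, j + 2, j + 3}`).  Both off the rim, `x ~ x'`:
`{x; d (j - 1), x', v}` with `v ∈ E j` is a claw: `v ~ x` by (iii), `v ≁ x'` by (iii),
`d (j - 1) ≁ x'`, `d (j - 1) ≁ v`.]
(vi) `E i` is anticomplete to `E (i + 2)`.  [`v ∈ E i`, `v ≠ c i` or not: `v ≁ c (i + 2)`:
otherwise (as `v ~ c (i - 1)` by common) `{v; c (i + 2), c (i - 1), d (i + 1)}` is a claw.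
`v ≁ c (i - 2)`: otherwise `{v; c (i - 2), c (i + 1), d i}` is a claw (`v ~ c (i + 1)` by common).
So replacing `c i` by `v` gives another system with the same properties, in which the same
argument for `v' ∈ E (i + 2)` gives `v' ≁ v`.  Precisely: `v' ∈ E (i + 2)`, `v ∈ E i`, `v' ~ v`:
put `i' = i + 2`, `v = c' (i' - 2)`: `{v'; v, c (i' + 1), d i'}` is a claw: `v' ~ c (i' + 1)` by
common; `v ≁ c (i' + 1) = c (i - 2)` by the previous line; `v ≁ d i'`, `c (i' + 1) ≁ d i'`.]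
(vii) `A = ({u} ∪ U5 ∪ D 0 ∪ D 1) ∪ (V0 ∪ E 2 ∪ E 3)` is a union of two cliques ((iv), (v);
`V0` is a clique complete to `E`; common with `d 3`), so it is perfect by COB.  By `free` some tight
clique `K` is disjoint from `A`: `K ⊆ D 2 ∪ D 3 ∪ D 4 ∪ E 0 ∪ E 1 ∪ E 4`.  By `max` no vertex is
complete to `K`.  If `K ⊆ D 2 ∪ D 3 ∪ D 4`: `u` is complete to `K`.  If `K ⊆ E 0 ∪ E 1 ∪ E 4`: a
vertex of `V0` is.  Otherwise `K` contains `x ∈ D j`, `j ∈ {2, 3, 4}`, and `v ∈ E l`,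
`l ∈ {0, 1, 4}`, adjacent, so by (iii) `l = j` or `l = j - 1`: `(j, l) = (2, 1)` or `(4, 4)`.
Case `(2, 1)`: `K ⊆ D 2 ∪ E 1`: no `D 4` (`D 2`), no `D 3` (`E 1`, by (iii)), no `E 0` (by (iii)
with `x ∈ D 2`), no `E 4` (by (iii) with `x ∈ D 2`).  `d 1` is complete to `D 2 ∪ E 1`.
Case `(4, 4)`: `K ⊆ D 4 ∪ E 4`: no `D 2` (`D 4`), no `D 3` (`E 4`, by (iii)), no `E 0`, `E 1` (by
(iii) with `x ∈ D 4`).  `d 0` is complete to `D 4 ∪ E 4`.  Contradiction. -/
def G_ICO : Prop :=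
  ∀ (V : Type) [Finite V] (G : SimpleGraph V) (w : V → ℕ) (u : V) (d : Fin 5 → V),
    ClawFree G → MF G w → Wheel G u d → WF G u d → (V0 G u d).Nonempty →
    (∀ i, (EE G u d i).Nonempty) → False

/-- I02 (2.5 h; may assume GLUE, COB (GoalsP)).  `I0` is not `{0, 2}`.

PROOF.  `E = EE 0 ∪ EE 2`.  By e4 `V2 1 = V2 3 = V2 4 = ∅` (each of 1, 3, 4 is next to 0 or 2, and
a vertex there would make `EE` of that index nonempty).  `S0 = SS 0`, `S2 = SS 2`,
`T = TT = V \ (V0 ∪ E)`, `R = T \ (S0 ∪ S2)`.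
(a) `R` is a clique.  First, `R ⊆ {u} ∪ N(u)`: let `x ∈ R ∩ M(u)`.  By types `x ∈ V2 0` or
`x ∈ V2 2` or `Three x` (`x ∉ V0`); in each case `x` is adjacent to one of
`d 0, d 1, d 2, d 3`, so by sM `x ∈ S0 ∪ S2`, contradiction.  So it remains to show that two
different vertices `x, x'` of `R ∩ N(u)` are adjacent.  The rim vertices in `R` can only be `d 4`
(sd).  `x` off the rim is adjacent to `d 4`: suppose not.  By miss `x ~ d 1, d 2`, and
`x ~ d 0` or `x ~ d 3` (miss for `i = 3`, i.e. `d 3` or `d 0`).  If `x ~ d 0`, `x ≁ d 4`: by sN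
(`i = 0`) `x ∈ S0`.  If `x ~ d 3`, `x ≁ d 4`: by sN (`i = 2`) `x ∈ S2`.  Contradiction.
Let `x ≠ x'` be off the rim in `R ∩ N(u)`, `g ∈ EE 0`, `g' ∈ EE 2`; `x, x'` are adjacent to
neither.  By sN for `i = 0` (`d 1`, not `d 2`) and `i = 2` (`d 2`, not `d 1`): `x ~ d 1` iff
`x ~ d 2`, the same for `x'`.  If both are adjacent to `d 1`: `{d 1; g, x, x'}` gives `x ~ x'`.  If
both miss `d 1`: both.  So let `x ~ d 1, d 2` and let `x'` miss `d 1, d 2`; by miss
`x' ~ d 0, d 3`.  By miss (`i = 3`) `x ~ d 3` or `x ~ d 0`: `{d 3; g', x, x'}` or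
`{d 0; g, x, x'}` gives `x ~ x'`.  Finally `x ~ d 4` for `x` off the rim (shown above), and `u` is
adjacent to all of `N(u)`.
(b) Let `S02 = S0 ∩ S2`.  `V0 ∪ E ∪ S02 ≠ V` (`u`); by `MF0.ih` there is a perfect
`A' ⊆ V0 ∪ E ∪ S02` meeting all tight cliques inside `V0 ∪ E ∪ S02`.
`L = R ∪ (S0 \ S2)`.  `C = A' ∩ (EE 0 ∪ S02)`.  `L ∪ C ⊆ R ∪ (S0 ∪ EE 0)` is perfect by COB (`R`
is a clique; `S0 ∪ EE 0` is a clique by sQ).  `C` is a clique.  Glue `A'` and `L ∪ C` along `C`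
(`A' ∩ L = ∅`): there are no edges between `A' \ C` and `L`: a vertex of `A' \ C` is in `V0` (v0T)
or in `EE 2` (its neighbours in `T` are in `S2`).  So `B = A' ∪ L` is perfect.
(c) By `free` there is a tight `K` missed by `B` such that no vertex of `K` is free.
`K ⊆ V0 ∪ E ∪ S02 ∪ (S2 \ S0)`, disjoint from `A'`.  Since `A'` meets the tight cliques inside
`V0 ∪ E ∪ S02`, `K` contains `s ∈ S2 \ S0`.  `s` is not adjacent to `V0` (v0T) nor to `EE 0`
(`s ∉ S0`).  So `K ⊆ EE 2 ∪ S2`, which is a clique by sQ; by `max`, `EE 2 ∪ S2 ⊆ K`.  Let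
`g ∈ EE 2 ⊆ K`.  `g` is free: the vertices of `N(g) \ K` are in `V0 ∪ EE 0` (the neighbours of `g`
in `T` are in `S2 ⊆ K`, those in `EE 2` are in `K`); they are not adjacent to `d 2`, and
`{g; d 2, a, b}` shows that they are pairwise adjacent.  Contradiction. -/
def G_I02 : Prop :=
  ∀ (V : Type) [Finite V] (G : SimpleGraph V) (w : V → ℕ) (u : V) (d : Fin 5 → V),
    ClawFree G → MF G w → Wheel G u d → WF G u d → (V0 G u d).Nonempty →
    ¬ (∀ i, (EE G u d i).Nonempty ↔ (i = 0 ∨ i = 2))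

/-- I013A (2 h).  `I0 = {0, 1, 3}`: preparation.  `Si = SS i`, `T = TT`.

PROOF.  By e4 (pair 0, 1): `V2 0 = EE 0`, `V2 1 = EE 1`, a vertex `y ∈ V0` with a neighbour in
`EE 0 ∪ EE 1` is complete to `EE 0 ∪ EE 1`.  By e4 (pairs (1,2), (2,3), (3,4), (4,0)):
`V2 2 = V2 4 = ∅`.  Let `Y0` be the set of the vertices of `V0` with a neighbour in `EE 0 ∪ EE 1`.
(b1) `g3 ∈ EE 3` adjacent to some `g ∈ EE 0 ∪ EE 1` is complete to `EE 0 ∪ EE 1` and to `Y0`.
[Rim neighbours: `EE 0`: 0, 1; `EE 1`: 1, 2; `EE 3`: 3, 4.  Let `g3 ~ g ∈ EE 0`.  For `y ∈ Y0`: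
`y ~ g`, `{g; d 1, y, g3}` gives `y ~ g3`.  For `g' ∈ EE 1`: `g ~ g'` (common), `{g; d 0, g', g3}`
gives `g' ~ g3`.  Let `g3 ~ g ∈ EE 1`.  For `y ∈ Y0`: `{g; d 1, y, g3}`.  For `g' ∈ EE 0`:
`{g; d 2, g', g3}` gives `g' ~ g3`.  As both are nonempty, `g3` is complete to both.]
(b2) `S3 ∩ (S0 ∪ S1) = ∅`.  Let `t` be in the intersection, `g ∈ EE 0 ∪ EE 1`, `g3 ∈ EE 3`.
We show `g ~ g3` for all `g ∈ EE i`, `i = 0` or `1` with `t ∈ Si`, and all `g3 ∈ EE 3`.  `t ~ g, g3`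
by sC.  `t ≠ u` (uT).  If `u ~ t`: `{t; u, g, g3}` gives `g ~ g3`.  If `t ∈ M(u)`: by sD
(`t` is not on the rim) `t ~ d 3, d 4` and `t ~ d 1`; so `t ∉ V2 i` for all `i`, so by types
`Three t`; by e3 for `i = 0, 1` (`t ~ d 1`) `t ~ d 0, d 1, d 2`.  If `i = 0`: `{t; d 2, g, g3}`
(`d 2 ≁ g, g3`); if `i = 1`: `{t; d 0, g, g3}`.  So `g ~ g3`.
By (b1) every `g3 ∈ EE 3` is complete to `EE 0 ∪ EE 1` and to `Y0`.  So `E` is a clique.  A vertex
`y ∈ V0` adjacent to `g3 ∈ EE 3` is in `Y0`: `g3 ~ g ∈ EE 0`, `{g3; d 3, y, g}` gives `y ~ g`.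
So every vertex of `V0` with a neighbour in `E` is in `Y0` and complete to `E`.  `Y0` is a clique
(v0C).  `join` with `V1 = V0`, `A1 = Y0`, `A2 = E` gives a contradiction (v0E).
(b3) `P = S0 ∩ S1` is anticomplete to `S3`.  Let `p ∈ P`, `s ∈ S3`, `p ~ s`.  `s ∉ S0 ∪ S1`, so `s`
is not adjacent to `g0 ∈ EE 0`, `g1 ∈ EE 1`.  `p ≠ d 0, d 2` (dT: `d 0 ∉ S1`, `d 2 ∉ S0`), so by
sD `p ~ d 0, d 2`.  `{p; g0, s, d 2}`: `g0 ≁ s`, `g0 ≁ d 2`, so `s ~ d 2` or `s = d 2`; the latter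
is excluded by dT (`s ∈ S3`).  `{p; g1, s, d 0}`: `s ~ d 0`, similarly.  `s ~ g3` for
`g3 ∈ EE 3` by sC.  `{s; g3, d 0, d 2}` is a claw.
(b4) `R = T \ (S0 ∪ S1 ∪ S3)` is a clique.  `R ⊆ {u} ∪ N(u)`: `x ∈ R ∩ M(u)` is by types in
`V2 3` or has `Three` (`V2 0 = EE 0` etc. are not in `T`); in each case it is adjacent to one of
`d 0, d 1` or `d 3, d 4`, so by sM (`i = 0` or `3`) it is in `S0 ∪ S3`.  The rim has no vertex in
`R` (sd for `i = 0, 1, 3`).  Let `x ∈ R`, `u ~ x`, off the rim.  Claim: `x ~ d 3`.  Suppose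
`x ≁ d 3`.  By miss `x ~ d 1` (`i = 1`).  If `x ~ d 2`: sN for `i = 1` (adjacent to `d 2`, not to
`d 3`) gives `x ∈ S1`.  If `x ≁ d 2`: sN for `i = 0` (adjacent to `d 1`, not to `d 2`) gives
`x ∈ S0`.  Contradiction; so `x ~ d 3`.  Two such vertices `x ≠ x'`:
`{d 3; g3, x, x'}` with `g3 ∈ EE 3` (`x, x' ∉ S3` are not adjacent to `g3`) gives `x ~ x'`. -/
def G_I013A : Prop :=
  ∀ (V : Type) [Finite V] (G : SimpleGraph V) (w : V → ℕ) (u : V) (d : Fin 5 → V),
    ClawFree G → MF G w → Wheel G u d → WF G u d → (V0 G u d).Nonempty →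
    (∀ i, (EE G u d i).Nonempty ↔ (i = 0 ∨ i = 1 ∨ i = 3)) →
    (∀ y ∈ V0 G u d, ∀ g ∈ EE G u d 0 ∪ EE G u d 1, G.Adj y g →
      ∀ g' ∈ EE G u d 0 ∪ EE G u d 1, G.Adj y g') ∧
    (∀ g3 ∈ EE G u d 3, ∀ g ∈ EE G u d 0 ∪ EE G u d 1, G.Adj g3 g →
      (∀ g' ∈ EE G u d 0 ∪ EE G u d 1, G.Adj g3 g') ∧
      ∀ y ∈ V0 G u d, ∀ g' ∈ EE G u d 0 ∪ EE G u d 1, G.Adj y g' → G.Adj y g3) ∧
    (∀ t ∈ SS G u d 3, t ∉ SS G u d 0 ∧ t ∉ SS G u d 1) ∧
    (∀ p ∈ SS G u d 0, p ∈ SS G u d 1 → ∀ s ∈ SS G u d 3, ¬ G.Adj p s) ∧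
    Clq G {x | x ∈ TT G u d ∧ x ∉ SS G u d 0 ∧ x ∉ SS G u d 1 ∧ x ∉ SS G u d 3}

/-- I013 (2 h; may assume GLUE, COB (GoalsP), I013A).  `I0` is not `{0, 1, 3}`.

PROOF.  Notation and facts of I013A; `EA = EE 0 ∪ EE 1` is a clique (common with `d 1`),
`E3 = EE 3`, `Y0` = the vertices of `V0` with a neighbour in `EA`, a clique (v0C) complete to `EA`;
`E3+` = the vertices of `E3` with a neighbour in `EA`, complete to `EA` and `Y0`.
`P = S0 ∩ S1`; `d 1 ∈ P` by sd.
By `MF0.ih` (`V0 ∪ E3 ≠ V`) there is a perfect `A' ⊆ V0 ∪ E3` meeting all tight cliques inside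
`V0 ∪ E3`.  `B = A' ∪ R ∪ P ∪ S3` is perfect:
`R ∪ P` and `R ∪ S3` are perfect by COB; glue them along the clique `R` (`P ∩ S3 = ∅`, no edges
between `P` and `S3`): `R ∪ P ∪ S3` is perfect.  `S3 ∪ (A' ∩ E3)` is a clique (sQ); glue it with
`R ∪ P ∪ S3` along `S3` (the neighbours in `T` of a vertex of `E3` are in `S3`): perfect.  Glue the
result with `A'` along `A' ∩ E3` (a clique; the other vertices of `A'` are in `V0` and have no
neighbours in `T`).  So `B` is perfect.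
By `free` some tight `K` is missed by `B`, and no vertex of `K` is free.
`K ⊆ V0 ∪ E3 ∪ EA ∪ (S0 \ S1) ∪ (S1 \ S0)`, `K ∩ A' = ∅`.
(1) If `K` contains `s ∈ S0 \ S1`: `s` is not adjacent to `V0` (v0T), to `E3` (`s ∉ S3` as
`S0 ∩ S3 = ∅`), to `EE 1`.  So `K ⊆ EE 0 ∪ S0 ∪ S1`, and `d 1 ∉ K` is adjacent to all of `K`
(`d 1 ∈ S0 ∩ S1`, sQ for 0 and 1): contradiction to `max`.
(2) If `K` contains `s ∈ S1 \ S0`: the same with 0 and 1 exchanged.
(3) So `K ⊆ V0 ∪ E3 ∪ EA`.  As `A'` meets the tight cliques inside `V0 ∪ E3`, `K` contains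
`g ∈ EA`.  So `K ⊆ Y0 ∪ E3+ ∪ EA =: K'`, which is a clique; by `max` `K' ⊆ K`.  Let `g0 ∈ EE 0`.
`g0 ∈ K` is free: `N(g0) \ K` contains no vertex of `V0` (it would be in `Y0`), of `E3` (it would
be in `E3+`), of `EA`; the neighbours of `g0` in `T` are in `S0`, which is a clique.
Contradiction. -/
def G_I013 : Prop :=
  ∀ (V : Type) [Finite V] (G : SimpleGraph V) (w : V → ℕ) (u : V) (d : Fin 5 → V),
    ClawFree G → MF G w → Wheel G u d → WF G u d → (V0 G u d).Nonempty →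
    ¬ (∀ i, (EE G u d i).Nonempty ↔ (i = 0 ∨ i = 1 ∨ i = 3))

/-- NW (1.5 h; may assume WFC, C6, CH, I12, I34, ICO, I02, I013).  A minimal claw-free
counterexample has no 5-wheel.

PROOF.  Let `Wheel G u d`; WFC gives `WF G u d`.  If `V0 = ∅`, C6.  Otherwise by CH the set
`I0 = {i : EE i ≠ ∅}` is not empty.  Some rotation `I0 - r` of `I0` is one of `{0}`, `{0, 1}`,
`{0, 1, 2}`, `{0, 1, 2, 3}`, `Fin 5`, `{0, 2}`, `{0, 1, 3}` (finite check over the 31 nonempty
subsets of `Fin 5`).  For the rotated wheel `d' i = d (i + r)`: `Wheel G u d'`, `V0` is the same,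
`V2 G u d' i = V2 G u d (i + r)`, `EE G u d' i = EE G u d (i + r)`.  Apply I12, I34, ICO, I02, I013
to `d'` (with WFC for `d'`). -/
def G_NW : Prop :=
  ∀ (V : Type) [Finite V] (G : SimpleGraph V) (w : V → ℕ) (u : V) (d : Fin 5 → V),
    ClawFree G → MF G w → ¬ Wheel G u d

/-- TA (1 h; may assume COB, GLUE (GoalsP), MFC, ODDC, AH, EXCH, NW).  Theorem A.

PROOF.  `MF G w` by MFC.  Claim: every neighbourhood `N(v)` is covered by two cliques.  Otherwise
ODDC gives an odd `n ≥ 3` and `c : ZMod n → V` in `N(v)`.  `n = 3`: `{v; c 0, c 1, c 2}` is a claw.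
`n = 5`: `d i = c (2 i)` is the rim of a 5-wheel with centre `v` (`d i ~ d (i + 1)` because
`c (2 i) ~ c (2 i + 2)`; `d i ≁ d (i + 2)` because `c (2 i + 4) = c (2 i - 1)`), excluded by NW.
`n ≥ 7`: by AH `M(v)` is a clique, so it is perfect (GLUE (2)), contradiction to `nperf`.
EXCH gives a perfect set meeting all tight cliques, contradiction to `MinCE.bad`. -/
def G_TA : Prop :=
  ∀ (V : Type) [Finite V] (G : SimpleGraph V) (w : V → ℕ), MinCE G w → ClawFree G → False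

end Pool.Agent.Helper2.SV
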