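import Pool.Agent.Helper2.SV.GoalsP
import Pool.Agent.Helper2.SV.GoalsC

set_option autoImplicit false

namespace Pool.Agent.Helper2.SV

lemma z3 : ∀ i j : ZMod 3, i ≠ j → (j = i + 1 ∨ i = j + 1) := by decide
lemma z5a : ∀ i : ZMod 5, i + i ≠ (i + 1) + (i + 1) := by decide
lemma z5b : ∀ i : ZMod 5, ¬ ((i + 1) + (i + 1) = i + i + 1 ∨ i + i = (i + 1) + (i + 1) + 1) := by
  decide
lemma z5c : ∀ i : ZMod 5, i + i ≠ (i + 2) + (i + 2) := by decide
lemma z5d : ∀ i : ZMod 5, ((i + 2) + (i + 2) = i + i + 1 ∨ i + i = (i + 2) + (i + 2) + 1) := by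
  decide
lemma z5e : ∀ i j : ZMod 5, i + i = j + j → i = j := by decide

theorem goalTA (hCOB : G_COB) (hGLUE : G_GLUE) (hMFC : G_MFC) (hODDC : G_ODDC) (hAH : G_AH)
    (hEXCH : G_EXCH) (hNW : G_NW) : G_TA := by
  intro V _ G w hM hcf
  have hMF := hMFC V G w hM hcf
  have key : ∀ v, ∃ C1 C2 : Set V, Clq G C1 ∧ Clq G C2 ∧ {x | G.Adj v x} ⊆ C1 ∪ C2 := by
    intro v
    by_contra hcon
    push Not at hcon
    obtain ⟨n, hn, hodd, c, hc, hinj, hadj⟩ := hODDC V G {x | G.Adj v x} hcon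
    have hc' : ∀ i, G.Adj v (c i) := hc
    by_cases h7 : 7 ≤ n
    · have := (hAH V G hcf hMF.conn n h7 hodd c ⟨hinj, hadj⟩).2 v hc'
      exact hMF.nperf v (hGLUE.2.1 V G _ this)
    · have h35 : n = 3 ∨ n = 5 := by
        obtain ⟨k, hk⟩ := hodd
        omega
      rcases h35 with rfl | rfl
      · have hne : ∀ i j : ZMod 3, i ≠ j → c i ≠ c j := fun i j h h' => h (hinj h')
        have hna : ∀ i j : ZMod 3, i ≠ j → ¬ G.Adj (c i) (c j) := by
          intro i j hij h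
          exact (hadj i j hij).1 h (z3 i j hij)
        rcases hcf v (c 0) (c 1) (c 2) (hc' 0) (hc' 1) (hc' 2) (hne _ _ (by decide))
          (hne _ _ (by decide)) (hne _ _ (by decide)) with h | h | h
        · exact hna _ _ (by decide) h
        · exact hna _ _ (by decide) h
        · exact hna _ _ (by decide) h
      · have hw : Wheel G v (fun i : ZMod 5 => c (i + i)) :=
          ⟨fun i => hc' _, fun i => (hadj _ _ (z5a i)).2 (z5b i),
            fun i h => (hadj _ _ (z5c i)).1 h (z5d i), fun i j hij => z5e i j (hinj hij)⟩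
        exact hNW V G w v _ hcf hMF hw
  obtain ⟨A, hA, hhit⟩ := hEXCH V G w hM.pos key
  obtain ⟨K, hK, hmiss⟩ := hM.bad A hA
  obtain ⟨x, hx, hxA⟩ := hhit K hK
  exact hmiss x hx hxA

end Pool.Agent.Helper2.SV
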