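import Pool.Agent.Helper2.SV.LQ
import Pool.Agent.Helper2.SV.EXCH
import Pool.Agent.Helper2.SV.WFC
import Pool.Agent.Helper2.SV.GoalsF
import Pool.Agent.Helper48.SV.GLUE
import Pool.Agent.Helper55.SV.COB
import Pool.Agent.Helper83.SV.REP
import Pool.Agent.Helper59.SV.SUB
import Pool.Agent.Helper46.SV.CJ
import Pool.Agent.Helper79.SV.MI
import Pool.Agent.Helper8.SV.MC0
import Pool.Agent.Helper32.SV.TRANS
import Pool.Agent.Helper37.SV.FIN
import Pool.Agent.Helper86.SV.PR
import Pool.Agent.Helper2.SV.S2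
import Pool.Agent.Helper96.SV.S3
import Pool.Agent.Helper30.SV.LD
import Pool.Agent.Helper56.SV.S4
import Pool.Agent.Helper48.SV.S5
import Pool.Agent.Helper53.SV.S6
import Pool.Agent.Helper24.SV.S7A
import Pool.Agent.Helper2.SV.S7B
import Pool.Agent.Helper59.SV.TB
import Pool.Agent.Helper40.SV.ODDC
import Pool.Agent.Helper32.SV.AH
import Pool.Agent.Helper2.SV.JOIN
import Pool.Agent.Helper22.SV.MFC
import Pool.Agent.Helper64.SV.AJ
import Pool.Agent.Helper41.SV.CI
import Pool.Agent.Helper58.SV.C6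
import Pool.Agent.Helper37.SV.CH
import Pool.Agent.Helper5.SV.I12
import Pool.Agent.Helper70.SV.I34
import Pool.Agent.Helper26.SV.ICOA
import Pool.Agent.Helper2.SV.ICO
import Pool.Agent.Helper33.SV.I02
import Pool.Agent.Helper32.SV.I013A
import Pool.Agent.Helper2.SV.I013
import Pool.Agent.Helper60.SV.NW
import Pool.Agent.Helper2.SV.TA

/-!
# Project SV: assembly
-/

set_option autoImplicit false

namespace Pool.Agent.Helper2.SV

/-- The property of being fork-free passes to induced subgraphs. -/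
lemma forkF_induce (V : Type) (G : SimpleGraph V) (S : Set V) (h : ForkF G) :
    ForkF (G.induce S) := by
  intro v a b c d hva hvb hvc hcd hab hac hbc hdv
  exact h v a b c d hva hvb hvc hcd (fun e => hab (Subtype.ext e)) (fun e => hac (Subtype.ext e))
    (fun e => hbc (Subtype.ext e)) (fun e => hdv (Subtype.ext e))

/-- There is no minimal fork-free counterexample. -/
theorem no_minCE : ∀ (V : Type) [Finite V] (G : SimpleGraph V) (w : V → ℕ),
    MinCE G w → ForkF G → False := by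
  have hREP : G_REP := Pool.Agent.Helper83.SV.goalREP
  have hGLUE : G_GLUE := Pool.Agent.Helper48.SV.goalGLUE
  have hCOB : G_COB := Pool.Agent.Helper55.SV.goalCOB
  have hSUB : G_SUB := Pool.Agent.Helper59.SV.goalSUB hREP
  have hCJ : G_CJ := Pool.Agent.Helper46.SV.goalCJ hREP
  have hMI : G_MI := Pool.Agent.Helper79.SV.goalMI hGLUE hCOB hSUB
  have hMC0 : G_MC0 := Pool.Agent.Helper8.SV.goalMC0 hGLUE
  have hPR : G_PR := Pool.Agent.Helper86.SV.goalPR hSUB hMC0
  have hS2 : G_S2 := Pool.Agent.Helper2.SV.goalS2 hMI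
  have hS3 : G_S3 := Pool.Agent.Helper96.SV.goalS3 hMI hS2
  have hLD : G_LD := Pool.Agent.Helper30.SV.goalLD
  have hS4 : G_S4 := Pool.Agent.Helper56.SV.goalS4 hMI hS3 hLD
  have hS5 : G_S5 := Pool.Agent.Helper48.SV.goalS5 hMI hS2 hLD hS4
  have hS6 : G_S6 := Pool.Agent.Helper53.SV.goalS6 hCJ
  have hS7A : G_S7A := Pool.Agent.Helper24.SV.goalS7A hMI hS2
  have hS7B : G_S7B := Pool.Agent.Helper2.SV.goalS7B hMI hS2
  have hTB : G_TB := Pool.Agent.Helper59.SV.goalTB hMI hMC0 hPR hS5 hS6 hS7A hS7B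
  have hODDC : G_ODDC := Pool.Agent.Helper40.SV.goalODDC
  have hAH : G_AH := Pool.Agent.Helper32.SV.goalAH
  have hJOIN : G_JOIN := Pool.Agent.Helper2.SV.goalJOIN hGLUE
  have hMFC : G_MFC := Pool.Agent.Helper22.SV.goalMFC hCOB hMC0 hODDC hAH hJOIN
  have hAJ : G_AJ := Pool.Agent.Helper64.SV.goalAJ
  have hCI : G_CI := Pool.Agent.Helper41.SV.goalCI
  have hC6 : G_C6 := Pool.Agent.Helper58.SV.goalC6 hCOB hAJ hCI
  have hCH : G_CH := Pool.Agent.Helper37.SV.goalCH
  have hI12 : G_I12 := Pool.Agent.Helper5.SV.goalI12 hCH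
  have hI34 : G_I34 := Pool.Agent.Helper70.SV.goalI34 hCH hCOB
  have hICOA : G_ICOA := Pool.Agent.Helper26.SV.goalICOA hCH hAJ hCI
  have hICO : G_ICO := Pool.Agent.Helper2.SV.goalICO hCOB hICOA
  have hI02 : G_I02 := Pool.Agent.Helper33.SV.goalI02 hGLUE hCOB
  have hI013A : G_I013A := Pool.Agent.Helper32.SV.goalI013A
  have hI013 : G_I013 := Pool.Agent.Helper2.SV.goalI013 hGLUE hCOB hI013A
  have hNW : G_NW := Pool.Agent.Helper60.SV.goalNW goalWFC hC6 hCH hI12 hI34 hICO hI02 hI013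
  have hEXCH : G_EXCH := goalEXCH hGLUE hCOB goalLQ
  have hTA : G_TA := Pool.Agent.Helper2.SV.goalTA hCOB hGLUE hMFC hODDC hAH hEXCH hNW
  intro V _ G w hM hF
  exact hTA V G w hM (hTB V G w hM hF)

/-- The weighted form: every vertex set of a finite fork-free graph contains, for every weight
function, a perfect set meeting all the cliques of maximum weight. -/
theorem forkF_pw : ∀ (V : Type) [Finite V] (G : SimpleGraph V) (S : Set V), ForkF G → PW G S :=
  Pool.Agent.Helper32.SV.goalTRANS (fun _ G => ForkF G) forkF_induce no_minCE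

/-- Every finite fork-free graph is perfectly divisible. -/
theorem forkFree_perfectlyDivisible : ∀ (V : Type) [Finite V] (G : SimpleGraph V),
    ForkFree G → PerfectlyDivisible G :=
  Pool.Agent.Helper37.SV.goalFIN forkF_pw

end Pool.Agent.Helper2.SV
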