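import Pool.Agent.Helper2.SV.GoalsC

set_option autoImplicit false

namespace Pool.Agent.Helper2.SV

theorem goalLQ : G_LQ := by
  intro V _ H hs hi K E hKne hKK hEK hn hT hC h3
  classical
  have hKE : ∀ z ∈ K, ∀ e ∈ E, z ≠ e := fun z hz e he hze => hEK e he (hze ▸ hz)
  have mK : ∀ z ∈ K, z ∈ K ∪ E := fun z hz => Or.inl hz
  have mE : ∀ z ∈ E, z ∈ K ∪ E := fun z hz => Or.inr hz
  -- close edges
  have cl : ∀ f ∈ E, ∀ g ∈ E, H f g → ∀ k ∈ K, ¬ H f k → ¬ H g k →
      ∀ l ∈ K, H f l → ¬ H g l := by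
    intro f hf g hg hfg k hk hfk hgk l hl hfl hgl
    have hkl : k ≠ l := fun h => hfk (h ▸ hfl)
    rcases hT f (mE f hf) g (mE g hg) l (mK l hl) k (mK k hk) hfg hgl hfl (hKE k hk f hf)
      (hKE k hk g hg) hkl with h | h | h
    · exact hfk (hs _ _ h)
    · exact hgk (hs _ _ h)
    · exact hKK k hk l hl h
  have c5 : ∀ u ∈ E, ∀ v ∈ E, ∀ x ∈ E, ∀ z ∈ K, H u v → ¬ H u z → ¬ H v z → ¬ H x z →
      (∀ k ∈ K, H u k → ¬ H x k) ∨ (∀ k ∈ K, H v k → ¬ H x k) := by
    intro u hu v hv x hx z hz huv huz hvz hxz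
    by_contra hcon
    push Not at hcon
    obtain ⟨⟨k1, hk1, huk1, hxk1⟩, k2, hk2, hvk2, hxk2⟩ := hcon
    have hz1 : z ≠ k1 := fun h => hxz (h ▸ hxk1)
    have hz2 : z ≠ k2 := fun h => hxz (h ▸ hxk2)
    rcases hC x (mE x hx) k1 (mK k1 hk1) u (mE u hu) v (mE v hv) k2 (mK k2 hk2) z (mK z hz)
      hxk1 (hs _ _ huk1) huv hvk2 (hs _ _ hxk2) (hKE z hz x hx) hz1 (hKE z hz u hu)
      (hKE z hz v hv) hz2 with h | h | h | h | h
    · exact hxz (hs _ _ h)
    · exact hKK z hz k1 hk1 h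
    · exact huz (hs _ _ h)
    · exact hvz (hs _ _ h)
    · exact hKK z hz k2 hk2 h
  -- far edges
  have far : ∀ e ∈ E, ∀ h ∈ E, H e h → ∀ k ∈ K, H e k → H h k → ∀ l ∈ K, H e l ∨ H h l := by
    intro e he h hh heh k hk hek hhk l hl
    by_contra hcon
    push Not at hcon
    exact cl e he h hh heh l hl hcon.1 hcon.2 k hk hek hhk
  have dd : ∀ e ∈ E, ∀ h ∈ E, H e h → ∀ k ∈ K, H e k → H h k →
      ∃ a ∈ E, ∃ b ∈ E, H a b ∧ (∃ j ∈ K, ¬ H a j ∧ ¬ H b j) ∧ (∀ l ∈ K, H a l → H e l) ∧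
        ∃ z ∈ K, H e z ∧ ¬ H a z := by
    intro e he h hh heh k hk hek hhk
    obtain ⟨-, z, hz, hhz⟩ := hn h hh
    have hez : H e z := (far e he h hh heh k hk hek hhk z hz).resolve_right hhz
    obtain ⟨a, ha, b, hb, hab, haz, hbz⟩ := h3 z hz
    rcases c5 a ha b hb h hh z hz hab haz hbz hhz with h1 | h1
    · exact ⟨a, ha, b, hb, hab, ⟨z, hz, haz, hbz⟩, fun l hl hal =>
        (far e he h hh heh k hk hek hhk l hl).resolve_right (h1 l hl hal), z, hz, hez, haz⟩
    · exact ⟨b, hb, a, ha, hs _ _ hab, ⟨z, hz, hbz, haz⟩, fun l hl hal =>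
        (far e he h hh heh k hk hek hhk l hl).resolve_right (h1 l hl hal), z, hz, hez, hbz⟩
  -- the minimal endpoint
  let N : V → ℕ := fun f => {k | k ∈ K ∧ H f k}.ncard
  obtain ⟨k00, hk00⟩ := hKne
  have hex : ∃ n, ∃ f ∈ E, (∃ g ∈ E, H f g ∧ ∃ j ∈ K, ¬ H f j ∧ ¬ H g j) ∧ N f = n := by
    obtain ⟨a, ha, b, hb, hab, haz, hbz⟩ := h3 k00 hk00
    exact ⟨N a, a, ha, ⟨b, hb, hab, k00, hk00, haz, hbz⟩, rfl⟩
  obtain ⟨f, hf, ⟨g, hg, hfg, j, hj, hfj, hgj⟩, hNf⟩ := Nat.find_spec hex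
  have hmin : ∀ a ∈ E, (∃ b ∈ E, H a b ∧ ∃ j ∈ K, ¬ H a j ∧ ¬ H b j) →
      (∀ l ∈ K, H a l → H f l) → ∀ z ∈ K, H f z → H a z := by
    intro a ha hab hsub z hz hfz
    by_contra haz
    have hlt : N a < N f := by
      apply Set.ncard_lt_ncard
      · refine ⟨fun l hl => ⟨hl.1, hsub l hl.1 hl.2⟩, fun hcon => ?_⟩
        exact haz (hcon ⟨hz, hfz⟩ : z ∈ {k | k ∈ K ∧ H a k}).2
      · exact Set.toFinite _
    have := Nat.find_min' hex ⟨a, ha, hab, rfl⟩
    omega
  have hfar : ∀ h ∈ E, H f h → ∀ k ∈ K, H f k → ¬ H h k := by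
    intro h hh hfh k hk hfk hhk
    obtain ⟨a, ha, b, hb, hab, hj', hsub, z, hz, hfz, haz⟩ := dd f hf h hh hfh k hk hfk hhk
    exact haz (hmin a ha ⟨b, hb, hab, hj'⟩ hsub z hz hfz)
  obtain ⟨⟨k, hk, hfk⟩, -⟩ := hn f hf
  refine ⟨k, hk, ?_⟩
  -- main argument
  have main : ∀ e ∈ E, ∀ h ∈ E, H e h → H e k → H h k → H e j → ¬ H h j → False := by
    intro e he h hh heh hek hhk hej hhj
    have hfe : ¬ H f e := fun hc => hfar e he hc k hk hfk hek
    have hfh : ¬ H f h := fun hc => hfar h hh hc k hk hfk hhk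
    have hne : f ≠ e := fun hc => hfh (hc ▸ heh)
    have hnh : f ≠ h := fun hc => hfe (hc ▸ hs _ _ heh)
    have huni : ∀ l ∈ K, H e l ∨ H h l := far e he h hh heh k hk hek hhk
    have hone : ∀ y ∈ K, ¬ H f y → H e y → ¬ H h y := by
      intro y hy hfy hey hhy
      rcases hT e (mE e he) h (mE h hh) y (mK y hy) f (mE f hf) heh hhy hey hne hnh
        (fun hc => hKE y hy f hf hc.symm) with hc | hc | hc
      · exact hfe hc
      · exact hfh hc
      · exact hfy hc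
    have hgh : ∀ l ∈ K, H g l → ¬ H h l := by
      rcases c5 f hf g hg h hh j hj hfg hfj hgj hhj with hc | hc
      · exact absurd hhk (hc k hk hfk)
      · exact hc
    have hge : ∀ l ∈ K, H g l → H e l := fun l hl hgl => (huni l hl).resolve_right (hgh l hl hgl)
    have claim : ∃ w ∈ K, ¬ H f w ∧ ¬ H e w := by
      by_contra hcon
      push Not at hcon
      -- hcon : ∀ w ∈ K, ¬ H f w → H e w
      have hcon2 : ∀ w ∈ K, ¬ H f w → ¬ H h w := fun w hw hfw => hone w hw hfw (hcon w hw hfw)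
      obtain ⟨p, hp, q, hq, hpq, hpk, hqk⟩ := h3 k hk
      have hy : ∀ a ∈ E, ¬ H a k → (∃ b ∈ E, H a b ∧ ¬ H b k) → ∃ y ∈ K, H a y ∧ ¬ H f y := by
        intro a ha hak ⟨b, hb, hab, hbk⟩
        by_contra hc
        push Not at hc
        exact hak (hmin a ha ⟨b, hb, hab, k, hk, hak, hbk⟩ hc k hk hfk)
      obtain ⟨yp, hyp, hpyp, hfyp⟩ := hy p hp hpk ⟨q, hq, hpq, hqk⟩
      obtain ⟨yq, hyq, hqyq, hfyq⟩ := hy q hq hqk ⟨p, hp, hs _ _ hpq, hpk⟩
      have inner : ∀ p ∈ E, ∀ q ∈ E, H p q → ¬ H p k → ¬ H q k → ∀ yp ∈ K, ∀ yq ∈ K,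
          H p yp → ¬ H f yp → H q yq → ¬ H f yq → H f q → False := by
        intro p hp q hq hpq hpk hqk yp hyp yq hyq hpyp hfyp hqyq hfyq hfq
        have hdisj : ∀ l ∈ K, H p l → ¬ H q l := cl p hp q hq hpq k hk hpk hqk
        have hqyp : ¬ H q yp := hdisj yp hyp hpyp
        have hpyq : ¬ H p yq := fun hc => hdisj yq hyq hc hqyq
        have hqh : ∀ l ∈ K, H q l → ¬ H h l := by
          rcases c5 f hf q hq h hh yp hyp hfq hfyp hqyp (hcon2 yp hyp hfyp) with hc | hc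
          · exact absurd hhk (hc k hk hfk)
          · exact hc
        obtain ⟨-, z, hz, hez⟩ := hn e he
        have hhz : H h z := (huni z hz).resolve_left hez
        have hqz : ¬ H q z := fun hc => hqh z hz hc hhz
        have hpz : H p z := by
          by_contra hpz
          rcases c5 p hp q hq e he z hz hpq hpz hqz hez with hc | hc
          · exact hc yp hyp hpyp (hcon yp hyp hfyp)
          · exact hc yq hyq hqyq (hcon yq hyq hfyq)
        have hpe : p ≠ e := fun hc => hpk (hc ▸ hek)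
        have hph : p ≠ h := fun hc => hpk (hc ▸ hhk)
        have hpf : p ≠ f := fun hc => hpk (hc ▸ hfk)
        rcases hT e (mE e he) h (mE h hh) k (mK k hk) p (mE p hp) heh hhk hek hpe hph
          (fun hc => hKE k hk p hp hc.symm) with hc | hc | hc
        · -- H p e
          have hfp : H f p := by
            rcases hT p (mE p hp) e (mE e he) yp (mK yp hyp) f (mE f hf) hc (hcon yp hyp hfyp) hpyp
              hpf.symm hne (fun hc => hKE yp hyp f hf hc.symm) with h1 | h1 | h1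
            · exact h1
            · exact absurd h1 hfe
            · exact absurd h1 hfyp
          rcases c5 f hf p hp h hh yq hyq hfp hfyq hpyq (hcon2 yq hyq hfyq) with h1 | h1
          · exact h1 k hk hfk hhk
          · exact h1 z hz hpz hhz
        · -- H p h
          obtain ⟨⟨l, hl, hql⟩, -⟩ := hn q hq
          rcases far p hp h hh hc z hz hpz hhz l hl with h1 | h1
          · exact hdisj l hl h1 hql
          · exact hqh l hl hql h1
        · exact hpk hc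
      have hpf : f ≠ p := fun hc => hpk (hc ▸ hfk)
      have hqf : f ≠ q := fun hc => hqk (hc ▸ hfk)
      rcases hC yp (mK yp hyp) p (mE p hp) q (mE q hq) yq (mK yq hyq) e (mE e he) f (mE f hf)
        (hs _ _ hpyp) hpq hqyq (hs _ _ (hcon yq hyq hfyq)) (hcon yp hyp hfyp)
        (fun hc => hKE yp hyp f hf hc.symm) hpf hqf (fun hc => hKE yq hyq f hf hc.symm) hne
        with hc | hc | hc | hc | hc
      · exact hfyp hc
      · exact inner q hq p hp (hs _ _ hpq) hqk hpk yq hyq yp hyp hqyq hfyq hpyp hfyp hc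
      · exact inner p hp q hq hpq hpk hqk yp hyp yq hyq hpyp hfyp hqyq hfyq hc
      · exact hfyq hc
      · exact hfe hc
    obtain ⟨w, hw, hfw, hew⟩ := claim
    have hgw : ¬ H g w := fun hc => hew (hge w hw hc)
    rcases c5 f hf g hg e he w hw hfg hfw hgw hew with hc | hc
    · exact hc k hk hfk hek
    · obtain ⟨⟨l, hl, hgl⟩, -⟩ := hn g hg
      exact hc l hl hgl (hge l hl hgl)
  intro e he h hh heh hek hhk
  have huni : ∀ l ∈ K, H e l ∨ H h l := far e he h hh heh k hk hek hhk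
  have hfe : ¬ H f e := fun hc => hfar e he hc k hk hfk hek
  have hfh : ¬ H f h := fun hc => hfar h hh hc k hk hfk hhk
  have hne : f ≠ e := fun hc => hfh (hc ▸ heh)
  have hnh : f ≠ h := fun hc => hfe (hc ▸ hs _ _ heh)
  by_cases hej : H e j
  · by_cases hhj : H h j
    · rcases hT e (mE e he) h (mE h hh) j (mK j hj) f (mE f hf) heh hhj hej hne hnh
        (fun hc => hKE j hj f hf hc.symm) with hc | hc | hc
      · exact hfe hc
      · exact hfh hc
      · exact hfj hc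
    · exact main e he h hh heh hek hhk hej hhj
  · exact main h hh e he (hs _ _ heh) hhk hek ((huni j hj).resolve_left hej) hej

end Pool.Agent.Helper2.SV
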