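import Pool.Agent.Helper2.SV.GoalsP
import Pool.Agent.Helper2.SV.GoalsF

set_option autoImplicit false

namespace Pool.Agent.Helper2.SV

lemma ff {V : Type} {G : SimpleGraph V} (h : ForkF G) {v a b c d : V} (ha : G.Adj v a)
    (hb : G.Adj v b) (hc : G.Adj v c) (hcd : G.Adj c d) (hab : a ≠ b) (hac : a ≠ c)
    (hbc : b ≠ c) (hdv : d ≠ v) (n1 : ¬ G.Adj a b) (n2 : ¬ G.Adj a c) (n3 : ¬ G.Adj b c)
    (n4 : ¬ G.Adj v d) (n5 : ¬ G.Adj a d) (n6 : ¬ G.Adj b d) : False := by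
  rcases h v a b c d ha hb hc hcd hab hac hbc hdv with h | h | h | h | h | h
  exacts [n1 h, n2 h, n3 h, n4 h, n5 h, n6 h]

theorem goalS2 (hMI : G_MI) : G_S2 := by
  intro V _ G Q hF hQ y hy z hz hyz
  obtain ⟨-, -, hprime, -, htwo⟩ := hMI.2 V G Q hQ
  have h1 : Clq G {q | q ∈ Q ∧ G.Adj z q} := by
    by_contra hcon
    simp only [Clq] at hcon
    push Not at hcon
    obtain ⟨a0, ha0, a1, ha1, hne, hn⟩ := hcon
    -- the relation
    let R : V → V → Prop := fun p q => (p ∈ Q ∧ G.Adj z p) ∧ (q ∈ Q ∧ G.Adj z q) ∧ p ≠ q ∧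
      ¬ G.Adj p q
    let C : Set V := {q | (q ∈ Q ∧ G.Adj z q) ∧ Relation.ReflTransGen R a0 q}
    have hyq : ∀ q ∈ Q, y ≠ q := fun q hq h => hy.1 (h ▸ hq)
    -- the fork
    have fk : ∀ a ∈ Q, ∀ c ∈ Q, G.Adj z a → G.Adj z c → a ≠ c → ¬ G.Adj a c → ∀ e ∈ Q,
        ¬ G.Adj z e → G.Adj c e → G.Adj a e := by
      intro a ha c hc hza hzc hac hnac e he hze hce
      by_contra hae
      exact ff hF hyz.symm hza hzc hce (hyq a ha) (hyq c hc) hac
        (fun h => hz.1 (h ▸ he)) (hy.2 a ha) (hy.2 c hc) hnac hze (hy.2 e he) hae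
    have hCQ : C ⊆ Q := fun q hq => hq.1.1
    have hhom : ∀ x ∈ Q, x ∉ C → (∀ y ∈ C, G.Adj x y) ∨ (∀ y ∈ C, ¬ G.Adj x y) := by
      intro x hx hxC
      by_cases hzx : G.Adj z x
      · left
        intro c hc
        by_contra hn
        exact hxC ⟨⟨hx, hzx⟩, hc.2.tail ⟨hc.1, ⟨hx, hzx⟩, fun h => hxC (h ▸ hc), fun h => hn h.symm⟩⟩
      · -- the same adjacency along paths
        have hsame : ∀ c, Relation.ReflTransGen R a0 c → (G.Adj c x ↔ G.Adj a0 x) := by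
          intro c hc
          induction hc with
          | refl => exact Iff.rfl
          | tail _ hbc ih =>
            rw [← ih]
            obtain ⟨hb, hc, hne, hn⟩ := hbc
            constructor
            · exact fk _ hb.1 _ hc.1 hb.2 hc.2 hne hn x hx hzx
            · exact fk _ hc.1 _ hb.1 hc.2 hb.2 hne.symm (fun h => hn h.symm) x hx hzx
        by_cases h : G.Adj a0 x
        · left
          intro c hc
          exact ((hsame c hc.2).2 h).symm
        · right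
          intro c hc hxc
          exact h ((hsame c hc.2).1 hxc.symm)
    have hCeq := hprime C hCQ hhom ⟨a0, ⟨ha0, Relation.ReflTransGen.refl⟩, a1,
      ⟨ha1, Relation.ReflTransGen.single ⟨ha0, ha1, hne, hn⟩⟩, hne⟩
    obtain ⟨e, he, hze⟩ := hz.2.2
    have : e ∈ C := hCeq ▸ he
    exact hze this.1.2
  refine ⟨h1, ?_⟩
  by_contra hcon
  apply htwo _ {q | q ∈ Q ∧ ¬ G.Adj z q} h1 ?_ ?_
  · intro q hq q' hq' hne
    by_contra hn
    exact hcon ⟨q, hq.1, q', hq'.1, hne, hn, hq.2, hq'.2⟩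
  · intro q hq
    by_cases h : G.Adj z q
    · exact Or.inl ⟨hq, h⟩
    · exact Or.inr ⟨hq, h⟩

end Pool.Agent.Helper2.SV
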